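import Pool.Agent.Helper64.LN.Lem

set_option autoImplicit false

/-! Project LN (MP_2b9d24_gt, phase 2): goals, half plane and coverings. -/

open Topology Filter Set Metric UpperHalfPlane
open scoped MatrixGroups

namespace Pool.Agent.Helper64.LN

/-! ### Discrete groups -/

/-- GOAL G0. -/
def GoalG0.{v} : Prop :=
  ∀ (X : Type v) [TopologicalSpace X] [T2Space X] (B : Set X) (u : ℍ → X), Uni B u →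
    Good (PQ.deckG u)

/-- GOAL G1 (elements with a common fixed point commute). -/
def GoalG1 : Prop :=
  ∀ Γ : Subgroup SL(2, ℝ), Good Γ → ∀ g ∈ Γ, ∀ h ∈ Γ, ∀ (v : ℝ × ℝ) (μ ν : ℝ), v ≠ 0 →
    g 0 0 * v.1 + g 0 1 * v.2 = μ * v.1 → g 1 0 * v.1 + g 1 1 * v.2 = μ * v.2 →
    h 0 0 * v.1 + h 0 1 * v.2 = ν * v.1 → h 1 0 * v.1 + h 1 1 * v.2 = ν * v.2 →
    mh g * mh h = mh h * mh g

/-- GOAL G2 (centralizers). -/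
def GoalG2 : Prop :=
  ∀ Γ : Subgroup SL(2, ℝ), Good Γ →
    (∀ g ∈ Γ, mh g ≠ 1 → 2 ≤ |g 0 0 + g 1 1| ∧ ∃ v, Att g v) ∧
    (∀ a ∈ Γ.map mh, ∀ b ∈ Γ.map mh, ∀ c ∈ Γ.map mh, b ≠ 1 → a * b = b * a → b * c = c * b →
      a * c = c * a) ∧
    ∀ g ∈ Γ.map mh, ∀ a ∈ Γ.map mh, a ≠ 1 → (g * a * g⁻¹) * a = a * (g * a * g⁻¹) →
      g * a = a * g

/-- GOAL G3 (local finiteness). -/
def GoalG3 : Prop :=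
  ∀ Γ : Subgroup SL(2, ℝ), Good Γ → ∀ e ∈ Γ.map mh, ∀ a ∈ Γ.map mh, ∃ F : Set (ℍ ≃ₜ ℍ),
    F.Finite ∧ ∀ g ∈ Γ.map mh, Cr Sp e (g * a * g⁻¹) →
      ∃ k : ℤ, e ^ k * (g * a * g⁻¹) * (e ^ k)⁻¹ ∈ F

/-! ### The crossing lemmas -/

/-- GOAL CR1. -/
def GoalCR1 : Prop :=
  ∀ (g a b : SL(2, ℝ)) (v w : ℝ × ℝ), 2 < |g 0 0 + g 1 1| → mh a ≠ 1 → mh b ≠ 1 → Att a v →
    Att b w → qf g v * qf g w < 0 → Sp (mh g) (mh a) (mh b)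

/-- GOAL CR2. -/
def GoalCR2 : Prop :=
  ∀ (g a b : SL(2, ℝ)) (v w : ℝ × ℝ), 2 < |g 0 0 + g 1 1| → mh a ≠ 1 → mh b ≠ 1 → Att a v →
    Att b w → 0 < qf g v * qf g w → ¬ Sp (mh g) (mh a) (mh b)

/-- GOAL CR3. -/
def GoalCR3 : Prop :=
  ∀ Γ : Subgroup SL(2, ℝ), Good Γ → ∀ g ∈ Γ, ∀ d ∈ Γ, Cr Sp (mh g) (mh d) →
    2 < |g 0 0 + g 1 1| ∧ 2 < |d 0 0 + d 1 1| ∧ Nc (mh g) (mh d)

/-- GOAL SPC (an invariant curve avoiding an axis is on the side of its end). -/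
def GoalSPC : Prop :=
  ∀ (g a : SL(2, ℝ)) (v : ℝ × ℝ) (σ : C(ℝ, ℍ)), mh a ≠ 1 → Att a v → qf g v ≠ 0 →
    (∀ t, σ (t + 1) = a • σ t) → (∀ t, sf g (σ t) ≠ 0) → ∀ t, 0 < qf g v * sf g (σ t)

/-- GOAL SEG (segments). -/
def GoalSEG : Prop :=
  ∀ z w : ℍ, ∃ σ : C(unitInterval, ℍ), σ 0 = z ∧ σ 1 = w ∧
    ∀ g : SL(2, ℝ), 0 < sf g z * sf g w → ∀ t, 0 < sf g z * sf g (σ t)

/-- GOAL AX (the axis as a curve). -/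
def GoalAX : Prop :=
  ∀ Γ : Subgroup SL(2, ℝ), Good Γ → ∀ d ∈ Γ, 2 < |d 0 0 + d 1 1| →
    ∃ α : C(ℝ, ℍ), (∀ t, α (t + 1) = d • α t) ∧ (∀ t, sf d (α t) = 0) ∧
      (∀ z, sf d z = 0 → ∃ t, α t = z) ∧
      ∀ g ∈ Γ, 2 < |g 0 0 + g 1 1| → Nc (mh g) (mh d) →
        ((Cr Sp (mh g) (mh d) → ∃ t, sf g (α t) = 0) ∧
          ∀ t₀, sf g (α t₀) = 0 → Cr Sp (mh g) (mh d) ∧ (∀ t, t ≠ t₀ → sf g (α t) ≠ 0) ∧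
            ∀ s t, s < t₀ → t₀ < t → sf g (α s) * sf g (α t) < 0)

/-- GOAL CO (coordinates). -/
def GoalCO : Prop :=
  ∀ Γ : Subgroup SL(2, ℝ), Good Γ → ∃ τ κ, Coord (Γ.map mh) Sp hy τ κ

/-- GOAL SZ (separation of ends in terms of points on invariant curves). -/
def GoalSZ : Prop :=
  ∀ Γ : Subgroup SL(2, ℝ), Good Γ → ∀ c ∈ Γ.map mh, ∀ a ∈ Γ.map mh, ∀ b ∈ Γ.map mh, hy c →
    Nc c a → Nc c b → ∀ σ η : C(ℝ, ℍ), (∀ t, σ (t + 1) = a (σ t)) → (∀ t, η (t + 1) = b (η t)) →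
    (∀ t, σ t ∉ ax c) → (∀ t, η t ∉ ax c) → ∀ s t, (Sp c a b ↔ Sz c (σ s) (η t))

/-! ### Lifts -/

/-- GOAL L1 (lifts of homeomorphisms). -/
def GoalL1.{v} : Prop :=
  ∀ (X : Type v) [TopologicalSpace X] [T2Space X] (p : X) (P : Set X) (u : ℍ → X),
    Uni (insert p P) u → ∀ f ∈ FixP p P, ∀ z w : ℍ, u w = f (u z) →
      ∃ F : ℍ ≃ₜ ℍ, Lif u f F ∧ F z = w

/-- GOAL L3 (lifts of the identity; normalization). -/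
def GoalL3.{v} : Prop :=
  ∀ (X : Type v) [TopologicalSpace X] [T2Space X] (B : Set X) (u : ℍ → X), Uni B u →
    (∀ F : ℍ ≃ₜ ℍ, (∀ z, u (F z) = u z) → F ∈ deck u) ∧
    (∀ F ∈ deck u, ∀ G ∈ deck u, ∀ z, F z = G z → F = G) ∧
    ∀ (f : X ≃ₜ X) (F : ℍ ≃ₜ ℍ), Lif u f F → (∀ g ∈ deck u, F * g * F⁻¹ ∈ deck u) ∧
      ∀ g ∈ deck u, F⁻¹ * g * F ∈ deck u

/-- GOAL L4 (isotopies act trivially). -/
def GoalL4.{v} : Prop :=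
  ∀ (X : Type v) [TopologicalSpace X] [T2Space X] (p : X) (P : Set X) (u : ℍ → X),
    Uni (insert p P) u → ∀ f ∈ FixP p P, ∀ H : C(unitInterval × X, X), (∀ x, H (0, x) = x) →
    (∀ x, H (1, x) = f x) → (∀ t x, H (t, x) ∈ insert p P ↔ x ∈ insert p P) →
    ∃ F : ℍ ≃ₜ ℍ, Lif u f F ∧ ∀ g ∈ deck u, F * g = g * F

/-- GOAL RHO (the action on the curves). -/
def GoalRHO.{v} : Prop :=
  ∀ (X : Type v) [TopologicalSpace X] [T2Space X] (p : X) (P : Set X) (u : ℍ → X)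
    (γ : ℍ ≃ₜ ℍ), Uni (insert p P) u → γ ∈ deck u →
    ∃ ρ : FixP p P →* Equiv.Perm (YY p P u γ), ∀ (f : FixP p P) (F : ℍ ≃ₜ ℍ),
      Lif u (f : X ≃ₜ X) F → ∀ y : YY p P u γ, (ρ f y : Set (ℍ ≃ₜ ℍ)) = cj F y

/-- GOAL PRES. -/
def GoalPRES : Prop :=
  ∀ (F : ℍ ≃ₜ ℍ) (x y z : Set (ℍ ≃ₜ ℍ)), dY Sp (cj F x) (cj F y) (cj F z) = dY Sp x y z

/-! ### Facts on the curve -/

/-- GOAL PRE (the preimage of the curve). -/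
def GoalPRE.{v} : Prop :=
  ∀ (X : Type v) [TopologicalSpace X] [T2Space X] (p : X) (P : Set X) (u : ℍ → X)
    (C : OpenPartialHomeomorph ℂ X) (K : Set X) (γ : ℍ ≃ₜ ℍ) (ω : C(ℝ, ℍ)),
    Crv p P u C K γ ω → ax γ = Set.range ω ∧
      ∀ z, u z ∈ C '' sphere (0 : ℂ) 1 ↔ ∃ g ∈ deck u, z ∈ ax (g * γ * g⁻¹)

/-- GOAL COL (the collar). -/
def GoalCOL.{v} : Prop :=
  ∀ (X : Type v) [TopologicalSpace X] [T2Space X] (p : X) (P : Set X) (u : ℍ → X)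
    (C : OpenPartialHomeomorph ℂ X) (K : Set X) (γ : ℍ ≃ₜ ℍ) (ω : C(ℝ, ℍ)),
    Crv p P u C K γ ω → ∃ W : ℝ → ℝ → ℍ,
      ContinuousOn (fun q : ℝ × ℝ => W q.1 q.2) (univ ×ˢ Ioo (1 / 2) 2) ∧
      (∀ t, W t 1 = ω t) ∧
      (∀ t, ∀ s ∈ Ioo (1 / 2 : ℝ) 2,
        u (W t s) = C (s * Complex.exp (2 * Real.pi * Complex.I * t))) ∧
      (∀ t, ∀ s ∈ Ioo (1 / 2 : ℝ) 2, W (t + 1) s = γ (W t s)) ∧
      (∀ t t', ∀ s ∈ Ioo (1 / 2 : ℝ) 1, ∀ s' ∈ Ioo (1 : ℝ) 2, Sz γ (W t s) (W t' s')) ∧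
      ∀ t, ∀ᶠ w in 𝓝 (ω t), (Sz γ w (W 0 (3 / 4)) → u w ∉ K) ∧
        (Sz γ w (W 0 (3 / 2)) → u w ∈ interior K)

/-- GOAL REG (regions). -/
def GoalREG.{v} : Prop :=
  ∀ (X : Type v) [TopologicalSpace X] [T2Space X] (p : X) (P : Set X) (u : ℍ → X)
    (C : OpenPartialHomeomorph ℂ X) (K : Set X) (γ : ℍ ≃ₜ ℍ) (ω : C(ℝ, ℍ)),
    Crv p P u C K γ ω → ∀ z w, u z ∉ C '' sphere (0 : ℂ) 1 → u w ∉ C '' sphere (0 : ℂ) 1 →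
      ((∀ g ∈ deck u, ¬ Sz (g * γ * g⁻¹) z w) ↔
        ∃ σ : C(unitInterval, ℍ), σ 0 = z ∧ σ 1 = w ∧ ∀ t, u (σ t) ∉ C '' sphere (0 : ℂ) 1)

/-- GOAL CU1 (the parabolic element of a cusp). -/
def GoalCU1.{v} : Prop :=
  ∀ (X : Type v) [TopologicalSpace X] [T2Space X] (p : X) (B : Set X) (u : ℍ → X)
    (A : SL(2, ℝ)), Uni B u → p ∈ B → PQ.CuspAt u A p →
    piA A ∈ deck u ∧ piA A ≠ 1 ∧ ∀ e ∈ deck u, ¬ Cr Sp (piA A) e ∧ ¬ Cr Sp e (piA A)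

/-- GOAL CU2 (lifts fixing a cusp). -/
def GoalCU2.{v} : Prop :=
  ∀ (X : Type v) [TopologicalSpace X] [T2Space X] (p : X) (P : Set X) (u : ℍ → X)
    (A : SL(2, ℝ)), Uni (insert p P) u → PQ.CuspAt u A p → ∀ f ∈ FixP p P, ∃ F : ℍ ≃ₜ ℍ,
      Lif u f F ∧ (F * piA A * F⁻¹) * piA A = piA A * (F * piA A * F⁻¹)

/-- GOAL BAS (base data). -/
def GoalBAS.{v} : Prop :=
  ∀ (X : Type v) [TopologicalSpace X] [T2Space X] (p : X) (P : Set X) (u : ℍ → X)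
    (C : OpenPartialHomeomorph ℂ X) (K : Set X) (γ : ℍ ≃ₜ ℍ) (ω : C(ℝ, ℍ)),
    Crv p P u C K γ ω → ∃ W A ζ, Bas p u C K γ ω W A ζ

/-- GOAL SIM (simplicity). -/
def GoalSIM.{v} : Prop :=
  ∀ (X : Type v) [TopologicalSpace X] [T2Space X] (p : X) (P : Set X) (u : ℍ → X)
    (C : OpenPartialHomeomorph ℂ X) (K : Set X) (γ : ℍ ≃ₜ ℍ) (ω : C(ℝ, ℍ)),
    Crv p P u C K γ ω → (∀ g ∈ deck u, ¬ Cr Sp γ (g * γ * g⁻¹)) ∧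
      ∀ h ∈ deck u, h * γ = γ * h → ∃ k : ℤ, h = γ ^ k

/-- GOAL F1. -/
def GoalF1.{v} : Prop :=
  ∀ (X : Type v) [TopologicalSpace X] [T2Space X] (p : X) (P : Set X) (u : ℍ → X)
    (C : OpenPartialHomeomorph ℂ X) (K : Set X) (γ : ℍ ≃ₜ ℍ) (ω : C(ℝ, ℍ))
    (W : ℝ → ℝ → ℍ) (A : SL(2, ℝ)) (ζ : ℍ), Crv p P u C K γ ω → Bas p u C K γ ω W A ζ →
    ∀ g ∈ deck u, Nc (g * γ * g⁻¹) γ → ¬ Sp (g * γ * g⁻¹) (piA A) γ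

/-- GOAL F4. -/
def GoalF4.{v} : Prop :=
  ∀ (X : Type v) [TopologicalSpace X] [T2Space X] (p : X) (P : Set X) (u : ℍ → X)
    (C : OpenPartialHomeomorph ℂ X) (K : Set X) (γ : ℍ ≃ₜ ℍ) (ω : C(ℝ, ℍ))
    (W : ℝ → ℝ → ℍ) (A : SL(2, ℝ)) (ζ : ℍ), Crv p P u C K γ ω → Bas p u C K γ ω W A ζ →
    ∀ h ∈ deck u, Sp γ (h * piA A * h⁻¹) (piA A) → ∃ g ∈ deck u, Nc (g * γ * g⁻¹) γ ∧
      Sp (g * γ * g⁻¹) (h * piA A * h⁻¹) γ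

/-- GOAL GA1. -/
def GoalGA1.{v} : Prop :=
  ∀ (X : Type v) [TopologicalSpace X] [T2Space X] (p : X) (P : Set X) (u : ℍ → X)
    (C : OpenPartialHomeomorph ℂ X) (K : Set X) (γ : ℍ ≃ₜ ℍ) (ω : C(ℝ, ℍ))
    (W : ℝ → ℝ → ℍ) (A : SL(2, ℝ)) (ζ : ℍ), Crv p P u C K γ ω → Bas p u C K γ ω W A ζ →
    ∀ ν ∈ deck u, Out u K ν → hy ν → (∀ g ∈ deck u, Nc (g * γ * g⁻¹) ν) →
    ∀ h ∈ deck u, ∃ g ∈ deck u, Sp (g * γ * g⁻¹) (h * piA A * h⁻¹) ν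

/-- GOAL GA2. -/
def GoalGA2.{v} : Prop :=
  ∀ (X : Type v) [TopologicalSpace X] [T2Space X] (p : X) (P : Set X) (u : ℍ → X)
    (C : OpenPartialHomeomorph ℂ X) (K : Set X) (γ : ℍ ≃ₜ ℍ) (ω : C(ℝ, ℍ))
    (W : ℝ → ℝ → ℍ) (A : SL(2, ℝ)) (ζ : ℍ), Crv p P u C K γ ω → Bas p u C K γ ω W A ζ →
    ∀ ν ∈ deck u, Out u K ν → hy ν → (∀ g ∈ deck u, Nc (g * γ * g⁻¹) ν) →
    ∃ h ∈ deck u, Sp γ (h * ν * h⁻¹) (piA A) ∧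
      ∀ g ∈ deck u, Nc (g * γ * g⁻¹) γ → ¬ Sp (g * γ * g⁻¹) (h * ν * h⁻¹) γ

/-- GOAL RET (the retraction). -/
def GoalRET.{v} : Prop :=
  ∀ (X : Type v) [TopologicalSpace X] [T2Space X] (p : X) (P : Set X) (u : ℍ → X)
    (C : OpenPartialHomeomorph ℂ X) (K : Set X) (γ : ℍ ≃ₜ ℍ) (ω : C(ℝ, ℍ))
    (W : ℝ → ℝ → ℍ) (A : SL(2, ℝ)) (ζ : ℍ), Crv p P u C K γ ω → Bas p u C K γ ω W A ζ →
    ∃ ρ : deck u →* deck u,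
      (∀ g : deck u, (ρ g : ℍ ≃ₜ ℍ) ∈ AA (deck u) Sp γ (piA A)) ∧
      ∀ g : deck u, (g : ℍ ≃ₜ ℍ) ∈ AA (deck u) Sp γ (piA A) → ρ g = g

/-- GOAL FGA (paths in a compact set avoiding the punctures). -/
def GoalFGA.{v} : Prop :=
  ∀ (X : Type v) [TopologicalSpace X] [T2Space X] (p : X) (P : Set X) (u : ℍ → X)
    (C : OpenPartialHomeomorph ℂ X) (K : Set X) (γ : ℍ ≃ₜ ℍ) (ω : C(ℝ, ℍ))
    (W : ℝ → ℝ → ℍ) (A : SL(2, ℝ)) (ζ : ℍ), Crv p P u C K γ ω → Bas p u C K γ ω W A ζ →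
    ∃ L : Set X, IsCompact L ∧ Disjoint L (insert p P) ∧ u (W 0 (3 / 4)) ∈ L ∧
      ∀ g ∈ AA (deck u) Sp γ (piA A), ∃ σ : C(unitInterval, ℍ), σ 0 = W 0 (3 / 4) ∧
        σ 1 = g (W 0 (3 / 4)) ∧ ∀ t, u (σ t) ∈ L

/-- GOAL FGB (finite generation). -/
def GoalFGB.{v} : Prop :=
  ∀ (X : Type v) [TopologicalSpace X] [T2Space X] (B : Set X) (u : ℍ → X), Uni B u →
    ∀ L : Set X, IsCompact L → Disjoint L B → ∀ z : ℍ, u z ∈ L →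
    ∃ F : Set (ℍ ≃ₜ ℍ), F.Finite ∧ F ⊆ deck u ∧ ∀ g ∈ deck u,
      (∃ σ : C(unitInterval, ℍ), σ 0 = z ∧ σ 1 = g z ∧ ∀ t, u (σ t) ∈ L) →
      g ∈ Subgroup.closure F

end Pool.Agent.Helper64.LN
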