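import Pool.Agent.Helper64.LN.DefsC

set_option autoImplicit false

/-! Project LN (MP_2b9d24_gt, phase 2): goals, twists and surfaces. -/

open Topology Filter Set Metric UpperHalfPlane
open scoped MatrixGroups
open Pool.Agent.Helper78.BigMap

namespace Pool.Agent.Helper64.LN

/-! ### Twists -/

/-- GOAL T0 (existence of the twists and of the isotopy between them). -/
def GoalT0.{v} : Prop :=
  ∀ (X : Type v) [TopologicalSpace X] [T2Space X] (C : OpenPartialHomeomorph ℂ X),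
    C.source = {z : ℂ | 1 / 2 < ‖z‖ ∧ ‖z‖ < 2} → ∃ Ti To : X ≃ₜ X, IsTw C chi Ti ∧ IsTw C cho To ∧
      (∀ x, x ∉ C.target → Ti x = x ∧ To x = x) ∧
      ∃ H : C(unitInterval × X, X), (∀ x, H (0, x) = Ti x) ∧ (∀ x, H (1, x) = To x) ∧
        (∀ t x, x ∉ C.target → H (t, x) = x) ∧ (∀ t, ∀ x ∈ C.target, H (t, x) ∈ C.target) ∧
        ∀ (t : unitInterval) (z : ℂ), ‖z‖ = 1 →
          H (t, C z) = C (z * Complex.exp (2 * Real.pi * Complex.I * ((1 - (t : ℝ) : ℝ))))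

/-- GOAL T1 (the next lines). -/
def GoalT1.{v} : Prop :=
  ∀ (X : Type v) [TopologicalSpace X] [T2Space X] (p : X) (P : Set X) (u : ℍ → X)
    (C : OpenPartialHomeomorph ℂ X) (K : Set X) (γ : ℍ ≃ₜ ℍ) (ω : C(ℝ, ℍ)),
    Crv p P u C K γ ω → ∀ δ ∈ deck u, Cr Sp γ δ → ∃ g₁ ∈ deck u, ∃ g₂ ∈ deck u,
      Nc γ (g₁ * γ * g₁⁻¹) ∧ Nc γ (g₂ * γ * g₂⁻¹) ∧ Cr Sp (g₁ * γ * g₁⁻¹) δ ∧
      Cr Sp (g₂ * γ * g₂⁻¹) δ ∧ Sp γ (g₁ * γ * g₁⁻¹) (g₂ * γ * g₂⁻¹) ∧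
      (∃ σ : C(unitInterval, ℍ), σ 0 ∈ ax γ ∧ σ 1 ∈ ax (g₁ * γ * g₁⁻¹) ∧ ∀ t, u (σ t) ∈ K) ∧
      ∃ σ : C(unitInterval, ℍ), σ 0 ∈ ax γ ∧ σ 1 ∈ ax (g₂ * γ * g₂⁻¹) ∧
        ∀ t, u (σ t) ∉ interior K

/-- GOAL T2 (the lifts of the inner and the outer twist). -/
def GoalT2.{v} : Prop :=
  ∀ (X : Type v) [TopologicalSpace X] [T2Space X] (p : X) (P : Set X) (u : ℍ → X)
    (C : OpenPartialHomeomorph ℂ X) (K : Set X) (γ : ℍ ≃ₜ ℍ) (ω : C(ℝ, ℍ)),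
    Crv p P u C K γ ω → ∀ (Ti To : X ≃ₜ X) (H : C(unitInterval × X, X)),
    (∀ x, H (0, x) = Ti x) → (∀ x, H (1, x) = To x) → (∀ t x, x ∉ C.target → H (t, x) = x) →
    (∀ t, ∀ x ∈ C.target, H (t, x) ∈ C.target) →
    (∀ (t : unitInterval) (z : ℂ), ‖z‖ = 1 →
      H (t, C z) = C (z * Complex.exp (2 * Real.pi * Complex.I * ((1 - (t : ℝ) : ℝ))))) →
    ∀ Fi Fo : ℍ ≃ₜ ℍ, Lif u Ti Fi → Lif u To Fo → (∀ t, Fi (ω t) = ω t) →
    (∀ t, Fo (ω t) = ω t) → ∀ g ∈ deck u, Fo * g * Fo⁻¹ = γ * (Fi * g * Fi⁻¹) * γ⁻¹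

/-- GOAL T3 (lines reached without meeting the twist region are fixed). -/
def GoalT3.{v} : Prop :=
  ∀ (X : Type v) [TopologicalSpace X] [T2Space X] (p : X) (P : Set X) (u : ℍ → X)
    (C : OpenPartialHomeomorph ℂ X) (K : Set X) (γ : ℍ ≃ₜ ℍ) (ω : C(ℝ, ℍ)),
    Crv p P u C K γ ω → ∀ (T : X ≃ₜ X) (F : ℍ ≃ₜ ℍ) (M : Set X), Lif u T F →
    (∀ t, F (ω t) = ω t) → (∀ x ∈ M, T x = x) → C '' sphere (0 : ℂ) 1 ⊆ M →
    ∀ g ∈ deck u, (∃ σ : C(unitInterval, ℍ), σ 0 ∈ ax γ ∧ σ 1 ∈ ax (g * γ * g⁻¹) ∧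
      ∀ t, u (σ t) ∈ M) → F * (g * γ * g⁻¹) * F⁻¹ = g * γ * g⁻¹

/-! ### Homeomorphisms of the surface -/

/-- GOAL PU1 (moving a point in a disc). -/
def GoalPU1 : Prop :=
  ∃ μ : ℂ → ℂ → ℂ → ℂ, (∀ R < 1, ∃ r < 1, ∀ a b : ℂ, ‖a‖ ≤ R → ‖b‖ ≤ R → ∀ z : ℂ, r ≤ ‖z‖ →
      μ a b z = z) ∧
    (∀ a b, ‖a‖ < 1 → ‖b‖ < 1 → μ a b a = b) ∧ (∀ a z, ‖a‖ < 1 → μ a a z = z) ∧
    (∀ a b, ‖a‖ < 1 → ‖b‖ < 1 → ∀ z, μ b a (μ a b z) = z) ∧
    (∀ a b z, ‖a‖ < 1 → ‖b‖ < 1 → ‖z‖ < 1 → ‖μ a b z‖ < 1) ∧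
    ContinuousOn (fun q : ℂ × ℂ × ℂ => μ q.1 q.2.1 q.2.2) {q | ‖q.1‖ < 1 ∧ ‖q.2.1‖ < 1}

/-- GOAL PU2 (isotopies moving a point along a path). -/
def GoalPU2.{v} : Prop :=
  ∀ (S : Type v) [TopologicalSpace S] [T2Space S],
    (∀ x : S, ∃ J : OpenPartialHomeomorph ℂ S, J.source = ball (0 : ℂ) 1 ∧ x ∈ J.target) →
    ∀ η : C(unitInterval, S), ∃ H : (unitInterval × S) ≃ₜ (unitInterval × S),
      (∀ q, (H q).1 = q.1) ∧ (∀ x, (H (0, x)).2 = x) ∧ (∀ t, (H (t, η 0)).2 = η t) ∧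
      ∃ L : Set S, IsCompact L ∧ ∀ t x, x ∉ L → (H (t, x)).2 = x

/-- GOAL IS (the homeomorphisms isotopic to the identity form a normal subgroup). -/
def GoalIS.{v} : Prop :=
  ∀ (S : Type v) [TopologicalSpace S], ∃ N : Subgroup (S ≃ₜ S), N.Normal ∧
    ∀ f, f ∈ N ↔ IsotopicToId f

/-- GOAL EX1 (small neighbourhoods with frontier disjoint from `E`). -/
def GoalEX1.{v} : Prop :=
  ∀ (X : Type v) [TopologicalSpace X] [T2Space X] [LocallyCompactSpace X] (E : Set X),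
    IsClosed E → IsTotallyDisconnected E → ∀ x : X, ∀ U ∈ 𝓝 x, ∃ V : Set X, IsOpen V ∧ x ∈ V ∧
      V ⊆ U ∧ IsCompact (closure V) ∧ Disjoint (frontier V) E

/-- GOAL EX2 (extension of homeomorphisms, up to infinity). -/
def GoalEX2.{v} : Prop :=
  ∀ (X : Type v) [TopologicalSpace X] [T2Space X] [LocallyCompactSpace X] [NoncompactSpace X]
    (E : Set X), Thin E → ∀ f : Sb E ≃ₜ Sb E, ∃ F : OnePoint X ≃ₜ OnePoint X,
      (∀ x : Sb E, F ((x : X) : OnePoint X) = (((f x : Sb E) : X) : OnePoint X)) ∧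
      ((∀ x ∈ E, F OnePoint.infty ≠ ((x : X) : OnePoint X)) →
        ∃ G : X ≃ₜ X, (∀ x : Sb E, G x = f x) ∧ ∀ x, G x ∈ E ↔ x ∈ E)

/-- GOAL EX3 (non-planar ends do not become planar). -/
def GoalEX3.{v} : Prop :=
  ∀ (X : Type v) [TopologicalSpace X] [T2Space X] [LocallyCompactSpace X] [NoncompactSpace X]
    (E : Set X), Thin E → NonPl E → PlEnds E → ∀ f : Sb E ≃ₜ Sb E,
    ∀ F : OnePoint X ≃ₜ OnePoint X,
      (∀ x : Sb E, F ((x : X) : OnePoint X) = (((f x : Sb E) : X) : OnePoint X)) →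
      ∀ x ∈ E, F OnePoint.infty ≠ ((x : X) : OnePoint X)

/-- GOAL EX5 (extension of isotopies). -/
def GoalEX5.{v} : Prop :=
  ∀ (X : Type v) [TopologicalSpace X] [T2Space X] [LocallyCompactSpace X] (E : Set X), Thin E →
    ∀ H : (unitInterval × Sb E) ≃ₜ (unitInterval × Sb E), (∀ q, (H q).1 = q.1) →
    (∀ x, (H (0, x)).2 = x) →
    ∃ G : C(unitInterval × X, X), (∀ t (x : Sb E), G (t, x) = (H (t, x)).2) ∧
      ∀ t, ∀ x ∈ E, G (t, x) = x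

/-- GOAL IP (infinite products of homeomorphisms with disjoint supports). -/
def GoalIP.{v} : Prop :=
  ∀ (X : Type v) [TopologicalSpace X] [T2Space X] (W : ℕ → Set X) (f : ℕ → X ≃ₜ X),
    (∀ i, IsClosed (W i)) → Pairwise (fun i j => Disjoint (W i) (W j)) → LocallyFinite W →
    (∀ i x, x ∉ W i → f i x = x) →
    ∃ g : X ≃ₜ X, (∀ i, ∀ x ∈ W i, g x = f i x) ∧ (∀ x, (∀ i, x ∉ W i) → g x = x) ∧
      ∀ x, ∃ i, ∀ᶠ y in 𝓝 x, g y = f i y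

/-- GOAL FE (homeomorphisms with locally finite compact supports act trivially on the ends). -/
def GoalFE.{v} : Prop :=
  ∀ (S : Type v) [TopologicalSpace S] [T2Space S] (W : ℕ → Set S) (g : S ≃ₜ S),
    (∀ i, IsCompact (W i)) → Pairwise (fun i j => Disjoint (W i) (W j)) → LocallyFinite W →
    (∀ i, g '' W i = W i) → (∀ x, (∀ i, x ∉ W i) → g x = x) → FixesEnds g

/-- GOAL OR (the twists preserve the orientation). -/
def GoalOR.{v} : Prop :=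
  ∀ (S : Type v) [TopologicalSpace S] [T2Space S] (O : Set (OpenPartialHomeomorph S ℂ))
    (k : OpenPartialHomeomorph ℂ S) (T : S ≃ₜ S), IsOrientedAtlas O → k.symm ∈ O →
    k.source = {z : ℂ | 1 / 2 < ‖z‖ ∧ ‖z‖ < 2} → IsTw k cho T → PreservesOrientation O T

/-- GOAL OC (orientation preserving homeomorphisms form a group; the property is local). -/
def GoalOC.{v} : Prop :=
  ∀ (S : Type v) [TopologicalSpace S] [T2Space S] (O : Set (OpenPartialHomeomorph S ℂ)),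
    IsOrientedAtlas O →
    (∀ f g : S ≃ₜ S, PreservesOrientation O f → PreservesOrientation O g →
      PreservesOrientation O (f * g)) ∧
    PreservesOrientation O (1 : S ≃ₜ S) ∧
    ∀ g : S ≃ₜ S, (∀ x, ∃ f : S ≃ₜ S, PreservesOrientation O f ∧ ∀ᶠ y in 𝓝 x, g y = f y) →
      PreservesOrientation O g

end Pool.Agent.Helper64.LN
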