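import Pool.Agent.Helper64.LN.GoalsA
import Pool.Agent.Helper56.LN.M2
import Pool.Agent.Helper56.LN.M3

set_option autoImplicit false

open Topology Filter Set Metric UpperHalfPlane
open scoped MatrixGroups

namespace Pool.Agent.Helper64.LN

theorem goalHO : GoalHO := by
  intro H _ D A A' hle hA'D hfg hrf ⟨e⟩ ⟨ρ, hρ1, hρ2⟩
  have hAD : A ≤ D := hle.trans hA'D
  have hle' : A.subgroupOf D ≤ A'.subgroupOf D := fun x hx => hle hx
  let e' : A.subgroupOf D ≃* A'.subgroupOf D :=
    (Subgroup.subgroupOfEquivOfLe hAD).trans (e.trans (Subgroup.subgroupOfEquivOfLe hA'D).symm)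
  have hfgA : Group.FG A := (Group.fg_iff_subgroup_fg _).2 hfg
  have hfg' : Group.FG (A.subgroupOf D) :=
    Group.fg_of_surjective (f := (Subgroup.subgroupOfEquivOfLe hAD).symm.toMonoidHom)
      (Subgroup.subgroupOfEquivOfLe hAD).symm.surjective
  have hrf' : Group.ResiduallyFinite (A.subgroupOf D) := by
    refine Group.residuallyFinite_of_forall_exists_finite_monoidHom fun a ha => ?_
    have h1 : ((a : D) : H) ∈ A := a.2
    have h2 : ((a : D) : H) ≠ 1 := by
      intro h
      apply ha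
      apply Subtype.ext
      apply Subtype.ext
      exact h
    obtain ⟨M, iM, fM, f, x, hx1, hx2⟩ := hrf _ h1 h2
    refine ⟨M, iM, fM, f.comp (Subgroup.subgroupOfEquivOfLe hAD).toMonoidHom, ?_⟩
    have h3 : (Subgroup.subgroupOfEquivOfLe hAD) a = x := by
      apply Subtype.ext
      rw [hx1]
      rfl
    change f ((Subgroup.subgroupOfEquivOfLe hAD) a) ≠ 1
    rw [h3]
    exact hx2
  let ρ' : D →* A.subgroupOf D := ρ.codRestrict _ (fun g => hρ1 g)
  have key := Helper56.LN.eq_of_retract (A.subgroupOf D) (A'.subgroupOf D) hle' e' hfg' hrf' ρ'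
    (fun a => Subtype.ext (hρ2 _ a.2))
  refine le_antisymm hle fun x hx => ?_
  have h4 : (⟨x, hA'D hx⟩ : D) ∈ A'.subgroupOf D := hx
  rw [← key] at h4
  exact h4

end Pool.Agent.Helper64.LN
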