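import Pool.Agent.Helper64.LN.GoalsA
import Pool.Agent.Helper56.LN.M2

set_option autoImplicit false

open Topology Filter Set Metric UpperHalfPlane
open scoped MatrixGroups

namespace Pool.Agent.Helper64.LN

theorem goalMA : GoalMA := by
  intro A hfg hm a ha ha1
  obtain ⟨S, hS⟩ := hfg
  have hSA : ∀ s ∈ S, ∃ g : SL(2, ℝ), s = mh g := by
    intro s hs
    apply hm
    rw [← hS]
    exact Subgroup.subset_closure hs
  choose! g hg using hSA
  let B : Subgroup SL(2, ℝ) := Subgroup.closure (g '' (S : Set (ℍ ≃ₜ ℍ)))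
  have hBfg : B.FG := by
    classical
    refine ⟨S.image g, ?_⟩
    rw [Finset.coe_image]
  have hBA : B.map mh = A := by
    rw [MonoidHom.map_closure, ← hS]
    congr 1
    ext x
    constructor
    · rintro ⟨_, ⟨s, hs, rfl⟩, rfl⟩
      rw [← hg s hs]
      exact hs
    · intro hx
      exact ⟨g x, ⟨x, hx, rfl⟩, (hg x hx).symm⟩
  have hmem : ∀ b : B, mh (b : SL(2, ℝ)) ∈ A := by
    intro b
    rw [← hBA]
    exact ⟨b, b.2, rfl⟩
  let q : B →* A := (mh.comp B.subtype).codRestrict A hmem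
  have hq : Function.Surjective q := by
    rintro ⟨x, hx⟩
    rw [← hBA] at hx
    obtain ⟨b, hb, rfl⟩ := hx
    exact ⟨⟨b, hb⟩, rfl⟩
  obtain ⟨b, hb⟩ := hq ⟨a, ha⟩
  have hba : mh (b : SL(2, ℝ)) = a := congrArg Subtype.val hb
  have one' : mh (1 : SL(2, ℝ)) = 1 := map_one mh
  have hb1 : (b : SL(2, ℝ)) ≠ 1 := by
    intro h
    rw [h, one'] at hba
    exact ha1 hba.symm
  have hb2 : (b : SL(2, ℝ)) ≠ -1 := by
    intro h
    rw [h, mh_neg, one'] at hba
    exact ha1 hba.symm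
  obtain ⟨F, iF, fF, f, hf1, hf2⟩ := Helper56.LN.exists_finite_monoidHom B hBfg b hb1 hb2
  have hker : q.ker ≤ f.ker := by
    intro c hc
    have h1 : mh (c : SL(2, ℝ)) = mh 1 := by
      rw [one']
      exact congrArg Subtype.val hc
    rcases (mh_eq_iff _ _).1 h1 with h2 | h2
    · have : c = 1 := Subtype.ext h2
      rw [this]
      exact one_mem _
    · exact hf2 c h2
  refine ⟨F, iF, fF, q.liftOfSurjective hq ⟨f, hker⟩, ⟨a, ha⟩, rfl, ?_⟩
  have h3 : (q.liftOfSurjective hq ⟨f, hker⟩) (q b) = f b :=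
    MonoidHom.liftOfRightInverse_comp_apply _ _ _ _ _
  rw [← hb, h3]
  exact hf1

end Pool.Agent.Helper64.LN
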