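import Pool.Agent.Helper64.LN.Defs

set_option autoImplicit false

/-! Project LN: elementary formulas. -/

open Topology Filter Set Metric UpperHalfPlane
open scoped MatrixGroups

namespace Pool.Agent.Helper64.LN

lemma mh_apply (g : SL(2, ℝ)) (z : ℍ) : mh g z = g • z := rfl

lemma mh_neg (g : SL(2, ℝ)) : mh (-g) = mh g := by
  ext1 z
  change (-g) • z = g • z
  apply UpperHalfPlane.ext
  rw [UpperHalfPlane.coe_specialLinearGroup_apply, UpperHalfPlane.coe_specialLinearGroup_apply]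
  have e : ∀ i j, ((-g : SL(2, ℝ)) : Matrix (Fin 2) (Fin 2) ℝ) i j = -(g i j) := fun _ _ => rfl
  rw [e, e, e, e]
  simp only [map_neg, Complex.ofReal_neg, neg_mul]
  rw [← neg_add, ← neg_add, neg_div_neg_eq]

lemma sf_neg (g : SL(2, ℝ)) (z : ℍ) : sf (-g) z = -sf g z := by
  simp only [sf, Matrix.SpecialLinearGroup.coe_neg, Matrix.neg_apply]
  ring

lemma sf_inv (g : SL(2, ℝ)) (z : ℍ) : sf g⁻¹ z = -sf g z := by
  simp only [sf, Matrix.SpecialLinearGroup.coe_inv, Matrix.adjugate_fin_two, Matrix.of_apply,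
    Matrix.cons_val', Matrix.cons_val_zero, Matrix.cons_val_one, Matrix.cons_val_fin_one]
  ring

lemma mh_eq_iff (g h : SL(2, ℝ)) : mh g = mh h ↔ g = h ∨ g = -h := by
  constructor
  · intro e
    have key : ∀ k : SL(2, ℝ), mh k = 1 → k = 1 ∨ k = -1 := by
      intro k hk
      have hkz : ∀ z : ℍ, k • z = z := fun z => by
        have := congrArg (fun F : ℍ ≃ₜ ℍ => F z) hk
        exact this
      have h1 := hkz UpperHalfPlane.I
      have h2 := hkz ⟨2 * Complex.I, by simp⟩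
      rw [UpperHalfPlane.specialLinearGroup_apply] at h1 h2
      have h1' := congrArg (fun z : ℍ => (z : ℂ)) h1
      have h2' := congrArg (fun z : ℍ => (z : ℂ)) h2
      have hdet := k.det_coe
      rw [Matrix.det_fin_two] at hdet
      simp only [UpperHalfPlane.coe_I] at h1' h2'
      have n1 : ((k 1 0 : ℝ) : ℂ) * Complex.I + ((k 1 1 : ℝ) : ℂ) ≠ 0 := by
        intro h0
        have hi := congrArg Complex.im h0
        have hr := congrArg Complex.re h0
        simp at hi hr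
        rw [hi, hr] at hdet
        norm_num at hdet
      have n2 : ((k 1 0 : ℝ) : ℂ) * (2 * Complex.I) + ((k 1 1 : ℝ) : ℂ) ≠ 0 := by
        intro h0
        have hi := congrArg Complex.im h0
        have hr := congrArg Complex.re h0
        simp at hi hr
        rw [hi, hr] at hdet
        norm_num at hdet
      have e1 : ((k 0 0 : ℝ) : ℂ) * Complex.I + ((k 0 1 : ℝ) : ℂ) =
          Complex.I * (((k 1 0 : ℝ) : ℂ) * Complex.I + ((k 1 1 : ℝ) : ℂ)) := by
        have := (div_eq_iff n1).1 (by simpa using h1')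
        simpa using this
      have e2 : ((k 0 0 : ℝ) : ℂ) * (2 * Complex.I) + ((k 0 1 : ℝ) : ℂ) =
          (2 * Complex.I) * (((k 1 0 : ℝ) : ℂ) * (2 * Complex.I) + ((k 1 1 : ℝ) : ℂ)) := by
        have := (div_eq_iff n2).1 (by simpa using h2')
        simpa using this
      have r1 := congrArg Complex.re e1
      have i1 := congrArg Complex.im e1
      have r2 := congrArg Complex.re e2
      simp at r1 i1 r2
      have hc : k 1 0 = 0 := by linarith
      have hb : k 0 1 = 0 := by rw [r1, hc]; simp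
      have hsq : k 0 0 * k 0 0 = 1 := by
        have : k 1 1 = k 0 0 := i1.symm
        rw [this, hb] at hdet
        linarith
      have hcase : k 0 0 = 1 ∨ k 0 0 = -1 := by
        rcases mul_self_eq_one_iff.1 hsq with h | h
        · exact Or.inl h
        · exact Or.inr h
      rcases hcase with h | h
      · left
        ext i j
        fin_cases i <;> fin_cases j <;> simp [h, hb, hc, ← i1]
      · right
        ext i j
        fin_cases i <;> fin_cases j <;> simp [h, hb, hc, ← i1]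
    have h2 : mh (g * h⁻¹) = 1 := by
      rw [map_mul, map_inv, e, mul_inv_cancel]
    rcases key _ h2 with h3 | h3
    · left
      exact mul_inv_eq_one.1 h3
    · right
      have : g = (-1) * h := by rw [← h3]; simp
      rw [this]
      simp
  · rintro (rfl | rfl)
    · rfl
    · exact mh_neg h

/-- The point-level separation does not depend on the matrix. -/
lemma Sz_mh (g : SL(2, ℝ)) (z w : ℍ) : Sz (mh g) z w ↔ sf g z * sf g w < 0 := by
  constructor
  · rintro ⟨h, h1, h2⟩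
    rcases (mh_eq_iff g h).1 h1 with rfl | rfl
    · exact h2
    · rw [sf_neg, sf_neg]
      simpa using h2
  · intro h
    exact ⟨g, rfl, h⟩

lemma ax_mh (g : SL(2, ℝ)) (z : ℍ) : z ∈ ax (mh g) ↔ sf g z = 0 := by
  constructor
  · rintro ⟨h, h1, h2⟩
    rcases (mh_eq_iff g h).1 h1 with rfl | rfl
    · exact h2
    · rw [sf_neg, h2, neg_zero]
  · intro h
    exact ⟨g, rfl, h⟩

lemma denom_pos (h : SL(2, ℝ)) (z : ℍ) :
    0 < (h 1 0 * z.re + h 1 1) ^ 2 + (h 1 0 * z.im) ^ 2 := by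
  have hdet := h.det_coe
  rw [Matrix.det_fin_two] at hdet
  have him : z.im ≠ 0 := z.im_pos.ne'
  by_contra h0
  have h00 : (h 1 0 * z.re + h 1 1) ^ 2 + (h 1 0 * z.im) ^ 2 = 0 :=
    le_antisymm (not_lt.1 h0) (by positivity)
  have h1 : h 1 0 * z.im = 0 := by
    nlinarith [sq_nonneg (h 1 0 * z.re + h 1 1), sq_nonneg (h 1 0 * z.im)]
  have hc : h 1 0 = 0 := by
    rcases mul_eq_zero.1 h1 with h2 | h2
    · exact h2
    · exact absurd h2 him
  have h2 : h 1 1 = 0 := by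
    rw [hc] at h00
    nlinarith
  rw [hc, h2] at hdet
  norm_num at hdet

/-- Real and imaginary part of `h • z`. -/
lemma smul_eqs (h : SL(2, ℝ)) (z : ℍ) :
    (h • z).re * (h 1 0 * z.re + h 1 1) - (h • z).im * (h 1 0 * z.im) = h 0 0 * z.re + h 0 1 ∧
    (h • z).re * (h 1 0 * z.im) + (h • z).im * (h 1 0 * z.re + h 1 1) = h 0 0 * z.im := by
  have hz : ((h • z : ℍ) : ℂ) = ((h 0 0 : ℂ) * z + h 0 1) / ((h 1 0 : ℂ) * z + h 1 1) := by
    rw [UpperHalfPlane.specialLinearGroup_apply]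
    simp
  have hne : (h 1 0 : ℂ) * z + h 1 1 ≠ 0 := by
    intro h0
    have hr := congrArg Complex.re h0
    have hi := congrArg Complex.im h0
    simp at hr hi
    have := denom_pos h z
    rw [hr] at this
    rcases hi with hi | hi
    · rw [hi] at this
      simp at this
    · exact absurd hi z.im_pos.ne'
  rw [eq_div_iff hne] at hz
  have hr := congrArg Complex.re hz
  have hi := congrArg Complex.im hz
  simp at hr hi
  exact ⟨hr, hi⟩

/-- Equivariance. -/
lemma sf_smul (h g : SL(2, ℝ)) (z : ℍ) :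
    sf (h * g * h⁻¹) (h • z) * ((h 1 0 * z.re + h 1 1) ^ 2 + (h 1 0 * z.im) ^ 2) = sf g z := by
  have hdet := h.det_coe
  rw [Matrix.det_fin_two] at hdet
  obtain ⟨e1, e2⟩ := smul_eqs h z
  simp only [sf, Matrix.SpecialLinearGroup.coe_mul, Matrix.SpecialLinearGroup.coe_inv,
    Matrix.adjugate_fin_two, Matrix.mul_apply, Fin.sum_univ_two, Matrix.of_apply,
    Matrix.cons_val', Matrix.cons_val_zero, Matrix.cons_val_one, Matrix.cons_val_fin_one]
  generalize (h • z).re = X at *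
  generalize (h • z).im = Y at *
  generalize z.re = x at *
  generalize z.im = y at *
  generalize h 0 0 = a at *
  generalize h 0 1 = b at *
  generalize h 1 0 = c at *
  generalize h 1 1 = d at *
  have n1 : (X ^ 2 + Y ^ 2) * ((c * x + d) ^ 2 + (c * y) ^ 2) = (a * x + b) ^ 2 + (a * y) ^ 2 := by
    rw [← e1, ← e2]
    ring
  have n2 : X * ((c * x + d) ^ 2 + (c * y) ^ 2) = (a * x + b) * (c * x + d) + a * y * (c * y) := by
    rw [← e1, ← e2]
    ring
  have key : ∀ p q r N : ℝ, (p * (X ^ 2 + Y ^ 2) + q * X - r) * N =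
      p * ((X ^ 2 + Y ^ 2) * N) + q * (X * N) - r * N := by
    intro p q r N
    ring
  rw [key, n1, n2]
  have e : a * d = 1 + b * c := by linarith
  have hd2 : (a * d - b * c) ^ 2 = 1 := by rw [hdet]; norm_num
  linear_combination (g 1 0 * (x ^ 2 + y ^ 2) + (g 1 1 - g 0 0) * x - g 0 1) * hd2

lemma sf_smul_pos (h g : SL(2, ℝ)) (z : ℍ) :
    ∃ t : ℝ, 0 < t ∧ sf (h * g * h⁻¹) (h • z) = t * sf g z := by
  refine ⟨((h 1 0 * z.re + h 1 1) ^ 2 + (h 1 0 * z.im) ^ 2)⁻¹, inv_pos.2 (denom_pos h z), ?_⟩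
  rw [← sf_smul h g z, mul_comm (sf (h * g * h⁻¹) (h • z)), ← mul_assoc,
    inv_mul_cancel₀ (denom_pos h z).ne', one_mul]

/-- Equivariance of the point-level separation. -/
lemma Sz_conj (h g : SL(2, ℝ)) (z w : ℍ) :
    Sz (mh h * mh g * (mh h)⁻¹) (mh h z) (mh h w) ↔ Sz (mh g) z w := by
  rw [← map_inv, ← map_mul, ← map_mul, Sz_mh, Sz_mh]
  obtain ⟨t, ht, e1⟩ := sf_smul_pos h g z
  obtain ⟨s, hs, e2⟩ := sf_smul_pos h g w
  change sf (h * g * h⁻¹) (h • z) * sf (h * g * h⁻¹) (h • w) < 0 ↔ _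
  rw [e1, e2, show t * sf g z * (s * sf g w) = (t * s) * (sf g z * sf g w) by ring]
  constructor
  · intro h1
    by_contra h2
    exact absurd h1 (not_lt.2 (mul_nonneg (mul_pos ht hs).le (not_lt.1 h2)))
  · intro h1
    exact mul_neg_of_pos_of_neg (mul_pos ht hs) h1

lemma ax_conj (h g : SL(2, ℝ)) (z : ℍ) :
    mh h z ∈ ax (mh h * mh g * (mh h)⁻¹) ↔ z ∈ ax (mh g) := by
  rw [← map_inv, ← map_mul, ← map_mul, ax_mh, ax_mh]
  obtain ⟨t, ht, e1⟩ := sf_smul_pos h g z
  change sf (h * g * h⁻¹) (h • z) = 0 ↔ _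
  rw [e1, mul_eq_zero]
  simp [ht.ne']

/-- Equivariance for boundary points. -/
lemma qf_smul (h g : SL(2, ℝ)) (v : ℝ × ℝ) :
    qf (h * g * h⁻¹) (h 0 0 * v.1 + h 0 1 * v.2, h 1 0 * v.1 + h 1 1 * v.2) = qf g v := by
  have hdet := h.det_coe
  rw [Matrix.det_fin_two] at hdet
  simp only [qf, Matrix.SpecialLinearGroup.coe_mul, Matrix.SpecialLinearGroup.coe_inv,
    Matrix.adjugate_fin_two, Matrix.mul_apply, Fin.sum_univ_two, Matrix.of_apply,
    Matrix.cons_val', Matrix.cons_val_zero, Matrix.cons_val_one, Matrix.cons_val_fin_one]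
  generalize h 0 0 = a at *
  generalize h 0 1 = b at *
  generalize h 1 0 = c at *
  generalize h 1 1 = d at *
  have hd2 : (a * d - b * c) ^ 2 = 1 := by rw [hdet]; norm_num
  linear_combination (v.1 * (g 1 0 * v.1 + g 1 1 * v.2) - v.2 * (g 0 0 * v.1 + g 0 1 * v.2)) * hd2

lemma mem_deck {X : Type*} [TopologicalSpace X] {u : ℍ → X} {F : ℍ ≃ₜ ℍ} :
    F ∈ deck u ↔ ∃ g : SL(2, ℝ), (∀ z : ℍ, u (g • z) = u z) ∧ F = mh g := by
  constructor
  · rintro ⟨g, hg, rfl⟩
    exact ⟨g, hg, rfl⟩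
  · rintro ⟨g, hg, rfl⟩
    exact ⟨g, hg, rfl⟩

lemma deck_apply {X : Type*} [TopologicalSpace X] {u : ℍ → X} {F : ℍ ≃ₜ ℍ} (hF : F ∈ deck u)
    (z : ℍ) : u (F z) = u z := by
  obtain ⟨g, hg, rfl⟩ := mem_deck.1 hF
  exact hg z

/-- Conjugation invariance of the separation. -/
lemma Sp_conj (F γ α β : ℍ ≃ₜ ℍ) (h : Sp γ α β) : Sp (F * γ * F⁻¹) (F * α * F⁻¹) (F * β * F⁻¹) := by
  intro σ η T h1 h2 h3
  obtain ⟨s, t, hst⟩ := h ⟨fun t => F⁻¹ (σ t), (F⁻¹).continuous.comp σ.continuous⟩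
    ⟨fun t => F⁻¹ (η t), (F⁻¹).continuous.comp η.continuous⟩ T
    (fun t ht => by
      change F⁻¹ (σ (t + 1)) = _
      rw [h1 t ht]
      change F⁻¹ (F (α (F⁻¹ (σ t)))) = α (F⁻¹ (σ t))
      exact F.symm_apply_apply _)
    (fun t ht => by
      change F⁻¹ (σ (t - 1)) = _
      rw [h2 t ht]
      change F⁻¹ (F (β (F⁻¹ (σ t)))) = β (F⁻¹ (σ t))
      exact F.symm_apply_apply _)
    (fun t => by
      change F⁻¹ (η (t + 1)) = _
      rw [h3 t]
      change F⁻¹ (F (γ (F⁻¹ (η t)))) = γ (F⁻¹ (η t))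
      exact F.symm_apply_apply _)
  exact ⟨s, t, (F⁻¹).injective hst⟩

lemma Sp_conj_iff (F γ α β : ℍ ≃ₜ ℍ) :
    Sp (F * γ * F⁻¹) (F * α * F⁻¹) (F * β * F⁻¹) ↔ Sp γ α β := by
  refine ⟨fun h => ?_, Sp_conj F γ α β⟩
  have := Sp_conj F⁻¹ _ _ _ h
  simpa [mul_assoc] using this

lemma Cr_conj_iff (F a b : ℍ ≃ₜ ℍ) : Cr Sp (F * a * F⁻¹) (F * b * F⁻¹) ↔ Cr Sp a b := by
  have e : (F * b * F⁻¹)⁻¹ = F * b⁻¹ * F⁻¹ := by group
  rw [Cr, e]
  exact Sp_conj_iff F a b b⁻¹

/-- Disjoint periodic curves do not cross. -/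
lemma not_Cr_of_disj {a b : ℍ ≃ₜ ℍ} (η σ : C(ℝ, ℍ)) (h1 : ∀ t, η (t + 1) = a (η t))
    (h2 : ∀ t, σ (t + 1) = b (σ t)) (h : ∀ s t, σ s ≠ η t) : ¬ Cr Sp a b := by
  intro hc
  obtain ⟨s, t, e⟩ := hc σ η 0 (fun t _ => h2 t) (fun t _ => by
    have := h2 (t - 1)
    rw [sub_add_cancel] at this
    change σ (t - 1) = b.symm (σ t)
    rw [this, b.symm_apply_apply]) h1
  exact h s t e

end Pool.Agent.Helper64.LN
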