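import Pool.Agent.Helper64.LN.AsmF
import Pool.Agent.Helper64.PQ.AsmA
import Pool.Agent.Helper42.PQ.A1
import Pool.Agent.Helper94.PQ.A2
import Pool.Agent.Helper64.PQ.A3
import Pool.Agent.Helper87.PQ.A4
import Pool.Agent.Helper40.PQ.A5
import Pool.Agent.Helper75.PQ.A6
import Pool.Agent.Helper83.PQ.A7
import Pool.Agent.Helper12.LN.FE
import Pool.Agent.Helper12.LN.G3
import Pool.Agent.Helper13.LN.CR2
import Pool.Agent.Helper15.LN.SIM
import Pool.Agent.Helper15.LN.SPC
import Pool.Agent.Helper16.LN.PRE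
import Pool.Agent.Helper17.LN.L1
import Pool.Agent.Helper17.LN.R2
import Pool.Agent.Helper17.LN.H5
import Pool.Agent.Helper2.LN.CO
import Pool.Agent.Helper2.LN.GA1
import Pool.Agent.Helper22.LN.FGA
import Pool.Agent.Helper24.LN.H3
import Pool.Agent.Helper24.LN.R3
import Pool.Agent.Helper25.LN.T1
import Pool.Agent.Helper27.LN.RHO
import Pool.Agent.Helper3.LN.GL
import Pool.Agent.Helper3.LN.IP
import Pool.Agent.Helper30.LN.CR1
import Pool.Agent.Helper34.LN.FGB
import Pool.Agent.Helper34.LN.GE3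
import Pool.Agent.Helper38.LN.H6
import Pool.Agent.Helper39.LN.EX3
import Pool.Agent.Helper40.LN.EX5
import Pool.Agent.Helper5.LN.CU2
import Pool.Agent.Helper5.LN.IS
import Pool.Agent.Helper5.LN.L3
import Pool.Agent.Helper5.LN.R0
import Pool.Agent.Helper5.LN.R1
import Pool.Agent.Helper5.LN.T4
import Pool.Agent.Helper50.LN.COL
import Pool.Agent.Helper55.LN.T0
import Pool.Agent.Helper56.LN.BAS
import Pool.Agent.Helper56.LN.F1
import Pool.Agent.Helper60.LN.GA2
import Pool.Agent.Helper61.LN.H0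
import Pool.Agent.Helper63.LN.PU2
import Pool.Agent.Helper63.LN.T2
import Pool.Agent.Helper69.LN.AX
import Pool.Agent.Helper73.LN.F4
import Pool.Agent.Helper73.LN.H7
import Pool.Agent.Helper75.LN.REG
import Pool.Agent.Helper77.LN.CR3
import Pool.Agent.Helper77.LN.G2
import Pool.Agent.Helper79.LN.H1
import Pool.Agent.Helper79.LN.RET
import Pool.Agent.Helper81.LN.G1
import Pool.Agent.Helper81.LN.OR
import Pool.Agent.Helper82.LN.T3
import Pool.Agent.Helper83.LN.SZ
import Pool.Agent.Helper85.LN.EX2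
import Pool.Agent.Helper85.LN.OC
import Pool.Agent.Helper86.LN.F2
import Pool.Agent.Helper86.LN.H4
import Pool.Agent.Helper86.LN.PRES
import Pool.Agent.Helper89.LN.CU1
import Pool.Agent.Helper89.LN.G0
import Pool.Agent.Helper89.LN.GE2
import Pool.Agent.Helper90.LN.GE1
import Pool.Agent.Helper90.LN.SEG
import Pool.Agent.Helper93.LN.PU1
import Pool.Agent.Helper97.LN.EX1
import Pool.Agent.Helper26.LN.L4
import Pool.Agent.Helper64.LN.HO
import Pool.Agent.Helper64.LN.MA

set_option autoImplicit false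

/-! Project LN: all goals are theorems. -/

namespace Pool.Agent.Helper64.LN

universe v

/-- All goals hold. -/
theorem glg : Glg.{v} := by
  have h1 := Helper79.LN.goalH1 Helper61.LN.goalH0
  have h3 := Helper24.LN.goalH3 h1
  have h4 := Helper86.LN.goalH4 h1
  have h6 := Helper38.LN.goalH6 Helper17.LN.goalH5
  have h7 := Helper73.LN.goalH7 h1 h3 h6
  have g0 : GoalG0.{v} := Helper89.LN.goalG0
  have g1 := Helper81.LN.goalG1
  have g2 := Helper77.LN.G2.goalG2 g1
  have cr3 := Helper77.LN.goalCR3 g1 g2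
  have cr1 := Helper30.LN.goalCR1
  have seg := Helper90.LN.goalSEG
  have cr2 := Helper13.LN.goalCR2 seg
  have ax := Helper69.LN.goalAX g1 cr1 cr2
  have g3 := Helper12.LN.goalG3 ax cr3
  have co := Helper2.LN.goalCO g1 g2 cr1 cr2 cr3
  have spc := Helper15.LN.goalSPC
  have sz := Helper83.LN.goalSZ g1 g2 spc cr1 cr2
  have l1 : GoalL1.{v} := Helper17.LN.goalL1
  have l3 : GoalL3.{v} := Helper5.LN.goalL3
  have pre : GoalPRE.{v} := Helper16.LN.goalPRE g0 cr3
  have col : GoalCOL.{v} := Helper50.LN.goalCOL pre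
  have reg : GoalREG.{v} := Helper75.LN.goalREG pre seg
  have cu1 : GoalCU1.{v} := Helper89.LN.goalCU1 cr3
  have a1 := Helper42.PQ.goalA1
  have a2 := Helper94.PQ.goalA2 a1
  have a5 := Helper40.PQ.goalA5 Helper64.PQ.goalA3 Helper87.PQ.goalA4
  have a7 := Helper83.PQ.goalA7 Helper75.PQ.goalA6
  have ex1 : GoalEX1.{v} := Helper97.LN.goalEX1
  exact
    { h1 := h1
      h3 := h3
      h4 := h4
      h7 := h7
      ge1 := Helper90.LN.goalGE1
      ge2 := Helper89.LN.goalGE2
      ge3 := Helper34.LN.goalGE3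
      r0 := Helper5.LN.goalR0
      r1 := Helper5.LN.goalR1
      r2 := Helper17.LN.goalR2
      r3 := Helper24.LN.goalR3
      ho := goalHO
      ma := goalMA
      t4 := Helper5.LN.goalT4
      g0 := g0
      g2 := g2
      g3 := g3
      cr3 := cr3
      co := co
      l1 := l1
      l3 := l3
      l4 := Helper26.LN.goalL4 l1
      rho := Helper27.LN.goalRHO l1 l3
      pres := Helper86.LN.goalPRES
      cu1 := cu1
      cu2 := Helper5.LN.goalCU2 l1 cu1
      bas := Helper56.LN.goalBAS col pre reg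
      sim := Helper15.LN.goalSIM col pre l3
      f1 := Helper56.LN.goalF1 g0 cr3 pre sz cu1
      f4 := Helper73.LN.goalF4 g0 g2 cr3 pre reg sz cu1
      ga1 := Helper2.LN.goalGA1 g0 cr3 pre reg sz cu1
      ga2 := Helper60.LN.goalGA2 g0 cr3 pre reg sz cu1
      ret := Helper79.LN.goalRET g0 cr3 pre reg sz cu1 l3
      fga := Helper22.LN.goalFGA g0 cr3 pre reg sz cu1
      fgb := Helper34.LN.goalFGB g0
      t0 := Helper55.LN.goalT0
      t1 := Helper25.LN.goalT1 g0 g2 cr3 ax sz l3 pre col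
      t2 := Helper63.LN.goalT2 l3
      t3 := Helper82.LN.goalT3 pre l3
      a := PQ.goalA a2 a5 a7
      gl := Helper3.LN.goalGL
      f2 := Helper86.LN.goalF2
      is := Helper5.LN.goalIS
      pu2 := Helper63.LN.goalPU2 Helper93.LN.goalPU1
      ex5 := Helper40.LN.goalEX5 ex1
      ip := Helper3.LN.goalIP
      fe := Helper12.LN.goalFE
      or' := Helper81.LN.goalOR
      oc := Helper85.LN.goalOC }

end Pool.Agent.Helper64.LN
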