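import Pool.Agent.Helper64.LN.GoalsA
import Pool.Agent.Helper64.LN.GoalsB

set_option autoImplicit false

/-! Project LN: assembly, abstract part. -/

open Topology Filter Set Metric UpperHalfPlane
open scoped MatrixGroups

namespace Pool.Agent.Helper64.LN

section
variable {H : Type} [Group H]

theorem projY (h3 : GoalH3) (h4 : GoalH4) (h7 : GoalH7) {D : Subgroup H}
    {Sp : H → H → H → Prop} {l r : H → H → ℝ} {sd : H → H → Prop} {Y : Set (Set H)}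
    (hG : Geo D Sp l r sd) (hY : Fam D Sp Y) :
    PQ.Proj 10 (fun x y z : Y => dY Sp (x : Set H) y z) := by
  obtain ⟨s1, s2, s3⟩ := h3 H D Sp l r sd Y hG hY
  refine ⟨by norm_num, ?_, ?_, ?_, ?_, ?_⟩
  · intro x y z _ _
    exact s1 x x.2 y y.2 z z.2
  · intro x y _
    exact s2 x x.2 y y.2
  · intro x y z w hy hz hw
    exact s3 x x.2 y y.2 z z.2 w w.2 (fun h => hy (Subtype.ext h.symm))
      (fun h => hz (Subtype.ext h.symm)) (fun h => hw (Subtype.ext h.symm))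
  · intro x y z hxy hyz hxz h
    exact h4 H D Sp l r sd Y hG hY x x.2 y y.2 z z.2 (fun h => hxy (Subtype.ext h))
      (fun h => hyz (Subtype.ext h)) (fun h => hxz (Subtype.ext h)) h
  · intro y z
    have h := h7 H D Sp l r sd Y hG hY y y.2 z z.2
    have h' := h.preimage (f := (fun x : Y => (x : Set H))) Subtype.val_injective.injOn
    refine h'.subset ?_
    rintro x ⟨h1, h2, h3⟩
    exact ⟨x.2, fun h => h1 (Subtype.ext h), fun h => h2 (Subtype.ext h), h3⟩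

lemma Nc.symm {a b : H} (h : Nc a b) : Nc b a := fun e => h e.symm

lemma Nc_conj {a b : H} (g : H) : Nc (g * a * g⁻¹) (g * b * g⁻¹) ↔ Nc a b := by
  have e1 : (g * a * g⁻¹) * (g * b * g⁻¹) = g * (a * b) * g⁻¹ := by group
  have e2 : (g * b * g⁻¹) * (g * a * g⁻¹) = g * (b * a) * g⁻¹ := by group
  rw [Nc, Nc, e1, e2]
  constructor
  · intro h h'
    exact h (by rw [h'])
  · intro h h'
    exact h (mul_left_cancel (mul_right_cancel h'))

lemma Nc_inv_right {a b : H} : Nc a b⁻¹ ↔ Nc a b := by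
  unfold Nc
  constructor
  · intro h h'
    apply h
    rw [mul_inv_eq_iff_eq_mul, mul_assoc, h', inv_mul_cancel_left]
  · intro h h'
    apply h
    rw [mul_inv_eq_iff_eq_mul, mul_assoc] at h'
    calc a * b = b * (b⁻¹ * (a * b)) := by group
      _ = b * a := by rw [← h']

end

/-- The facts `GF` for a good group. -/
theorem gf_of (hG2 : GoalG2) (hG3 : GoalG3) (hCR3 : GoalCR3) (hCO : GoalCO)
    {Γ : Subgroup SL(2, ℝ)} (hΓ : Good Γ) : GF (Γ.map mh) Sp := by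
  obtain ⟨-, g2, g3⟩ := hG2 Γ hΓ
  obtain ⟨τ, κ, hc⟩ := hCO Γ hΓ
  have hcomm : ∀ a ∈ Γ.map mh, ∀ b ∈ Γ.map mh, Cr Sp a b → Nc a b := by
    rintro _ ⟨a, ha, rfl⟩ _ ⟨b, hb, rfl⟩ h
    exact (hCR3 Γ hΓ a ha b hb h).2.2
  refine ⟨fun g _ a b c h => Sp_conj g a b c h, ?_, hcomm, g2, g3, hG3 Γ hΓ⟩
  intro a ha b hb h
  have hn := hcomm a ha b hb h
  obtain ⟨hya, hyb⟩ := hc.crhy a ha b hb h
  -- the frame `f = a b a⁻¹`
  set f := a * b * a⁻¹ with hf
  have hfD : f ∈ Γ.map mh := mul_mem (mul_mem ha hb) (inv_mem ha)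
  have hnfa : Nc f a := by
    intro h'
    apply hn
    have h2 : a * b * a⁻¹ * a = a * (a * b * a⁻¹) := h'
    have h3 : a * b = a * (a * b * a⁻¹) := by rw [← h2]; group
    have h4 : b = a * b * a⁻¹ := mul_left_cancel h3
    calc a * b = a * b * a⁻¹ * a := by group
      _ = b * a := by rw [← h4]
  have hb1 : b ≠ 1 := by
    rintro rfl
    exact hn (by rw [mul_one, one_mul])
  have hnfb : Nc f b := by
    intro h'
    exact hn (g3 a ha b hb hb1 h')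
  have hyf : hy f := by
    obtain ⟨g, hg, h2⟩ := hyb
    obtain ⟨a', ha', ea⟩ := ha
    refine ⟨a' * g * a'⁻¹, ?_, ?_⟩
    · rw [map_mul, map_mul, map_inv, ea, ← hg]
    · have htr : (a' * g * a'⁻¹) 0 0 + (a' * g * a'⁻¹) 1 1 = g 0 0 + g 1 1 := by
        have h5 : Matrix.trace ((a' * g * a'⁻¹ : SL(2, ℝ)) : Matrix (Fin 2) (Fin 2) ℝ) =
            Matrix.trace (g : Matrix (Fin 2) (Fin 2) ℝ) := by
          have h6 : Matrix.trace (((a' * g) * a'⁻¹ : SL(2, ℝ)) : Matrix (Fin 2) (Fin 2) ℝ) =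
              Matrix.trace ((a'⁻¹ * (a' * g) : SL(2, ℝ)) : Matrix (Fin 2) (Fin 2) ℝ) := by
            rw [Matrix.SpecialLinearGroup.coe_mul, Matrix.SpecialLinearGroup.coe_mul a'⁻¹,
              Matrix.trace_mul_comm]
          rw [h6, inv_mul_cancel_left]
        rwa [Matrix.trace_fin_two, Matrix.trace_fin_two] at h5
      rw [htr]
      exact h2
  have hna : Nc a b⁻¹ := Nc_inv_right.2 hn
  have hnb : Nc b a⁻¹ := Nc_inv_right.2 hn.symm
  have k1 := (hc.sep f hfD a ha b hb b⁻¹ (inv_mem hb) hyf hya hnfa hnfb (Nc_inv_right.2 hnfb)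
    hn hna).1 h
  have k2 := hc.sep f hfD b hb a ha a⁻¹ (inv_mem ha) hyf hyb hnfb hnfa (Nc_inv_right.2 hnfa)
    hn.symm hnb
  refine k2.2 ?_
  calc (τ f a - τ f b) * (τ f a - τ f b⁻¹) * ((τ f a⁻¹ - τ f b) * (τ f a⁻¹ - τ f b⁻¹)) =
      (τ f b - τ f a) * (τ f b - τ f a⁻¹) * ((τ f b⁻¹ - τ f a) * (τ f b⁻¹ - τ f a⁻¹)) := by ring
    _ < 0 := k1

theorem geo_of (hG2 : GoalG2) (hG3 : GoalG3) (hCR3 : GoalCR3) (hCO : GoalCO) (e1 : GoalGE1)
    (e2 : GoalGE2) (e3 : GoalGE3) {Γ : Subgroup SL(2, ℝ)} (hΓ : Good Γ) :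
    ∃ l r sd, Geo (Γ.map mh) Sp l r sd := by
  have hgf := gf_of hG2 hG3 hCR3 hCO hΓ
  obtain ⟨τ, κ, hc⟩ := hCO Γ hΓ
  refine ⟨lT τ κ, rT τ κ, sdT τ, ?_⟩
  have a1 := e1 _ _ _ _ τ κ hgf hc
  have a2 := e2 _ _ _ _ τ κ hgf hc
  have a3 := e3 _ _ _ _ τ κ hgf hc
  exact { hgf, a1, a2, a3 with }

end Pool.Agent.Helper64.LN
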