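import Pool.Agent.Helper64.LN.AsmR
import Pool.Agent.Helper64.LN.GoalsC
import Pool.Agent.Helper82.LN.T3
import Pool.Agent.Helper79.LN.H1

set_option autoImplicit false

/-! Project LN: assembly, the curves of one stage. -/

open Topology Filter Set Metric UpperHalfPlane
open scoped MatrixGroups

namespace Pool.Agent.Helper64.LN

/-- All goals used for one stage. -/
structure Gls.{v} : Prop where
  h1 : GoalH1
  h3 : GoalH3
  h4 : GoalH4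
  h7 : GoalH7
  ge1 : GoalGE1
  ge2 : GoalGE2
  ge3 : GoalGE3
  r0 : GoalR0
  r1 : GoalR1
  r2 : GoalR2
  r3 : GoalR3
  ho : GoalHO
  ma : GoalMA
  t4 : GoalT4
  g0 : GoalG0.{v}
  g2 : GoalG2
  g3 : GoalG3
  cr3 : GoalCR3
  co : GoalCO
  l1 : GoalL1.{v}
  l3 : GoalL3.{v}
  l4 : GoalL4.{v}
  rho : GoalRHO.{v}
  pres : GoalPRES
  cu1 : GoalCU1.{v}
  cu2 : GoalCU2.{v}
  bas : GoalBAS.{v}
  sim : GoalSIM.{v}
  f1 : GoalF1.{v}
  f4 : GoalF4.{v}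
  ga1 : GoalGA1.{v}
  ga2 : GoalGA2.{v}
  ret : GoalRET.{v}
  fga : GoalFGA.{v}
  fgb : GoalFGB.{v}
  t0 : GoalT0.{v}
  t1 : GoalT1.{v}
  t2 : GoalT2.{v}
  t3 : GoalT3.{v}

universe v

section
variable {X : Type v} [TopologicalSpace X] [T2Space X] {p : X} {P : Set X} {u : ℍ → X}
  {C : OpenPartialHomeomorph ℂ X} {K : Set X} {γ : ℍ ≃ₜ ℍ} {ω : C(ℝ, ℍ)} {W : ℝ → ℝ → ℍ}
  {A : SL(2, ℝ)} {ζ : ℍ}

lemma geo_deck (G : Gls.{v}) (hC : Crv p P u C K γ ω) : ∃ l r sd, Geo (deck u) Sp l r sd :=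
  geo_of G.g2 G.g3 G.cr3 G.co G.ge1 G.ge2 G.ge3 (G.g0 X _ u hC.uni)

lemma simC_of (G : Gls.{v}) (hC : Crv p P u C K γ ω) (hA : PQ.CuspAt u A p) :
    SimC (deck u) Sp γ (piA A) := by
  obtain ⟨c1, c2, c3⟩ := G.cu1 X p (insert p P) u A hC.uni (mem_insert _ _) hA
  exact ⟨hC.deck, c1, hC.hp, (G.sim X p P u C K γ ω hC).1, c2, c3⟩

lemma hy_of (G : Gls.{v}) (hC : Crv p P u C K γ ω) {ν : ℍ ≃ₜ ℍ} (hν : ν ∈ deck u)
    (h : Hp (deck u) Sp ν) : hy ν := by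
  obtain ⟨e, he, h1⟩ := h
  obtain ⟨g, hg, rfl⟩ := hν
  obtain ⟨d, hd, rfl⟩ := he
  exact ⟨g, rfl, (G.cr3 _ (G.g0 X _ u hC.uni) g hg d hd h1).1⟩

lemma cf_of (G : Gls.{v}) (hC : Crv p P u C K γ ω) (hB : Bas p u C K γ ω W A ζ) :
    CF (deck u) Sp γ (piA A) (Out u K) := by
  refine { simC_of G hC hB.cusp with f1 := ?_, f4 := ?_, g1 := ?_, g2 := ?_ }
  · exact G.f1 X p P u C K γ ω W A ζ hC hB
  · exact G.f4 X p P u C K γ ω W A ζ hC hB
  · intro ν hν ho hp hn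
    exact G.ga1 X p P u C K γ ω W A ζ hC hB ν hν ho (hy_of G hC hν hp) hn
  · intro ν hν ho hp hn
    exact G.ga2 X p P u C K γ ω W A ζ hC hB ν hν ho (hy_of G hC hν hp) hn

/-- The Hopf property. -/
lemma hop_of (G : Gls.{v}) (hC : Crv p P u C K γ ω) (hB : Bas p u C K γ ω W A ζ) {Φ : ℍ ≃ₜ ℍ}
    (hΦ : Nrm (deck u) Sp Φ)
    (h : AA (deck u) Sp γ (piA A) ⊆ {g | Φ⁻¹ * g * Φ ∈ AA (deck u) Sp γ (piA A)}) :
    {g | Φ⁻¹ * g * Φ ∈ AA (deck u) Sp γ (piA A)} ⊆ AA (deck u) Sp γ (piA A) := by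
  obtain ⟨l, r, sd, hG⟩ := geo_deck G hC
  obtain ⟨A0, hA0⟩ := G.r0 _ (deck u) Sp l r sd γ (piA A) hG (simC_of G hC hB.cusp)
  have mem0 : ∀ g, g ∈ A0 ↔ g ∈ AA (deck u) Sp γ (piA A) := fun g => by
    rw [← hA0]
    exact Iff.rfl
  obtain ⟨ρ, hρ1, hρ2⟩ := G.ret X p P u C K γ ω W A ζ hC hB
  obtain ⟨L, hL1, hL2, hL3, hL4⟩ := G.fga X p P u C K γ ω W A ζ hC hB
  obtain ⟨F, hF1, hF2, hF3⟩ := G.fgb X (insert p P) u hC.uni L hL1 hL2 _ hL3
  have hA0D : A0 ≤ deck u := fun g hg => ((mem0 g).1 hg).1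
  have hFD : Subgroup.closure F ≤ deck u := (Subgroup.closure_le _).2 hF2
  -- finite generation
  have hfg : A0.FG := by
    rw [← Group.fg_iff_subgroup_fg]
    have : Group.FG (Subgroup.closure F) := by
      rw [Group.fg_iff_subgroup_fg]
      exact ⟨hF1.toFinset, by rw [hF1.coe_toFinset]⟩
    let q : Subgroup.closure F →* A0 :=
      { toFun := fun g => ⟨ρ ⟨g, hFD g.2⟩, (mem0 _).2 (hρ1 _)⟩
        map_one' := by
          apply Subtype.ext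
          change (ρ (1 : deck u) : ℍ ≃ₜ ℍ) = 1
          rw [map_one]
          rfl
        map_mul' := by
          intro a b
          apply Subtype.ext
          change (ρ (⟨a, hFD a.2⟩ * ⟨b, hFD b.2⟩ : deck u) : ℍ ≃ₜ ℍ) = _
          rw [map_mul]
          rfl }
    have hq : Function.Surjective q := by
      intro a
      have ha := (mem0 _).1 a.2
      have hcl := hF3 a ha.1 (hL4 a ha)
      refine ⟨⟨a, hcl⟩, ?_⟩
      apply Subtype.ext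
      change (ρ ⟨(a : ℍ ≃ₜ ℍ), hFD hcl⟩ : ℍ ≃ₜ ℍ) = a
      rw [hρ2 _ ha]
    exact Group.fg_of_surjective hq
  have hmob : ∀ a ∈ A0, ∃ g : SL(2, ℝ), a = mh g := by
    intro a ha
    obtain ⟨g, -, h2⟩ := mem_deck.1 (hA0D ha)
    exact ⟨g, h2⟩
  have hrf := G.ma A0 hfg hmob
  let A1 : Subgroup (ℍ ≃ₜ ℍ) := A0.map (MulAut.conj Φ).toMonoidHom
  have mem1 : ∀ g, g ∈ A1 ↔ Φ⁻¹ * g * Φ ∈ A0 := by
    intro g
    constructor
    · rintro ⟨x, hx, rfl⟩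
      change Φ⁻¹ * (Φ * x * Φ⁻¹) * Φ ∈ A0
      have e : Φ⁻¹ * (Φ * x * Φ⁻¹) * Φ = x := by group
      rw [e]
      exact hx
    · intro hx
      refine ⟨_, hx, ?_⟩
      change Φ * (Φ⁻¹ * g * Φ) * Φ⁻¹ = g
      group
  have key := G.ho _ (deck u) A0 A1 (fun g hg => (mem1 g).2 ((mem0 _).2 (h ((mem0 g).1 hg))))
    (by
      intro g hg
      have h1 := hΦ.n1 _ (hA0D ((mem1 g).1 hg))
      have e : Φ * (Φ⁻¹ * g * Φ) * Φ⁻¹ = g := by group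
      rwa [e] at h1) hfg hrf
    ⟨A0.equivMapOfInjective _ (MulAut.conj Φ).injective⟩
    ⟨ρ, fun g => (mem0 _).2 (hρ1 g), fun g hg => hρ2 g ((mem0 _).1 hg)⟩
  intro g hg
  have h1 : g ∈ A1 := (mem1 g).2 ((mem0 _).2 hg)
  rw [← key] at h1
  exact (mem0 g).1 h1

lemma nrm_lift (G : Gls.{v}) {B : Set X} (hu : Uni B u) {f : X ≃ₜ X} {F : ℍ ≃ₜ ℍ}
    (hF : Lif u f F) : Nrm (deck u) Sp F := by
  obtain ⟨h1, h2⟩ := (G.l3 X B u hu).2.2 f F hF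
  exact ⟨h1, h2, fun a b c => Sp_conj_iff F a b c⟩

lemma lif_mul {f g : X → X} {F G : ℍ ≃ₜ ℍ} (hF : Lif u f F) (hG : Lif u g G) :
    Lif u (f ∘ g) (F * G) := by
  intro z
  change u (F (G z)) = f (g (u z))
  rw [hF, hG]

lemma lif_inv {f : X ≃ₜ X} {F : ℍ ≃ₜ ℍ} (hF : Lif u f F) : Lif u (f⁻¹ : X ≃ₜ X) F⁻¹ := by
  intro z
  change u (F.symm z) = f.symm (u z)
  have h := hF (F.symm z)
  rw [F.apply_symm_apply] at h
  rw [h, f.symm_apply_apply]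

lemma lif_deck {f : X → X} {F g : ℍ ≃ₜ ℍ} (hF : Lif u f F) (hg : g ∈ deck u) :
    Lif u f (g * F) := by
  intro z
  change u (g (F z)) = f (u z)
  rw [deck_apply hg, hF]

lemma two_lifts (G : Gls.{v}) {B : Set X} (hu : Uni B u) {f : X → X} {F F' : ℍ ≃ₜ ℍ}
    (hF : Lif u f F) (hF' : Lif u f F') : F' * F⁻¹ ∈ deck u := by
  refine (G.l3 X B u hu).1 _ (fun z => ?_)
  change u (F' (F.symm z)) = u z
  rw [hF', ← hF, F.apply_symm_apply]

lemma sphere_sub (hC : Crv p P u C K γ ω) (t : ℝ) : u (ω t) ∈ K := by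
  rw [hC.core t]
  have h1 : ‖Complex.exp (2 * Real.pi * Complex.I * t)‖ = 1 := by
    have : (2 * Real.pi * Complex.I * t : ℂ) = ((2 * Real.pi * t : ℝ) : ℂ) * Complex.I := by
      push_cast
      ring
    rw [this, Complex.norm_exp_ofReal_mul_I]
  refine (hC.col _ ?_).2 h1.le
  rw [hC.src, mem_setOf_eq, h1]
  norm_num

lemma core_sphere (hC : Crv p P u C K γ ω) (t : ℝ) : u (ω t) ∈ C '' sphere (0 : ℂ) 1 := by
  rw [hC.core t]
  refine ⟨_, ?_, rfl⟩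
  rw [mem_sphere_zero_iff_norm]
  have : (2 * Real.pi * Complex.I * t : ℂ) = ((2 * Real.pi * t : ℝ) : ℂ) * Complex.I := by
    push_cast
    ring
  rw [this, Complex.norm_exp_ofReal_mul_I]

/-- A curve outside `K` which crosses something outside `K` does not commute with a curve in
`K`. -/
lemma nc_out {l r : (ℍ ≃ₜ ℍ) → (ℍ ≃ₜ ℍ) → ℝ} {sd : (ℍ ≃ₜ ℍ) → (ℍ ≃ₜ ℍ) → Prop}
    (hG : Geo (deck u) Sp l r sd) {L : Set X} {a ν ν' : ℍ ≃ₜ ℍ} (ha : a ∈ deck u) (h1 : a ≠ 1)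
    (hν : ν ∈ deck u) (hν' : ν' ∈ deck u) (hc : Cr Sp ν ν') (ho : Out u L ν') (σ : C(ℝ, ℍ))
    (hσ : ∀ t, σ (t + 1) = a (σ t)) (hL : ∀ t, u (σ t) ∈ L) : Nc a ν := by
  intro h
  have h2 := hG.crcom ν hν ν' hν' a ha hc h.symm h1
  obtain ⟨η, e1, e2⟩ := ho
  refine not_Cr_of_disj σ η hσ e1 ?_ h2
  intro s t e
  apply e2 s
  rw [e]
  exact hL t

lemma pow_inj {l r : (ℍ ≃ₜ ℍ) → (ℍ ≃ₜ ℍ) → ℝ} {sd : (ℍ ≃ₜ ℍ) → (ℍ ≃ₜ ℍ) → Prop}
    (hG : Geo (deck u) Sp l r sd) {a : ℍ ≃ₜ ℍ} (ha : a ∈ deck u) (hp : Hp (deck u) Sp a)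
    {n : ℤ} (hn : a ^ n = 1) : n = 0 := by
  obtain ⟨e, he, h1⟩ := hp
  obtain ⟨h2, -⟩ := Helper79.LN.shiftPow hG ha he h1 n
  rw [hn] at h2
  have e1 : (1 : ℍ ≃ₜ ℍ) * e * 1⁻¹ = e := by group
  rw [e1] at h2
  have : (n : ℝ) = 0 := by linarith
  exact_mod_cast this

/-- Rigidity. -/
theorem rigid (G : Gls.{v}) (hC : Crv p P u C K γ ω) (hE : Esc u) {f : X ≃ₜ X}
    (hf : f ∈ FixP p P) {F : ℍ ≃ₜ ℍ} (hF : Lif u f F) :
    (∃ g ∈ deck u, F * γ * F⁻¹ = g * γ * g⁻¹ ∨ F * γ * F⁻¹ = g * γ⁻¹ * g⁻¹) ∨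
      ∃ g ∈ deck u, Cr Sp γ (g * (F * γ * F⁻¹) * g⁻¹) := by
  obtain ⟨l, r, sd, hG⟩ := geo_deck G hC
  obtain ⟨W, A, ζ, hB⟩ := G.bas X p P u C K γ ω hC
  obtain ⟨F₀, hF₀, hcm⟩ := G.cu2 X p P u A hC.uni hB.cusp f hf
  have hN := nrm_lift G hC.uni hF₀
  have hs := simC_of G hC hB.cusp
  have hγ1 : γ ≠ 1 := by
    obtain ⟨e, he, h1⟩ := hs.hp
    exact fun h => hG.comm γ hs.mem e he h1 (by rw [h, one_mul, mul_one])
  have hk := two_lifts G hC.uni hF₀ hF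
  set k := F * F₀⁻¹ with hkdef
  have hFk : F = k * F₀ := by
    rw [hkdef]
    group
  -- the curves outside
  have hfK : IsCompact (K ∪ f '' K) := hC.comp.union (hC.comp.image f.continuous)
  obtain ⟨ν, hν, ν', hν', o1, o2, hcr⟩ := hE _ hfK
  have hpν : Hp (deck u) Sp ν := ⟨ν', hν', hcr⟩
  have nd := rigid_abs G.r1 G.r2 G.r3 hG (cf_of G hC hB)
    (fun Φ h1 h2 => hop_of G hC hB h1 h2) hN hcm
    ⟨ν, hν, hpν, by
      obtain ⟨σ, s1, s2⟩ := o1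
      exact ⟨σ, s1, fun t h => s2 t (Or.inl h)⟩, by
      obtain ⟨σ, s1, s2⟩ := o1
      refine ⟨⟨fun t => F₀⁻¹ (σ t), (F₀⁻¹).continuous.comp σ.continuous⟩, fun t => ?_,
        fun t h => ?_⟩
      · change F₀⁻¹ (σ (t + 1)) = F₀⁻¹ (ν (F₀ (F₀⁻¹ (σ t))))
        rw [s1]
        change _ = F₀⁻¹ (ν (F₀ (F₀.symm (σ t))))
        rw [F₀.apply_symm_apply]
      · apply s2 t
        refine Or.inr ⟨_, h, ?_⟩
        change f (u (F₀.symm (σ t))) = u (σ t)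
        rw [← hF₀, F₀.apply_symm_apply], by
      intro g hg
      have hgγ : g * γ * g⁻¹ ∈ deck u := mul_mem (mul_mem hg hs.mem) (inv_mem hg)
      refine nc_out hG hgγ ?_ hν hν' hcr o2 ⟨fun t => g (ω t), g.continuous.comp ω.continuous⟩
        ?_ ?_
      · intro h
        apply hγ1
        have : γ = g⁻¹ * (g * γ * g⁻¹) * g := by group
        rw [this, h]
        group
      · intro t
        change g (ω (t + 1)) = g (γ (g.symm (g (ω t))))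
        rw [hC.per, g.symm_apply_apply]
      · intro t
        change u (g (ω t)) ∈ _
        rw [deck_apply hg]
        exact Or.inl (sphere_sub hC t), by
      intro g hg
      have hgγ : g * (F₀ * γ * F₀⁻¹) * g⁻¹ ∈ deck u :=
        mul_mem (mul_mem hg (hN.n1 _ hs.mem)) (inv_mem hg)
      refine nc_out hG hgγ ?_ hν hν' hcr o2
        ⟨fun t => g (F₀ (ω t)), g.continuous.comp (F₀.continuous.comp ω.continuous)⟩ ?_ ?_
      · intro h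
        apply hγ1
        have : γ = (g * F₀)⁻¹ * (g * (F₀ * γ * F₀⁻¹) * g⁻¹) * (g * F₀) := by group
        rw [this, h]
        group
      · intro t
        change g (F₀ (ω (t + 1))) = g (F₀ (γ (F₀.symm (g.symm (g (F₀ (ω t)))))))
        rw [hC.per, g.symm_apply_apply, F₀.symm_apply_apply]
      · intro t
        change u (g (F₀ (ω t))) ∈ _
        rw [deck_apply hg, hF₀]
        exact Or.inr ⟨_, sphere_sub hC t, rfl⟩⟩
  unfold Disj at nd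
  push_neg at nd
  obtain ⟨g, hg, h1⟩ := nd
  by_cases hcr' : Cr Sp γ (g * (F₀ * γ * F₀⁻¹) * g⁻¹)
  · right
    refine ⟨g * k⁻¹, mul_mem hg (inv_mem hk), ?_⟩
    have e : g * k⁻¹ * (F * γ * F⁻¹) * (g * k⁻¹)⁻¹ = g * (F₀ * γ * F₀⁻¹) * g⁻¹ := by
      rw [hFk]
      group
    rw [e]
    exact hcr'
  · left
    have h2 : γ * (g * (F₀ * γ * F₀⁻¹) * g⁻¹) = (g * (F₀ * γ * F₀⁻¹) * g⁻¹) * γ := by
      by_contra h3
      exact h1 hcr' h3
    set M := g * F₀ with hM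
    have e1 : g * (F₀ * γ * F₀⁻¹) * g⁻¹ = M * γ * M⁻¹ := by
      rw [hM]
      group
    rw [e1] at h2
    have hMl : Lif u f M := lif_deck hF₀ hg
    have hMN := nrm_lift G hC.uni hMl
    obtain ⟨m, hm⟩ := (G.sim X p P u C K γ ω hC).2 _ (hMN.n1 γ hs.mem) h2.symm
    obtain ⟨n, hn⟩ := (G.sim X p P u C K γ ω hC).2 _ (hMN.n2 γ hs.mem) (by
      calc M⁻¹ * γ * M * γ = M⁻¹ * (γ * (M * γ * M⁻¹)) * M := by group
        _ = M⁻¹ * ((M * γ * M⁻¹) * γ) * M := by rw [h2]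
        _ = γ * (M⁻¹ * γ * M) := by group)
    have h3 : γ ^ (m * n) = γ := by
      calc γ ^ (m * n) = (γ ^ m) ^ n := zpow_mul γ m n
        _ = (M * γ * M⁻¹) ^ n := by rw [hm]
        _ = M * γ ^ n * M⁻¹ := by rw [conj_zpow]
        _ = M * (M⁻¹ * γ * M) * M⁻¹ := by rw [hn]
        _ = γ := by group
    have h4 : γ ^ (m * n - 1) = 1 := by
      rw [zpow_sub, h3, zpow_one, mul_inv_cancel]
    have h5 := pow_inj hG hs.mem hs.hp h4
    have h6 : m * n = 1 := by linarith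
    have h7 : F * γ * F⁻¹ = (k * g⁻¹) * (M * γ * M⁻¹) * (k * g⁻¹)⁻¹ := by
      rw [hFk, hM]
      group
    refine ⟨k * g⁻¹, mul_mem hk (inv_mem hg), ?_⟩
    rw [h7, hm]
    rcases Int.eq_one_or_neg_one_of_mul_eq_one h6 with h8 | h8
    · left
      rw [h8, zpow_one]
    · right
      rw [h8, zpow_neg_one]

lemma cj_eq {F : ℍ ≃ₜ ℍ} (hN : Nrm (deck u) Sp F)
    (h : ∃ g ∈ deck u, F * γ * F⁻¹ = g * γ * g⁻¹ ∨ F * γ * F⁻¹ = g * γ⁻¹ * g⁻¹) :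
    cj F (Y0 u γ) = Y0 u γ := by
  obtain ⟨g, hg, h1⟩ := h
  have h2 : F * γ⁻¹ * F⁻¹ = g * γ⁻¹ * g⁻¹ ∨ F * γ⁻¹ * F⁻¹ = g * γ * g⁻¹ := by
    have e : F * γ⁻¹ * F⁻¹ = (F * γ * F⁻¹)⁻¹ := by group
    rw [e]
    rcases h1 with h1 | h1
    · left
      rw [h1]
      group
    · right
      rw [h1]
      group
  have e3 : g⁻¹ * (F * γ * F⁻¹) * g = γ ∨ g⁻¹ * (F * γ * F⁻¹) * g = γ⁻¹ := by
    rcases h1 with h1 | h1
    · left
      rw [h1]
      group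
    · right
      rw [h1]
      group
  have e4 : g⁻¹ * (F * γ⁻¹ * F⁻¹) * g = γ ∨ g⁻¹ * (F * γ⁻¹ * F⁻¹) * g = γ⁻¹ := by
    rcases h2 with h1 | h1
    · right
      rw [h1]
      group
    · left
      rw [h1]
      group
  ext a
  constructor
  · rintro ⟨k, hk, h3⟩
    have e : a = F * (F⁻¹ * a * F) * F⁻¹ := by group
    have hk' : F * k * F⁻¹ ∈ deck u := hN.n1 k hk
    rcases h3 with h3 | h3
    · have e5 : a = (F * k * F⁻¹) * (F * γ * F⁻¹) * (F * k * F⁻¹)⁻¹ := by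
        rw [e, h3]
        group
      rcases h1 with h1 | h1
      · refine ⟨(F * k * F⁻¹) * g, mul_mem hk' hg, Or.inl ?_⟩
        rw [e5, h1]
        group
      · refine ⟨(F * k * F⁻¹) * g, mul_mem hk' hg, Or.inr ?_⟩
        rw [e5, h1]
        group
    · have e5 : a = (F * k * F⁻¹) * (F * γ⁻¹ * F⁻¹) * (F * k * F⁻¹)⁻¹ := by
        rw [e, h3]
        group
      rcases h2 with h1 | h1
      · refine ⟨(F * k * F⁻¹) * g, mul_mem hk' hg, Or.inr ?_⟩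
        rw [e5, h1]
        group
      · refine ⟨(F * k * F⁻¹) * g, mul_mem hk' hg, Or.inl ?_⟩
        rw [e5, h1]
        group
  · rintro ⟨k, hk, h3⟩
    have hk' : F⁻¹ * (k * g⁻¹) * F ∈ deck u := hN.n2 _ (mul_mem hk (inv_mem hg))
    refine ⟨_, hk', ?_⟩
    rcases h3 with h3 | h3
    · rcases h1 with h1 | h1
      · left
        rw [h3]
        have : γ = g⁻¹ * (F * γ * F⁻¹) * g := by
          rw [h1]
          group
        calc F⁻¹ * (k * γ * k⁻¹) * F = F⁻¹ * (k * (g⁻¹ * (F * γ * F⁻¹) * g) * k⁻¹) * F := by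
              rw [← this]
          _ = _ := by group
      · right
        rw [h3]
        have : γ = g⁻¹ * (F * γ⁻¹ * F⁻¹) * g := by
          have h4 : F * γ⁻¹ * F⁻¹ = g * γ * g⁻¹ := by
            have e : F * γ⁻¹ * F⁻¹ = (F * γ * F⁻¹)⁻¹ := by group
            rw [e, h1]
            group
          rw [h4]
          group
        calc F⁻¹ * (k * γ * k⁻¹) * F = F⁻¹ * (k * (g⁻¹ * (F * γ⁻¹ * F⁻¹) * g) * k⁻¹) * F := by
              rw [← this]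
          _ = _ := by group
    · rcases h1 with h1 | h1
      · right
        rw [h3]
        have : γ⁻¹ = g⁻¹ * (F * γ⁻¹ * F⁻¹) * g := by
          have h4 : F * γ⁻¹ * F⁻¹ = g * γ⁻¹ * g⁻¹ := by
            have e : F * γ⁻¹ * F⁻¹ = (F * γ * F⁻¹)⁻¹ := by group
            rw [e, h1]
            group
          rw [h4]
          group
        calc F⁻¹ * (k * γ⁻¹ * k⁻¹) * F = F⁻¹ * (k * (g⁻¹ * (F * γ⁻¹ * F⁻¹) * g) * k⁻¹) * F := by
              rw [← this]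
          _ = _ := by group
      · left
        rw [h3]
        have : γ⁻¹ = g⁻¹ * (F * γ * F⁻¹) * g := by
          rw [h1]
          group
        calc F⁻¹ * (k * γ⁻¹ * k⁻¹) * F = F⁻¹ * (k * (g⁻¹ * (F * γ * F⁻¹) * g) * k⁻¹) * F := by
              rw [← this]
          _ = _ := by group

end

end Pool.Agent.Helper64.LN
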