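import Pool.Agent.Helper64.LN.AsmB

set_option autoImplicit false

/-! Project LN: assembly, one stage. -/

open Topology Filter Set Metric UpperHalfPlane
open scoped MatrixGroups

namespace Pool.Agent.Helper64.LN

universe v

section
variable {X : Type v} [TopologicalSpace X] [T2Space X] {p : X} {P : Set X} {u : ℍ → X}
  {C : OpenPartialHomeomorph ℂ X} {K : Set X} {γ : ℍ ≃ₜ ℍ} {ω : C(ℝ, ℍ)}

lemma cj_mul (F G : ℍ ≃ₜ ℍ) (y : Set (ℍ ≃ₜ ℍ)) : cj (F * G) y = cj F (cj G y) := by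
  ext a
  change (F * G)⁻¹ * a * (F * G) ∈ y ↔ G⁻¹ * (F⁻¹ * a * F) * G ∈ y
  have e : (F * G)⁻¹ * a * (F * G) = G⁻¹ * (F⁻¹ * a * F) * G := by group
  rw [e]

lemma cj_one (y : Set (ℍ ≃ₜ ℍ)) : cj 1 y = y := by
  ext a
  change (1 : ℍ ≃ₜ ℍ)⁻¹ * a * 1 ∈ y ↔ a ∈ y
  rw [inv_one, one_mul, mul_one]

lemma mem_Y0 : γ ∈ Y0 u γ := ⟨1, one_mem _, Or.inl (by group)⟩

lemma mem_cj {F : ℍ ≃ₜ ℍ} : F * γ * F⁻¹ ∈ cj F (Y0 u γ) := by
  change F⁻¹ * (F * γ * F⁻¹) * F ∈ Y0 u γ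
  have e : F⁻¹ * (F * γ * F⁻¹) * F = γ := by group
  rw [e]
  exact mem_Y0

lemma Y0_sub (hγ : γ ∈ deck u) {a : ℍ ≃ₜ ℍ} (ha : a ∈ Y0 u γ) : a ∈ deck u := by
  obtain ⟨g, hg, rfl | rfl⟩ := ha
  · exact mul_mem (mul_mem hg hγ) (inv_mem hg)
  · exact mul_mem (mul_mem hg (inv_mem hγ)) (inv_mem hg)

lemma Y0_conj {a g : ℍ ≃ₜ ℍ} (ha : a ∈ Y0 u γ) (hg : g ∈ deck u) : g * a * g⁻¹ ∈ Y0 u γ := by
  obtain ⟨k, hk, rfl | rfl⟩ := ha
  · exact ⟨g * k, mul_mem hg hk, Or.inl (by group)⟩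
  · exact ⟨g * k, mul_mem hg hk, Or.inr (by group)⟩

lemma Y0_inv {a : ℍ ≃ₜ ℍ} (ha : a ∈ Y0 u γ) : a⁻¹ ∈ Y0 u γ := by
  obtain ⟨k, hk, rfl | rfl⟩ := ha
  · exact ⟨k, hk, Or.inr (by group)⟩
  · exact ⟨k, hk, Or.inl (by group)⟩

lemma Y0_cls {a b : ℍ ≃ₜ ℍ} (ha : a ∈ Y0 u γ) (hb : b ∈ Y0 u γ) :
    ∃ g ∈ deck u, b = g * a * g⁻¹ ∨ b = g * a⁻¹ * g⁻¹ := by
  obtain ⟨k, hk, rfl | rfl⟩ := ha <;> obtain ⟨m, hm, rfl | rfl⟩ := hb
  · exact ⟨m * k⁻¹, mul_mem hm (inv_mem hk), Or.inl (by group)⟩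
  · exact ⟨m * k⁻¹, mul_mem hm (inv_mem hk), Or.inr (by group)⟩
  · exact ⟨m * k⁻¹, mul_mem hm (inv_mem hk), Or.inr (by group)⟩
  · exact ⟨m * k⁻¹, mul_mem hm (inv_mem hk), Or.inl (by group)⟩

section abs
variable {H : Type} [Group H] {D : Subgroup H} {Sp : H → H → H → Prop} {l r : H → H → ℝ}
  {sd : H → H → Prop}

lemma not_cr_inv (hG : Geo D Sp l r sd) {a b : H} (ha : a ∈ D) (hb : b ∈ D)
    (h : ¬ Cr Sp a b) : ¬ Cr Sp a⁻¹ b ∧ ¬ Cr Sp a b⁻¹ ∧ ¬ Cr Sp a⁻¹ b⁻¹ := by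
  have k1 : ∀ a ∈ D, ∀ b ∈ D, Cr Sp a⁻¹ b → Cr Sp a b := by
    intro a ha b hb h1
    have := Helper79.LN.crInvL hG (inv_mem ha) hb h1
    rwa [inv_inv] at this
  have k2 : ∀ a ∈ D, ∀ b ∈ D, Cr Sp a b⁻¹ → Cr Sp a b := by
    intro a ha b hb h1
    have := Helper79.LN.crInvR hG ha (inv_mem hb) h1
    rwa [inv_inv] at this
  exact ⟨fun h1 => h (k1 a ha b hb h1), fun h1 => h (k2 a ha b hb h1),
    fun h1 => h (k1 a ha b hb (k2 _ (inv_mem ha) b hb h1))⟩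

end abs

/-- Two elements of the class of `γ` do not cross. -/
lemma Y0_simple (G : Gls.{v}) (hC : Crv p P u C K γ ω) {a b : ℍ ≃ₜ ℍ} (ha : a ∈ Y0 u γ)
    (hb : b ∈ Y0 u γ) : ¬ Cr Sp a b := by
  obtain ⟨l, r, sd, hG⟩ := geo_deck G hC
  have hsim := (G.sim X p P u C K γ ω hC).1
  have key : ∀ g ∈ deck u, ∀ k ∈ deck u, ¬ Cr Sp (g * γ * g⁻¹) (k * γ * k⁻¹) := by
    intro g hg k hk h
    apply hsim (g⁻¹ * k) (mul_mem (inv_mem hg) hk)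
    rw [← Cr_conj_iff g]
    have e : g * (g⁻¹ * k * γ * (g⁻¹ * k)⁻¹) * g⁻¹ = k * γ * k⁻¹ := by group
    rw [e]
    exact h
  have hm : ∀ g ∈ deck u, g * γ * g⁻¹ ∈ deck u := fun g hg =>
    mul_mem (mul_mem hg hC.deck) (inv_mem hg)
  have e : ∀ g : ℍ ≃ₜ ℍ, g * γ⁻¹ * g⁻¹ = (g * γ * g⁻¹)⁻¹ := fun g => by group
  obtain ⟨g, hg, rfl | rfl⟩ := ha <;> obtain ⟨k, hk, rfl | rfl⟩ := hb
  · exact key g hg k hk
  · rw [e]
    exact (not_cr_inv hG (hm g hg) (hm k hk) (key g hg k hk)).2.1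
  · rw [e]
    exact (not_cr_inv hG (hm g hg) (hm k hk) (key g hg k hk)).1
  · rw [e, e]
    exact (not_cr_inv hG (hm g hg) (hm k hk) (key g hg k hk)).2.2

lemma fam_of (G : Gls.{v}) (hC : Crv p P u C K γ ω) (hE : Esc u) :
    Fam (deck u) Sp (YY p P u γ) := by
  refine ⟨?_, ?_, ?_, ?_, ?_, ?_, ?_⟩
  · rintro y ⟨f, hf, F, hF, rfl⟩ a ha
    have h1 := (nrm_lift G hC.uni hF).n1 _ (Y0_sub hC.deck ha)
    have e : F * (F⁻¹ * a * F) * F⁻¹ = a := by group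
    rwa [e] at h1
  · rintro y ⟨f, hf, F, hF, rfl⟩
    exact ⟨_, mem_cj⟩
  · rintro y ⟨f, hf, F, hF, rfl⟩ a ha g hg
    have hg' := (nrm_lift G hC.uni hF).n2 _ hg
    have h1 := Y0_conj ha hg'
    have e : F⁻¹ * g * F * (F⁻¹ * a * F) * (F⁻¹ * g * F)⁻¹ = F⁻¹ * (g * a * g⁻¹) * F := by group
    rw [e] at h1
    exact h1
  · rintro y ⟨f, hf, F, hF, rfl⟩ a ha
    have h1 := Y0_inv ha
    have e : (F⁻¹ * a * F)⁻¹ = F⁻¹ * a⁻¹ * F := by group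
    rw [e] at h1
    exact h1
  · rintro y ⟨f, hf, F, hF, rfl⟩ a ha b hb
    obtain ⟨g, hg, h1⟩ := Y0_cls ha hb
    refine ⟨F * g * F⁻¹, (nrm_lift G hC.uni hF).n1 g hg, ?_⟩
    rcases h1 with h1 | h1
    · left
      calc b = F * (F⁻¹ * b * F) * F⁻¹ := by group
        _ = _ := by
          rw [h1]
          group
    · right
      calc b = F * (F⁻¹ * b * F) * F⁻¹ := by group
        _ = _ := by
          rw [h1]
          group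
  · rintro y ⟨f, hf, F, hF, rfl⟩ a ha b hb h
    apply Y0_simple G hC ha hb
    rw [← Cr_conj_iff F]
    have e : ∀ x : ℍ ≃ₜ ℍ, F * (F⁻¹ * x * F) * F⁻¹ = x := fun x => by group
    rw [e, e]
    exact h
  · rintro x ⟨f, hf, F, hF, rfl⟩ y ⟨g, hg, F', hF', rfl⟩ hne
    have hfg : f⁻¹ * g ∈ FixP p P := mul_mem (inv_mem hf) hg
    have hl : Lif u ((f⁻¹ * g : X ≃ₜ X) : X → X) (F⁻¹ * F') :=
      lif_mul (f := ((f⁻¹ : X ≃ₜ X) : X → X)) (g := (g : X → X)) (lif_inv hF) hF'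
    rcases rigid G hC hE hfg hl with h | ⟨k, hk, h⟩
    · exfalso
      apply hne
      have h1 := cj_eq (nrm_lift G hC.uni hl) h
      calc cj F (Y0 u γ) = cj F (cj (F⁻¹ * F') (Y0 u γ)) := by rw [h1]
        _ = cj (F * (F⁻¹ * F')) (Y0 u γ) := (cj_mul _ _ _).symm
        _ = cj F' (Y0 u γ) := by rw [mul_inv_cancel_left]
    · refine ⟨F * γ * F⁻¹, mem_cj, F * (k * (F⁻¹ * F' * γ * (F⁻¹ * F')⁻¹) * k⁻¹) * F⁻¹, ?_,
        (Cr_conj_iff F _ _).2 h⟩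
      have hk' : F'⁻¹ * (F * k * F⁻¹) * F' ∈ deck u :=
        (nrm_lift G hC.uni hF').n2 _ ((nrm_lift G hC.uni hF).n1 k hk)
      change F'⁻¹ * (F * (k * (F⁻¹ * F' * γ * (F⁻¹ * F')⁻¹) * k⁻¹) * F⁻¹) * F' ∈ Y0 u γ
      have e : F'⁻¹ * (F * (k * (F⁻¹ * F' * γ * (F⁻¹ * F')⁻¹) * k⁻¹) * F⁻¹) * F' =
        (F'⁻¹ * (F * k * F⁻¹) * F') * γ * (F'⁻¹ * (F * k * F⁻¹) * F')⁻¹ := by group
      rw [e]
      exact Y0_conj mem_Y0 hk'

/-- The lift fixing the curve. -/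
lemma lift_fix (G : Gls.{v}) (hC : Crv p P u C K γ ω) {f : X ≃ₜ X} (hf : f ∈ FixP p P)
    (h : ∀ z ∈ sphere (0 : ℂ) 1, f (C z) = C z) :
    ∃ F : ℍ ≃ₜ ℍ, Lif u f F ∧ (∀ t, F (ω t) = ω t) ∧ F * γ = γ * F := by
  have hcs : ∀ t, f (u (ω t)) = u (ω t) := by
    intro t
    obtain ⟨z, hz, h1⟩ := core_sphere hC t
    rw [← h1, h z hz]
  obtain ⟨F, hF, h0⟩ := G.l1 X p P u hC.uni f hf (ω 0) (ω 0) (hcs 0).symm
  have hω : (fun t => F (ω t)) = fun t => ω t := by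
    refine Helper82.LN.lift_unique hC.uni (F.continuous.comp ω.continuous) ω.continuous
      (fun t => ?_) 0 h0
    rw [hF, hcs]
  have hω' : ∀ t, F (ω t) = ω t := fun t => congrFun hω t
  refine ⟨F, hF, hω', ?_⟩
  have hN := nrm_lift G hC.uni hF
  have h2 : F * γ * F⁻¹ = γ := by
    apply (G.l3 X _ u hC.uni).2.1 _ (hN.n1 γ hC.deck) γ hC.deck (ω 0)
    change F (γ (F.symm (ω 0))) = γ (ω 0)
    have h3 : F.symm (ω 0) = ω 0 := by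
      rw [Homeomorph.symm_apply_eq, hω']
    rw [h3, ← hC.per, hω']
  calc F * γ = (F * γ * F⁻¹) * F := by group
    _ = γ * F := by rw [h2]

lemma twm_norm (χ : ℝ → ℝ) (z : ℂ) : ‖twm χ z‖ = ‖z‖ := by
  unfold twm
  rw [norm_mul]
  have : (2 * Real.pi * Complex.I * χ ‖z‖ : ℂ) = ((2 * Real.pi * χ ‖z‖ : ℝ) : ℂ) * Complex.I := by
    push_cast
    ring
  rw [this, Complex.norm_exp_ofReal_mul_I, mul_one]

lemma twm_cho {z : ℂ} (h : ‖z‖ ≤ 5 / 4) : twm cho z = z := by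
  have h1 : cho ‖z‖ = 0 := by
    unfold cho
    rw [max_eq_left]
    exact (min_le_right _ _).trans (by linarith)
  unfold twm
  rw [h1]
  simp

lemma twm_chi {z : ℂ} (h : 4 / 5 ≤ ‖z‖) : twm chi z = z := by
  have h1 : chi ‖z‖ = 1 := by
    unfold chi
    rw [min_eq_left (by linarith), max_eq_right (by norm_num)]
  unfold twm
  rw [h1, Complex.ofReal_one, mul_one, Complex.exp_two_pi_mul_I, mul_one]

/-- The outer twist fixes `K`. -/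
lemma tw_in {T : X → X} (hC : Crv p P u C K γ ω) (hT : IsTw C cho T) : ∀ x ∈ K, T x = x := by
  intro x hx
  by_cases h : x ∈ C '' {z : ℂ | 3 / 5 ≤ ‖z‖ ∧ ‖z‖ ≤ 3 / 2}
  · obtain ⟨z, ⟨h1, h2⟩, rfl⟩ := h
    have hs : z ∈ C.source := by
      rw [hC.src]
      exact ⟨by linarith, by linarith⟩
    have h3 := (hC.col z hs).1 hx
    rw [hT.1 z hs, twm_cho (by linarith)]
  · exact hT.2 x h

/-- The inner twist fixes the complement of the interior of `K`. -/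
lemma tw_out {T : X → X} (hC : Crv p P u C K γ ω) (hT : IsTw C chi T) :
    ∀ x ∈ (interior K)ᶜ, T x = x := by
  intro x hx
  by_cases h : x ∈ C '' {z : ℂ | 3 / 5 ≤ ‖z‖ ∧ ‖z‖ ≤ 3 / 2}
  · obtain ⟨z, ⟨h1, h2⟩, rfl⟩ := h
    have hs : z ∈ C.source := by
      rw [hC.src]
      exact ⟨by linarith, by linarith⟩
    have h3 : 1 ≤ ‖z‖ := by
      by_contra h4
      apply hx
      rw [mem_interior]
      refine ⟨C '' (C.source ∩ {z | ‖z‖ < 1}), ?_, C.isOpen_image_of_subset_source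
        (C.open_source.inter (isOpen_lt continuous_norm continuous_const)) inter_subset_left,
        ⟨z, ⟨hs, not_le.1 h4⟩, rfl⟩⟩
      rintro _ ⟨w, ⟨hw1, hw2⟩, rfl⟩
      exact (hC.col w hw1).2 (le_of_lt hw2)
    rw [hT.1 z hs, twm_chi (by linarith)]
  · exact hT.2 x h

lemma sph_int (hC : Crv p P u C K γ ω) : C '' sphere (0 : ℂ) 1 ⊆ (interior K)ᶜ := by
  rw [← hC.fr]
  intro x hx hi
  rw [frontier, mem_diff] at hx
  exact hx.2 hi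

lemma sph_K (hC : Crv p P u C K γ ω) : C '' sphere (0 : ℂ) 1 ⊆ K := by
  rw [← hC.fr]
  intro x hx
  have := hx.1
  rwa [hC.comp.isClosed.closure_eq] at this

lemma fixP_of_tgt (hC : Crv p P u C K γ ω) {T : X ≃ₜ X} (h : ∀ x, x ∉ C.target → T x = x) :
    T ∈ FixP p P := by
  have hn : ∀ x ∈ insert p P, x ∉ C.target := by
    intro x hx hx'
    apply hC.tgt (C.symm x) (C.map_target hx')
    rwa [C.right_inv hx']
  refine ⟨h p (hn p (mem_insert _ _)), fun x => ⟨fun hx => ?_, fun hx => ?_⟩⟩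
  · have h1 := h _ (hn (T x) (mem_insert_of_mem _ hx))
    have h2 := T.injective h1
    rwa [h2] at hx
  · rw [h x (hn x (mem_insert_of_mem _ hx))]
    exact hx

/-- The twisting estimate. -/
lemma twist_est (G : Gls.{v}) (hC : Crv p P u C K γ ω) {To : X ≃ₜ X} (hTo : IsTw C cho To)
    {l r : (ℍ ≃ₜ ℍ) → (ℍ ≃ₜ ℍ) → ℝ} {sd : (ℍ ≃ₜ ℍ) → (ℍ ≃ₜ ℍ) → Prop}
    (hG : Geo (deck u) Sp l r sd) :
    ∃ Φ : ℍ ≃ₜ ℍ, Lif u To Φ ∧ Φ * γ = γ * Φ ∧ ∀ b ∈ deck u, Cr Sp γ b → ∀ n : ℕ,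
      Φ ^ n * b * (Φ ^ n)⁻¹ ∈ deck u ∧ Cr Sp γ (Φ ^ n * b * (Φ ^ n)⁻¹) ∧
      |(|tw l r γ (Φ ^ n * b * (Φ ^ n)⁻¹) - tw l r γ b|) - n| ≤ 2 := by
  obtain ⟨Ti, To', i1, i2, i3, H, H0, H1, H2, H3, H4⟩ := G.t0 X C hC.src
  have hTT : To' = To := by
    ext x
    by_cases h : x ∈ C '' {z : ℂ | 3 / 5 ≤ ‖z‖ ∧ ‖z‖ ≤ 3 / 2}
    · obtain ⟨z, ⟨h1, h2⟩, rfl⟩ := h
      have hs : z ∈ C.source := by
        rw [hC.src]
        exact ⟨by linarith, by linarith⟩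
      rw [i2.1 z hs, hTo.1 z hs]
    · rw [i2.2 x h, hTo.2 x h]
  subst hTT
  have fi : Ti ∈ FixP p P := fixP_of_tgt hC fun x hx => (i3 x hx).1
  have fo : To' ∈ FixP p P := fixP_of_tgt hC fun x hx => (i3 x hx).2
  obtain ⟨Fi, l1, w1, -⟩ := lift_fix G hC fi (fun z hz =>
    tw_out hC i1 _ (sph_int hC ⟨z, hz, rfl⟩))
  obtain ⟨Fo, l2, w2, cm⟩ := lift_fix G hC fo (fun z hz => tw_in hC i2 _ (sph_K hC ⟨z, hz, rfl⟩))
  have t2 := G.t2 X p P u C K γ ω hC Ti To' H H0 H1 H2 H3 H4 Fi Fo l1 l2 w1 w2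
  have hsim := (G.sim X p P u C K γ ω hC).1
  have hN := nrm_lift G hC.uni l2
  refine ⟨Fo, l2, cm, ?_⟩
  refine G.t4 _ (deck u) Sp l r sd γ Fo hG hC.deck cm hN.n1 hN.sp ?_
  intro b hb hcr
  obtain ⟨g₁, hg₁, g₂, hg₂, n1, n2, c1, c2, s12, σ1, σ2⟩ := G.t1 X p P u C K γ ω hC b hb hcr
  have m1 : g₁ * γ * g₁⁻¹ ∈ deck u := mul_mem (mul_mem hg₁ hC.deck) (inv_mem hg₁)
  have m2 : g₂ * γ * g₂⁻¹ ∈ deck u := mul_mem (mul_mem hg₂ hC.deck) (inv_mem hg₂)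
  have sim : ∀ g ∈ deck u, ∀ k : ℤ, ¬ Cr Sp (g * γ * g⁻¹)
      (γ ^ k * (g * γ * g⁻¹) * (γ ^ k)⁻¹) := by
    intro g hg k
    have h1 : g * γ * g⁻¹ ∈ Y0 u γ := Y0_conj mem_Y0 hg
    exact Y0_simple G hC h1 (Y0_conj h1 (zpow_mem hC.deck k))
  refine ⟨g₁ * γ * g₁⁻¹, m1, g₂ * γ * g₂⁻¹, m2, n1, n2, hsim g₁ hg₁, hsim g₂ hg₂, sim g₁ hg₁,
    sim g₂ hg₂, c1, c2, s12, ?_, ?_⟩
  · exact G.t3 X p P u C K γ ω hC To' Fo K l2 w2 (tw_in hC i2) (sph_K hC) g₁ hg₁ σ1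
  · rw [t2 _ m2, G.t3 X p P u C K γ ω hC Ti Fi (interior K)ᶜ l1 w1 (tw_out hC i1) (sph_int hC)
      g₂ hg₂ σ2]

/-- The result of one stage. -/
theorem stage (G : Gls.{v}) (hC : Crv p P u C K γ ω) (hE : Esc u) :
    ∃ (Y : Type) (d : Y → Y → Y → ℕ) (ρ : FixP p P →* Equiv.Perm Y) (o : Y),
      PQ.Proj 10 d ∧ (∀ f, PQ.Pres d (ρ f)) ∧
      (∀ (f : FixP p P) (H : C(unitInterval × X, X)), (∀ x, H (0, x) = x) →
        (∀ x, H (1, x) = (f : X ≃ₜ X) x) → (∀ t x, H (t, x) ∈ insert p P ↔ x ∈ insert p P) →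
        ρ f = 1) ∧
      (∀ f : FixP p P, (∀ z ∈ sphere (0 : ℂ) 1, (f : X ≃ₜ X) (C z) = C z) → ρ f o = o) ∧
      ∀ f g : FixP p P, IsTw C cho (f : X ≃ₜ X) →
        (∃ F : ℍ ≃ₜ ℍ, Lif u (g : X ≃ₜ X) F ∧ Cr Sp γ (F * γ * F⁻¹)) →
        PQ.Twist d o (ρ f) (ρ g) := by
  obtain ⟨l, r, sd, hG⟩ := geo_deck G hC
  have hF := fam_of G hC hE
  obtain ⟨ρ, hρ⟩ := G.rho X p P u γ hC.uni hC.deck
  have hoY : Y0 u γ ∈ YY p P u γ := ⟨1, one_mem _, 1, fun z => rfl, (cj_one _).symm⟩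
  -- every element of `FixP` has a lift
  have hlift : ∀ f ∈ FixP p P, ∃ F : ℍ ≃ₜ ℍ, Lif u f F := by
    intro f hf
    have hz : f (u UpperHalfPlane.I) ∈ (insert p P)ᶜ := by
      have h1 : u UpperHalfPlane.I ∈ (insert p P)ᶜ := by
        rw [← hC.uni.range]
        exact mem_range_self _
      intro h2
      apply h1
      rcases h2 with h2 | h2
      · left
        have h3 : f (u UpperHalfPlane.I) = f p := by
          rw [hf.1]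
          exact h2
        exact f.injective h3
      · right
        exact (hf.2 _).1 h2
    rw [← hC.uni.range] at hz
    obtain ⟨w, hw⟩ := hz
    obtain ⟨F, h1, -⟩ := G.l1 X p P u hC.uni f hf UpperHalfPlane.I w hw
    exact ⟨F, h1⟩
  have hpres : ∀ f, PQ.Pres (fun x y z : YY p P u γ => dY Sp (x : Set (ℍ ≃ₜ ℍ)) y z) (ρ f) := by
    intro f x y z _ _
    obtain ⟨F, h1⟩ := hlift f f.2
    change dY Sp (ρ f x : Set (ℍ ≃ₜ ℍ)) (ρ f y) (ρ f z) = _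
    rw [hρ f F h1, hρ f F h1, hρ f F h1]
    exact G.pres F _ _ _
  have hfix : ∀ f : FixP p P, (∀ z ∈ sphere (0 : ℂ) 1, (f : X ≃ₜ X) (C z) = C z) →
      ρ f ⟨Y0 u γ, hoY⟩ = ⟨Y0 u γ, hoY⟩ := by
    intro f hf
    obtain ⟨F, h1, -, h3⟩ := lift_fix G hC f.2 hf
    apply Subtype.ext
    rw [hρ f F h1]
    exact cj_eq (nrm_lift G hC.uni h1) ⟨1, one_mem _, Or.inl (by rw [h3]; group)⟩
  refine ⟨YY p P u γ, fun x y z => dY Sp (x : Set (ℍ ≃ₜ ℍ)) y z, ρ, ⟨Y0 u γ, hoY⟩,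
    projY G.h3 G.h4 G.h7 hG hF, hpres, ?_, hfix, ?_⟩
  · intro f H H0 H1 H2
    obtain ⟨F, h1, h2⟩ := G.l4 X p P u hC.uni f f.2 H H0 H1 H2
    ext1 y
    apply Subtype.ext
    rw [hρ f F h1, Equiv.Perm.one_apply]
    have hsub := hF.sub y y.2
    ext a
    constructor
    · intro ha
      have h3 : F⁻¹ * a * F ∈ (y : Set (ℍ ≃ₜ ℍ)) := ha
      have h4 := h2 _ (hsub _ h3)
      have h5 : a = F⁻¹ * a * F := by
        calc a = F * (F⁻¹ * a * F) * F⁻¹ := by group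
          _ = (F⁻¹ * a * F) * F * F⁻¹ := by rw [h4]
          _ = F⁻¹ * a * F := by group
      rw [h5]
      exact h3
    · intro ha
      change F⁻¹ * a * F ∈ (y : Set (ℍ ≃ₜ ℍ))
      have h4 := h2 _ (hsub _ ha)
      have h5 : F⁻¹ * a * F = a := by
        calc F⁻¹ * a * F = F⁻¹ * (a * F) := by group
          _ = F⁻¹ * (F * a) := by rw [h4]
          _ = a := by group
      rw [h5]
      exact ha
  · intro f g hf ⟨F, hFl, hcr⟩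
    have hffix : ρ f ⟨Y0 u γ, hoY⟩ = ⟨Y0 u γ, hoY⟩ :=
      hfix f (fun z hz => tw_in hC hf _ (sph_K hC ⟨z, hz, rfl⟩))
    refine ⟨hpres f, hpres g, hffix, ?_, ?_⟩
    · intro h
      have h1 := congrArg Subtype.val h
      rw [hρ g F hFl] at h1
      have h2 : F * γ * F⁻¹ ∈ Y0 u γ := by
        have h3 : F * γ * F⁻¹ ∈ cj F (Y0 u γ) := mem_cj
        have h4 : cj F (Y0 u γ) = Y0 u γ := h1
        rwa [h4] at h3
      exact Y0_simple G hC mem_Y0 h2 hcr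
    · obtain ⟨Φ, f1, f2, f3⟩ := twist_est G hC hf hG
      obtain ⟨b1, b2, -⟩ := G.h1 _ (deck u) Sp l r sd _ hG hF
      refine ⟨10, 1, le_refl _, ?_⟩
      intro z hz n
      have hzo : Y0 u γ ≠ z := fun h => hz (Subtype.ext h.symm)
      obtain ⟨b, hb, hcb⟩ := b1 _ hoY z z.2 hzo γ mem_Y0
      obtain ⟨k1, k2, k3⟩ := f3 b (hF.sub z z.2 b hb) hcb n
      -- the lift of the power
      have hpw : ∀ m : ℕ, Lif u ((f ^ m : FixP p P) : X ≃ₜ X) (Φ ^ m) := by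
        intro m
        induction m with
        | zero =>
          intro w
          rfl
        | succ m ih =>
          rw [pow_succ, pow_succ]
          exact lif_mul (f := ((f ^ m : FixP p P) : X ≃ₜ X)) (g := ((f : X ≃ₜ X) : X → X)) ih f1
      have e1 : ((ρ f ^ n) z : Set (ℍ ≃ₜ ℍ)) = cj (Φ ^ n) z := by
        rw [← map_pow]
        exact hρ _ _ (hpw n) z
      have e2 : (ρ f ^ n) z ≠ ⟨Y0 u γ, hoY⟩ := by
        intro h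
        have h1 : ∀ m : ℕ, (ρ f ^ m) (⟨Y0 u γ, hoY⟩ : YY p P u γ) = ⟨Y0 u γ, hoY⟩ := by
          intro m
          induction m with
          | zero => rfl
          | succ m ih =>
            rw [pow_succ, Equiv.Perm.mul_apply, hffix, ih]
        apply hz
        exact (ρ f ^ n).injective (h.trans (h1 n).symm)
      have e3 : Φ ^ n * b * (Φ ^ n)⁻¹ ∈ ((ρ f ^ n) z : Set (ℍ ≃ₜ ℍ)) := by
        rw [e1]
        change (Φ ^ n)⁻¹ * (Φ ^ n * b * (Φ ^ n)⁻¹) * Φ ^ n ∈ (z : Set (ℍ ≃ₜ ℍ))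
        have e : (Φ ^ n)⁻¹ * (Φ ^ n * b * (Φ ^ n)⁻¹) * Φ ^ n = b := by group
        rw [e]
        exact hb
      obtain ⟨d1, d2⟩ := b2 _ hoY z z.2 _ ((ρ f ^ n) z).2 hzo
        (fun h => e2 (Subtype.ext h.symm)) γ mem_Y0 b hb _ e3 hcb k2
      rw [abs_sub_comm (tw l r γ b)] at d1 d2
      obtain ⟨k4, k5⟩ := abs_le.1 k3
      change 1 * n ≤ dY Sp (Y0 u γ) (z : Set (ℍ ≃ₜ ℍ)) ((ρ f ^ n) z : Set (ℍ ≃ₜ ℍ)) + 10 ∧
        dY Sp (Y0 u γ) (z : Set (ℍ ≃ₜ ℍ)) ((ρ f ^ n) z : Set (ℍ ≃ₜ ℍ)) ≤ 1 * n + 10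
      generalize dY Sp (Y0 u γ) (z : Set (ℍ ≃ₜ ℍ)) ((ρ f ^ n) z : Set (ℍ ≃ₜ ℍ)) = N at d1 d2 ⊢
      constructor
      · have : ((1 * n : ℕ) : ℝ) ≤ (N + 10 : ℕ) := by
          push_cast
          linarith
        exact_mod_cast this
      · have : (N : ℝ) ≤ (1 * n + 10 : ℕ) := by
          push_cast
          linarith
        exact_mod_cast this

end

end Pool.Agent.Helper64.LN
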