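import Pool.Agent.Helper64.LN.AsmC
import Pool.Agent.Helper64.PQ.AsmF

set_option autoImplicit false

/-! Project LN: assembly, the surface. -/

open Topology Filter Set Metric UpperHalfPlane
open scoped MatrixGroups
open Pool.Agent.Helper78.BigMap

namespace Pool.Agent.Helper64.LN

universe v

/-- The goals for the global part. -/
structure Glg.{w} : Prop extends Gls.{w} where
  a : PQ.GoalA
  gl : GoalGL.{w}
  f2 : GoalF2.{w}
  is : GoalIS.{w}
  pu2 : GoalPU2.{w}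
  ex5 : GoalEX5.{w}
  ip : GoalIP.{w}
  fe : GoalFE.{w}
  or' : GoalOR.{w}
  oc : GoalOC.{w}

section
variable {X : Type v} [TopologicalSpace X]

/-- The data used for the proof. -/
structure Ladder (E P : Set X) (O : Set (OpenPartialHomeomorph (Sb E) ℂ)) (p : Sb E)
    (u : ℍ → X) (C : ℕ → OpenPartialHomeomorph ℂ X) (K : ℕ → Set X) (γ : ℕ → (ℍ ≃ₜ ℍ))
    (ω : ℕ → C(ℝ, ℍ)) (k : ℕ → OpenPartialHomeomorph ℂ (Sb E)) (W : ℕ → Set (Sb E))
    (y : ℕ → (Sb E ≃ₜ Sb E)) : Prop where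
  thin : Thin E
  sub : P ⊆ E
  ext : ∀ f : Sb E ≃ₜ Sb E, ∃ G : X ≃ₜ X, (∀ x : Sb E, G x = f x) ∧ ∀ x, G x ∈ P ↔ x ∈ P
  orient : IsOrientedAtlas O
  crv : ∀ i, Crv (p : X) P u (C i) (K i) (γ i) (ω i)
  chart : ∀ i, (k i).symm ∈ O ∧ (k i).source = {z : ℂ | 1 / 2 < ‖z‖ ∧ ‖z‖ < 2} ∧
    ∀ z ∈ (k i).source, (k i z : X) = C i z
  mono : ∀ i, K i ⊆ interior (K (i + 1))
  exh : ⋃ i, K i = univ
  disj : Pairwise fun i j => Disjoint (W i) (W j)
  out : ∀ i j, i < j → ∀ x ∈ W j, (x : X) ∉ K i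
  comp : ∀ i, IsCompact (W i)
  ann : ∀ i z, 3 / 5 ≤ ‖z‖ → ‖z‖ ≤ 3 / 2 → k i z ∈ W i
  pW : ∀ i, p ∉ W i
  yW : ∀ i, ∀ x ∉ W i, y i x = x
  yO : ∀ i, PreservesOrientation O (y i)
  yF : ∀ i, ∃ F : ℍ ≃ₜ ℍ, (∀ z, (∀ x : Sb E, u z = x → u (F z) = y i x) ∧
    (u z ∈ E → u (F z) = u z)) ∧ Cr Sp (γ i) (F * γ i * F⁻¹)

end

section
variable {X : Type v} [TopologicalSpace X] {E : Set X}

lemma thin_dense (hE : Thin E) (x : X) : x ∈ closure Eᶜ := by
  rw [mem_closure_iff_nhds]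
  intro U hU
  obtain ⟨V, -, h2, h3⟩ := hE.loc x U hU
  obtain ⟨y, hy⟩ := h3.nonempty
  exact ⟨y, h2 hy.1, hy.2⟩

lemma ext_uniq [T2Space X] (hE : Thin E) {F G : X ≃ₜ X} (h : ∀ x : Sb E, F x = G x) : F = G := by
  ext x
  have hc : IsClosed {x : X | F x = G x} := isClosed_eq F.continuous G.continuous
  have hs : Eᶜ ⊆ {x : X | F x = G x} := fun x hx => h ⟨x, hx⟩
  exact (closure_minimal hs hc) (thin_dense hE x)

/-- The extension homomorphism. -/
lemma exists_eps [T2Space X] (hE : Thin E) {P : Set X}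
    (hext : ∀ f : Sb E ≃ₜ Sb E, ∃ G : X ≃ₜ X, (∀ x : Sb E, G x = f x) ∧ ∀ x, G x ∈ P ↔ x ∈ P) :
    ∃ ε : (Sb E ≃ₜ Sb E) →* (X ≃ₜ X), (∀ f (x : Sb E), ε f x = f x) ∧
      ∀ f x, ε f x ∈ P ↔ x ∈ P := by
  choose ε h1 h2 using hext
  refine ⟨MonoidHom.mk' ε ?_, h1, h2⟩
  intro f g
  apply ext_uniq hE
  intro x
  rw [h1]
  change _ = ε f (ε g x)
  rw [h1, h1]
  rfl

/-- The extension of a homeomorphism with compact support. -/
lemma eps_supp [T2Space X] (hE : Thin E) {f : Sb E ≃ₜ Sb E} {F : X ≃ₜ X}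
    (hF : ∀ x : Sb E, F x = f x) {W : Set (Sb E)} (hW : IsCompact W) (hf : ∀ x ∉ W, f x = x)
    (x : X) (hx : ∀ y ∈ W, (y : X) ≠ x) : F x = x := by
  have hc : IsClosed {x : X | F x = x} := isClosed_eq F.continuous continuous_id
  have hW' : IsCompact ((fun y : Sb E => (y : X)) '' W) := hW.image continuous_subtype_val
  have hx' : x ∈ ((fun y : Sb E => (y : X)) '' W)ᶜ := by
    rintro ⟨y, hy, h⟩
    exact hx y hy h
  have : x ∈ closure {x : X | F x = x} := by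
    rw [mem_closure_iff_nhds]
    intro U hU
    obtain ⟨z, hz, hz'⟩ := mem_closure_iff_nhds.1 (thin_dense hE x) _
      (inter_mem hU (hW'.isClosed.isOpen_compl.mem_nhds hx'))
    refine ⟨z, hz.1, ?_⟩
    change F ((⟨z, hz'⟩ : Sb E) : X) = z
    rw [hF, hf]
    intro h
    exact hz.2 ⟨_, h, rfl⟩
  rwa [hc.closure_eq] at this

end

/-- The time one map of an isotopy. -/
def slice {S : Type*} [TopologicalSpace S] (H : (unitInterval × S) ≃ₜ (unitInterval × S))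
    (h : ∀ q, (H q).1 = q.1) : S ≃ₜ S where
  toFun x := (H (1, x)).2
  invFun x := (H.symm (1, x)).2
  left_inv x := by
    have e : H (1, x) = (1, (H (1, x)).2) := Prod.ext (h _) rfl
    change (H.symm (1, (H (1, x)).2)).2 = x
    rw [← e, H.symm_apply_apply]
  right_inv x := by
    have e : H.symm (1, x) = (1, (H.symm (1, x)).2) := by
      refine Prod.ext ?_ rfl
      have := h (H.symm (1, x))
      rw [H.apply_symm_apply] at this
      exact this.symm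
    change (H (1, (H.symm (1, x)).2)).2 = x
    rw [← e, H.apply_symm_apply]
  continuous_toFun := by fun_prop
  continuous_invFun := by fun_prop

lemma slice_iso {S : Type*} [TopologicalSpace S] (H : (unitInterval × S) ≃ₜ (unitInterval × S))
    (h : ∀ q, (H q).1 = q.1) (h0 : ∀ x, (H (0, x)).2 = x) : IsotopicToId (slice H h) :=
  ⟨H, h, h0, fun _ => rfl⟩

/-- Discs around every point. -/
lemma exists_disc {S : Type*} [TopologicalSpace S] {O : Set (OpenPartialHomeomorph S ℂ)}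
    (hO : IsOrientedAtlas O) (x : S) :
    ∃ J : OpenPartialHomeomorph ℂ S, J.source = ball (0 : ℂ) 1 ∧ x ∈ J.target := by
  obtain ⟨φ, -, hx⟩ := hO.1 x
  obtain ⟨r, hr, hb⟩ := Metric.isOpen_iff.1 φ.open_target (φ x) (φ.map_source hx)
  have hr0 : (r : ℂ) ≠ 0 := by exact_mod_cast hr.ne'
  let e : ℂ ≃ₜ ℂ := (Homeomorph.mulLeft₀ (r : ℂ) hr0).trans (Homeomorph.addLeft (φ x))
  have he : ∀ z, e z = φ x + r * z := fun _ => rfl
  have hin : ∀ z ∈ ball (0 : ℂ) 1, e z ∈ φ.target := by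
    intro z hz
    apply hb
    rw [mem_ball, he, dist_eq_norm, add_sub_cancel_left, norm_mul, Complex.norm_real,
      Real.norm_eq_abs, abs_of_pos hr]
    rw [mem_ball_zero_iff] at hz
    nlinarith
  have hs : ((e.toOpenPartialHomeomorph.trans φ.symm).restrOpen (ball 0 1) isOpen_ball).source =
      ball (0 : ℂ) 1 := by
    rw [OpenPartialHomeomorph.restrOpen_source]
    ext z
    simp only [OpenPartialHomeomorph.trans_source, mem_inter_iff, mem_preimage]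
    constructor
    · exact fun h => h.2
    · exact fun h => ⟨⟨trivial, hin z h⟩, h⟩
  refine ⟨_, hs, ?_⟩
  have h0 : ((e.toOpenPartialHomeomorph.trans φ.symm).restrOpen (ball 0 1) isOpen_ball) 0 = x := by
    change φ.symm (e 0) = x
    rw [he, mul_zero, add_zero, φ.left_inv hx]
  rw [← h0]
  apply OpenPartialHomeomorph.map_source
  rw [hs]
  simp

lemma circle_norm (t : ℝ) : ‖Complex.exp (2 * Real.pi * Complex.I * t)‖ = 1 := by
  have : (2 * Real.pi * Complex.I * t : ℂ) = ((2 * Real.pi * t : ℝ) : ℂ) * Complex.I := by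
    push_cast
    ring
  rw [this, Complex.norm_exp_ofReal_mul_I]

section
variable {X : Type v} [TopologicalSpace X] {E P : Set X} {O : Set (OpenPartialHomeomorph (Sb E) ℂ)}
  {p : Sb E} {u : ℍ → X} {C : ℕ → OpenPartialHomeomorph ℂ X} {K : ℕ → Set X}
  {γ : ℕ → (ℍ ≃ₜ ℍ)} {ω : ℕ → C(ℝ, ℍ)} {k : ℕ → OpenPartialHomeomorph ℂ (Sb E)}
  {W : ℕ → Set (Sb E)} {y : ℕ → (Sb E ≃ₜ Sb E)}

lemma Ladder.src (L : Ladder E P O p u C K γ ω k W y) (i : ℕ) {z : ℂ} (h1 : 3 / 5 ≤ ‖z‖)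
    (h2 : ‖z‖ ≤ 3 / 2) : z ∈ (k i).source := by
  rw [(L.chart i).2.1]
  exact ⟨by linarith, by linarith⟩

lemma Ladder.csph (L : Ladder E P O p u C K γ ω k W y) (i : ℕ) {z : ℂ} (hz : ‖z‖ = 1) :
    k i z ∈ W i ∧ (k i z : X) = C i z :=
  ⟨L.ann i z (by rw [hz]; norm_num) (by rw [hz]; norm_num),
    (L.chart i).2.2 z (L.src i (by rw [hz]; norm_num) (by rw [hz]; norm_num))⟩

lemma Ladder.mono' (L : Ladder E P O p u C K γ ω k W y) {i j : ℕ} (h : i ≤ j) : K i ⊆ K j := by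
  induction h with
  | refl => exact subset_rfl
  | step h ih => exact ih.trans ((L.mono _).trans interior_subset)

/-- Compact sets are contained in some `K i`. -/
lemma Ladder.cpt (L : Ladder E P O p u C K γ ω k W y) {M : Set X} (hM : IsCompact M) :
    ∃ i, M ⊆ K i := by
  have h1 : M ⊆ ⋃ i, interior (K i) := by
    intro x _
    have : x ∈ ⋃ i, K i := by
      rw [L.exh]
      exact mem_univ x
    obtain ⟨i, hi⟩ := mem_iUnion.1 this
    exact mem_iUnion.2 ⟨i + 1, L.mono i hi⟩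
  obtain ⟨t, ht⟩ := hM.elim_finite_subcover _ (fun i => isOpen_interior) h1
  refine ⟨t.sup id, fun x hx => ?_⟩
  obtain ⟨i, hi, h2⟩ := mem_iUnion₂.1 (ht hx)
  exact L.mono' (Finset.le_sup (f := id) hi) (interior_subset h2)

lemma Ladder.yWW (L : Ladder E P O p u C K γ ω k W y) (i : ℕ) {x : Sb E} (hx : x ∈ W i) :
    y i x ∈ W i := by
  by_contra h
  have h1 := L.yW i _ h
  have h2 := (y i).injective h1
  rw [h2] at h
  exact h hx

/-- Lifts of `y i`. -/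
lemma Ladder.lif [T2Space X] (L : Ladder E P O p u C K γ ω k W y) (i : ℕ) {G : X ≃ₜ X}
    (hG : ∀ x : Sb E, G x = y i x) :
    ∃ F : ℍ ≃ₜ ℍ, Lif u G F ∧ Cr Sp (γ i) (F * γ i * F⁻¹) := by
  obtain ⟨F, h1, h2⟩ := L.yF i
  refine ⟨F, fun z => ?_, h2⟩
  by_cases h : u z ∈ E
  · rw [(h1 z).2 h, eps_supp L.thin hG (L.comp i) (L.yW i) (u z)]
    intro w _ h3
    exact w.2 (h3 ▸ h)
  · rw [(h1 z).1 ⟨u z, h⟩ rfl, ← hG]

lemma Ladder.esc [T2Space X] (hL3 : GoalL3.{v}) (L : Ladder E P O p u C K γ ω k W y) :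
    Esc u := by
  intro M hM
  obtain ⟨i, hi⟩ := L.cpt hM
  obtain ⟨G, hG, -⟩ := L.ext (y (i + 1))
  obtain ⟨F, h1, h2⟩ := L.lif (i + 1) hG
  have hc := L.crv (i + 1)
  refine ⟨γ (i + 1), hc.deck, F * γ (i + 1) * F⁻¹,
    ((hL3 X _ u hc.uni).2.2 G F h1).1 _ hc.deck, ⟨ω (i + 1), hc.per, fun t h => ?_⟩,
    ⟨⟨fun t => F (ω (i + 1) t), F.continuous.comp (ω (i + 1)).continuous⟩, fun t => ?_,
      fun t h => ?_⟩, h2⟩
  · obtain ⟨a1, a2⟩ := L.csph (i + 1) (circle_norm t)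
    rw [hc.core, ← a2] at h
    exact L.out i (i + 1) (Nat.lt_succ_self i) _ a1 (hi h)
  · change F (ω (i + 1) (t + 1)) = F (γ (i + 1) (F.symm (F (ω (i + 1) t))))
    rw [F.symm_apply_apply, hc.per]
  · obtain ⟨a1, a2⟩ := L.csph (i + 1) (circle_norm t)
    change u (F (ω (i + 1) t)) ∈ M at h
    rw [h1, hc.core, ← a2, hG] at h
    exact L.out i (i + 1) (Nat.lt_succ_self i) _ (L.yWW _ a1) (hi h)

end

end Pool.Agent.Helper64.LN
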