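import Pool.Agent.Helper64.PQ.Stmt

set_option autoImplicit false

/-!
Statements of the theorems on surfaces with a distinguished end (MP_2b9d24_gt).
`IsOrientedAtlas`, `PreservesOrientation`, `FixesEnds`, `IsotopicToId` are defined in
`Pool.Agent.Helper78.BigMap.Defs`, and `CuspAt` in `Pool.Agent.Helper64.PQ.Stmt`.
-/

open Topology Filter Set Metric UpperHalfPlane
open Pool.Agent.Helper78.BigMap
open Pool.Agent.Helper64.PQ.Stmt (CuspAt)
open scoped MatrixGroups

namespace Pool.Agent.Helper64.LN.Stmt

section
variable {X : Type*} [TopologicalSpace X]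

/-- The surface `S`: the space `X` without `E`. -/
abbrev Sf (E : Set X) : Type _ := {x : X // x ∉ E}

/-- `E` is a closed totally disconnected subset of `X` which does not separate `X` locally. -/
structure Thin (E : Set X) : Prop where
  closed : IsClosed E
  td : IsTotallyDisconnected E
  loc : ∀ x : X, ∀ U ∈ 𝓝 x, ∃ V ∈ 𝓝 x, V ⊆ U ∧ IsConnected (V \ E)

/-- Every point of `E` has a neighbourhood in `X` which is a disc. -/
def PlEnds (E : Set X) : Prop :=
  ∀ x ∈ E, ∃ J : OpenPartialHomeomorph ℂ X, J.source = ball (0 : ℂ) 1 ∧ x ∈ J.target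

/-- `X` is not planar near infinity: outside every compact set there is an annulus in `X` minus
`E` whose core does not separate. -/
def NonPl (E : Set X) : Prop :=
  ∀ L : Set X, IsCompact L → ∃ A : OpenPartialHomeomorph ℂ X,
    A.source = {z : ℂ | 1 / 2 < ‖z‖ ∧ ‖z‖ < 2} ∧ (∀ z ∈ A.source, A z ∉ L ∪ E) ∧
    JoinedIn (L ∪ E ∪ A '' sphere (0 : ℂ) 1)ᶜ (A (3 / 4)) (A (3 / 2))

/-- The ends of `S`: the points of `E` and the end of `X`, as a subset of the one point
compactification of `X`. -/
def EndSet (E : Set X) : Set (OnePoint X) :=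
  insert OnePoint.infty ((fun x : X => (x : OnePoint X)) '' E)

/-- `P` is invariant under all homeomorphisms of the pair consisting of the one point
compactification of `X` and the space of ends of `S` (these are the maps induced by the
homeomorphisms of `S`). -/
def Invariant (E P : Set X) : Prop :=
  ∀ F : OnePoint X ≃ₜ OnePoint X, (∀ z, F z ∈ EndSet E ↔ z ∈ EndSet E) →
    ∀ x ∈ P, ∃ y ∈ P, F ((x : X) : OnePoint X) = ((y : X) : OnePoint X)

/-- `u` is a covering of `X` minus `B` by the upper half plane whose deck transformations are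
Moebius transformations (acting transitively on the fibres), and `p` is a cusp. -/
structure Unif (B : Set X) (p : X) (u : ℍ → X) : Prop where
  cov : IsCoveringMapOn u Bᶜ
  range : Set.range u = Bᶜ
  deck : ∀ z w : ℍ, u z = u w → ∃ g : SL(2, ℝ), g • z = w ∧ ∀ v : ℍ, u (g • v) = u v
  cusp : ∃ A : SL(2, ℝ), CuspAt u A p

/-- The Moebius transformation `g` as a homeomorphism of the upper half plane. -/
noncomputable def mob (g : SL(2, ℝ)) : ℍ ≃ₜ ℍ := Homeomorph.smul g

/-- `α` and `β` cross: every curve which is eventually `β`-periodic in both directions meets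
every `α`-periodic curve. -/
def Cross (α β : ℍ ≃ₜ ℍ) : Prop :=
  ∀ (σ η : C(ℝ, ℍ)) (T : ℝ), (∀ t, T ≤ t → σ (t + 1) = β (σ t)) →
    (∀ t, t ≤ -T → σ (t - 1) = β⁻¹ (σ t)) → (∀ t, η (t + 1) = α (η t)) → ∃ s t, σ s = η t

/-- The data belonging to one curve: an annulus `k` in `S`, the compact set `K` bounded by its
core, the Moebius transformation `g` and the lift `ω` of the core, a compact set `W` in `S`, and
a homeomorphism `y` of `S`. -/
structure Step (E : Set X) where
  k : OpenPartialHomeomorph ℂ (Sf E)
  K : Set X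
  g : SL(2, ℝ)
  ω : C(ℝ, ℍ)
  W : Set (Sf E)
  y : Sf E ≃ₜ Sf E

/-- `K` is a compact neighbourhood of `p` containing only finitely many points of `B`, its
frontier is the core of the annulus `k` (which avoids `B`), `K` and its complement are connected,
and `X` retracts onto `K` in such a way that the complement goes to the core. -/
structure Reg {E : Set X} (B : Set X) (p : Sf E) (k : OpenPartialHomeomorph ℂ (Sf E))
    (K : Set X) : Prop where
  src : k.source = {z : ℂ | 1 / 2 < ‖z‖ ∧ ‖z‖ < 2}
  tgt : ∀ z ∈ k.source, (k z : X) ∉ B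
  comp : IsCompact K
  pK : (p : X) ∈ interior K
  fin : (K ∩ B).Finite
  col : ∀ z ∈ k.source, ((k z : X) ∈ K ↔ ‖z‖ ≤ 1)
  fr : frontier K = (fun z => (k z : X)) '' sphere (0 : ℂ) 1
  conn : IsPathConnected (interior K \ B)
  conn' : IsPathConnected (Kᶜ \ B)
  retr : ∃ r : C(X, X), (∀ x ∈ K, r x = x) ∧ ∀ x, x ∉ K → r x ∈ frontier K

/-- The core of the annulus `k` is covered by the axis of the Moebius transformation `g`, via the
parametrization `ω`. -/
structure Geod {E : Set X} (u : ℍ → X) (k : OpenPartialHomeomorph ℂ (Sf E)) (g : SL(2, ℝ))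
    (ω : C(ℝ, ℍ)) : Prop where
  deck : ∀ z : ℍ, u (g • z) = u z
  core : ∀ t : ℝ, u (ω t) = k (Complex.exp (2 * Real.pi * Complex.I * t))
  per : ∀ t : ℝ, ω (t + 1) = g • ω t
  axis : ∀ t : ℝ, g 1 0 * ((ω t).re ^ 2 + (ω t).im ^ 2) + (g 1 1 - g 0 0) * (ω t).re - g 0 1 = 0

/-- The homeomorphism `y` preserves the orientation and is supported in the compact set `W`,
which contains the middle part of the annulus and not `p`; a lift `F` of `y` to the half plane
maps the axis of `g` to a curve crossing it. -/
structure Move {E : Set X} (O : Set (OpenPartialHomeomorph (Sf E) ℂ)) (p : Sf E) (u : ℍ → X)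
    (s : Step E) : Prop where
  comp : IsCompact s.W
  ann : ∀ z : ℂ, 3 / 5 ≤ ‖z‖ → ‖z‖ ≤ 3 / 2 → s.k z ∈ s.W
  pW : p ∉ s.W
  supp : ∀ x ∉ s.W, s.y x = x
  orient : PreservesOrientation O s.y
  lift : ∃ F : ℍ ≃ₜ ℍ, (∀ z, ∀ x : Sf E, u z = x → u (F z) = s.y x) ∧
    Cross (mob s.g) (F * mob s.g * F⁻¹)

/-- The data describing `S = X \ E`: the points of `E` are planar ends of `S`, `O` is an oriented
atlas of `S` containing the charts of the annuli, `u` uniformizes `X` minus `B`, and the compact
sets `K` form an exhaustion of `X`; the sets `W` are disjoint and go to infinity. -/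
structure Surf {E : Set X} (B : Set X) (O : Set (OpenPartialHomeomorph (Sf E) ℂ)) (p : Sf E)
    (u : ℍ → X) (s : ℕ → Step E) : Prop where
  thin : Thin E
  planar : PlEnds E
  orient : IsOrientedAtlas O
  atlas : ∀ i, (s i).k.symm ∈ O
  unif : Unif B (p : X) u
  reg : ∀ i, Reg B p (s i).k (s i).K
  geod : ∀ i, Geod u (s i).k (s i).g (s i).ω
  move : ∀ i, Move O p u (s i)
  mono : ∀ i, (s i).K ⊆ interior (s (i + 1)).K
  exh : ⋃ i, (s i).K = univ
  disj : Pairwise fun i j => Disjoint (s i).W (s j).W
  out : ∀ i j, i < j → ∀ x ∈ (s j).W, (x : X) ∉ (s i).K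

end

section
variable {S : Type*} [TopologicalSpace S]

/-- All orientation preserving homeomorphisms (they form a group, so the closure adds
nothing). -/
def MHomeo (O : Set (OpenPartialHomeomorph S ℂ)) : Subgroup (S ≃ₜ S) :=
  Subgroup.closure {f | PreservesOrientation O f}

/-- The mapping class group of the surface `S` with oriented atlas `O`. -/
def MG (O : Set (OpenPartialHomeomorph S ℂ)) : Type _ :=
  MHomeo O ⧸ Subgroup.normalClosure {f : MHomeo O | IsotopicToId (f : S ≃ₜ S)}

/-- The group structure of the mapping class group. -/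
instance (O : Set (OpenPartialHomeomorph S ℂ)) : Group (MG O) :=
  inferInstanceAs (Group (MHomeo O ⧸
    Subgroup.normalClosure {f : MHomeo O | IsotopicToId (f : S ≃ₜ S)}))

/-- The mapping class of an orientation preserving homeomorphism. -/
def cls {O : Set (OpenPartialHomeomorph S ℂ)} (f : MHomeo O) : MG O := QuotientGroup.mk f

/-- The pure mapping class group: the subgroup of the mapping class group consisting of the
classes of the homeomorphisms acting trivially on the space of ends (these classes form a
subgroup, so the closure adds nothing). -/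
def PMG (O : Set (OpenPartialHomeomorph S ℂ)) : Subgroup (MG O) :=
  Subgroup.closure {c | ∃ f : MHomeo O, PreservesOrientation O (f : S ≃ₜ S) ∧
    FixesEnds (f : S ≃ₜ S) ∧ c = cls f}

/-- The mapping class group has a finite quotient in which the image of the pure mapping class
group is not abelian. -/
def PureNonabelianQuotient (O : Set (OpenPartialHomeomorph S ℂ)) : Prop :=
  ∃ (F : Type) (_ : Group F) (_ : Finite F) (Φ : MG O →* F), Function.Surjective Φ ∧
    ∃ x ∈ PMG O, ∃ y ∈ PMG O, Φ x * Φ y ≠ Φ y * Φ x

end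

end Pool.Agent.Helper64.LN.Stmt
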