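import Pool.Agent.Helper64.LN.AsmE
import Pool.Agent.Helper64.LN.Stmt

set_option autoImplicit false

/-! Project LN: the theorem on surfaces with exactly one non-planar end. -/

open Topology Filter Set Metric UpperHalfPlane
open scoped MatrixGroups
open Pool.Agent.Helper78.BigMap

namespace Pool.Agent.Helper64.LN

universe v

section conn
variable {X : Type v} [TopologicalSpace X] {E : Set X}

lemma dense_of (hE : Stmt.Thin E) {x : X} {U : Set X} (hU : U ∈ 𝓝 x) : ∃ y ∈ U, y ∉ E := by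
  obtain ⟨V, -, h2, h3⟩ := hE.loc x U hU
  obtain ⟨y, hy⟩ := h3.nonempty
  exact ⟨y, h2 hy.1, hy.2⟩

/-- `E` does not separate connected open sets. -/
lemma preconn_diff (hE : Stmt.Thin E) {U : Set X} (hU : IsOpen U) (hc : IsPreconnected U) :
    IsPreconnected (U \ E) := by
  rw [isPreconnected_iff_subset_of_disjoint]
  intro A B hA hB hAB hd
  by_contra hcon
  push Not at hcon
  obtain ⟨⟨a, ha⟩, ⟨b, hb⟩⟩ : (∃ a, a ∈ U \ E ∧ a ∉ A) ∧ ∃ b, b ∈ U \ E ∧ b ∉ B := by
    constructor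
    · obtain ⟨a, h1, h2⟩ := not_subset.1 hcon.1
      exact ⟨a, h1, h2⟩
    · obtain ⟨a, h1, h2⟩ := not_subset.1 hcon.2
      exact ⟨a, h1, h2⟩
  let A' : Set X := {x | ∀ᶠ y in 𝓝 x, y ∈ E ∨ y ∈ A}
  let B' : Set X := {x | ∀ᶠ y in 𝓝 x, y ∈ E ∨ y ∈ B}
  have hA' : IsOpen A' := by
    rw [isOpen_iff_eventually]
    intro x hx
    exact eventually_eventually_nhds.2 hx
  have hB' : IsOpen B' := by
    rw [isOpen_iff_eventually]
    intro x hx
    exact eventually_eventually_nhds.2 hx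
  have hsub : U ⊆ A' ∪ B' := by
    intro x hx
    obtain ⟨V, hV, hVU, hVc⟩ := hE.loc x U (hU.mem_nhds hx)
    have h1 : V \ E ⊆ A ∪ B := fun y hy => hAB ⟨hVU hy.1, hy.2⟩
    have h2 : (V \ E) ∩ (A ∩ B) = ∅ := by
      rw [eq_empty_iff_forall_notMem] at hd ⊢
      intro y hy
      exact hd y ⟨⟨hVU hy.1.1, hy.1.2⟩, hy.2⟩
    rcases isPreconnected_iff_subset_of_disjoint.1 hVc.isPreconnected A B hA hB h1 h2 with h3 | h3
    · left
      filter_upwards [hV] with y hy
      by_cases hyE : y ∈ E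
      · exact Or.inl hyE
      · exact Or.inr (h3 ⟨hy, hyE⟩)
    · right
      filter_upwards [hV] with y hy
      by_cases hyE : y ∈ E
      · exact Or.inl hyE
      · exact Or.inr (h3 ⟨hy, hyE⟩)
  have haB : a ∈ B := (hAB ha.1).resolve_left ha.2
  have hbA : b ∈ A := (hAB hb.1).resolve_right hb.2
  obtain ⟨x, hxU, hxA, hxB⟩ := hc A' B' hA' hB' hsub
    ⟨b, hb.1.1, by filter_upwards [hA.mem_nhds hbA] with y hy using Or.inr hy⟩
    ⟨a, ha.1.1, by filter_upwards [hB.mem_nhds haB] with y hy using Or.inr hy⟩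
  have hev : ∀ᶠ y in 𝓝 x, (y ∈ E ∨ y ∈ A) ∧ (y ∈ E ∨ y ∈ B) ∧ y ∈ U :=
    hxA.and (hxB.and (hU.mem_nhds hxU))
  obtain ⟨y, hy, hyE⟩ := dense_of hE hev
  have h1 : y ∈ (U \ E) ∩ (A ∩ B) :=
    ⟨⟨hy.2.2, hyE⟩, hy.1.resolve_left hyE, hy.2.1.resolve_left hyE⟩
  rw [hd] at h1
  exact h1

/-- Charts give path connectedness. -/
lemma pathConn {S : Type v} [TopologicalSpace S] [ConnectedSpace S]
    {O : Set (OpenPartialHomeomorph S ℂ)} (hO : IsOrientedAtlas O) : PathConnectedSpace S := by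
  choose φ h1 h2 using hO.1
  let c : ChartedSpace ℂ S :=
    { atlas := range φ
      chartAt := φ
      mem_chart_source := h2
      chart_mem_atlas := fun x => ⟨x, rfl⟩ }
  haveI := c
  haveI : LocallyPathConnectedSpace S := ChartedSpace.locallyPathConnectedSpace ℂ S
  exact pathConnectedSpace_iff_connectedSpace.2 inferInstance

end conn

section
variable {X : Type v} [TopologicalSpace X] [T2Space X] {E B : Set X}
  {O : Set (OpenPartialHomeomorph (Sb E) ℂ)} {p : Sb E} {u : ℍ → X} {s : ℕ → Stmt.Step E}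

/-- The inclusion of `S` as an open partial homeomorphism. -/
noncomputable def incl (hE : IsClosed E) (p : Sb E) : OpenPartialHomeomorph (Sb E) X :=
  haveI : Nonempty (Sb E) := ⟨p⟩
  IsOpenEmbedding.toOpenPartialHomeomorph (fun x : Sb E => (x : X))
    (hE.isOpen_compl.isOpenEmbedding_subtypeVal)

omit [T2Space X] in
lemma incl_apply (hE : IsClosed E) (p x : Sb E) : incl hE p x = x := rfl

omit [T2Space X] in
lemma incl_source (hE : IsClosed E) (p : Sb E) : (incl hE p).source = univ := rfl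

/-- The annulus in `X`. -/
noncomputable def toX (hE : IsClosed E) (p : Sb E) (k : OpenPartialHomeomorph ℂ (Sb E)) :
    OpenPartialHomeomorph ℂ X := k.trans (incl hE p)

omit [T2Space X] in
lemma toX_source (hE : IsClosed E) (p : Sb E) (k : OpenPartialHomeomorph ℂ (Sb E)) :
    (toX hE p k).source = k.source := by
  unfold toX
  rw [OpenPartialHomeomorph.trans_source, incl_source, preimage_univ, inter_univ]

omit [T2Space X] in
lemma toX_apply (hE : IsClosed E) (p : Sb E) (k : OpenPartialHomeomorph ℂ (Sb E)) (z : ℂ) :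
    toX hE p k z = k z := rfl

lemma surf_noncompact (h : Stmt.Surf B O p u s) : NoncompactSpace X := by
  rw [← not_compactSpace_iff]
  intro hc
  have hu : ∀ n, ⋃ i ∈ Finset.range n, (s i).K ⊆ interior (s n).K := by
    intro n
    induction n with
    | zero => simp
    | succ n ih =>
      intro x hx
      obtain ⟨i, hi, h1⟩ := mem_iUnion₂.1 hx
      rw [Finset.mem_range] at hi
      apply h.mono n
      rcases Nat.lt_succ_iff_lt_or_eq.1 hi with h2 | h2
      · exact interior_subset (ih (mem_iUnion₂.2 ⟨i, Finset.mem_range.2 h2, h1⟩))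
      · rwa [h2] at h1
  obtain ⟨t, ht⟩ := isCompact_univ.elim_finite_subcover (fun i => interior (s (i + 1)).K)
    (fun i => isOpen_interior) (by
      intro x _
      have : x ∈ ⋃ i, (s i).K := by
        rw [h.exh]
        exact mem_univ x
      obtain ⟨i, hi⟩ := mem_iUnion.1 this
      exact mem_iUnion.2 ⟨i, h.mono i hi⟩)
  have hall : ∀ x : X, x ∈ interior (s (t.sup id + 2)).K := by
    intro x
    obtain ⟨i, hi, h1⟩ := mem_iUnion₂.1 (ht (mem_univ x))
    apply hu
    refine mem_iUnion₂.2 ⟨i + 1, ?_, interior_subset h1⟩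
    rw [Finset.mem_range]
    have := Finset.le_sup (f := id) hi
    simp only [id] at this
    omega
  have hr := h.reg (t.sup id + 2)
  have h1 : ((s (t.sup id + 2)).k 1 : X) ∈ frontier (s (t.sup id + 2)).K := by
    rw [hr.fr]
    exact ⟨1, by simp, rfl⟩
  exact h1.2 (hall _)

lemma surf_loc (h : Stmt.Surf B O p u s) : LocallyCompactSpace X := by
  have : WeaklyLocallyCompactSpace X := by
    refine ⟨fun x => ?_⟩
    have : x ∈ ⋃ i, (s i).K := by
      rw [h.exh]
      exact mem_univ x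
    obtain ⟨i, hi⟩ := mem_iUnion.1 this
    exact ⟨(s (i + 1)).K, (h.reg (i + 1)).comp,
      mem_interior_iff_mem_nhds.1 (h.mono i hi)⟩
  infer_instance

lemma surf_cpt (h : Stmt.Surf B O p u s) {M : Set X} (hM : IsCompact M) :
    ∃ i, M ⊆ (s i).K := by
  have hmono : ∀ {i j : ℕ}, i ≤ j → (s i).K ⊆ (s j).K := by
    intro i j h1
    induction h1 with
    | refl => exact subset_rfl
    | step h2 ih => exact ih.trans ((h.mono _).trans interior_subset)
  have h1 : M ⊆ ⋃ i, interior (s i).K := by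
    intro x _
    have : x ∈ ⋃ i, (s i).K := by
      rw [h.exh]
      exact mem_univ x
    obtain ⟨i, hi⟩ := mem_iUnion.1 this
    exact mem_iUnion.2 ⟨i + 1, h.mono i hi⟩
  obtain ⟨t, ht⟩ := hM.elim_finite_subcover _ (fun i => isOpen_interior) h1
  refine ⟨t.sup id, fun x hx => ?_⟩
  obtain ⟨i, hi, h2⟩ := mem_iUnion₂.1 (ht hx)
  exact hmono (Finset.le_sup (f := id) hi) (interior_subset h2)

/-- The complement of `K` is connected. -/
lemma compl_conn (hB : ∀ b ∈ B, b = (p : X) ∨ b ∈ E) (hE : Stmt.Thin E) {k : OpenPartialHomeomorph ℂ (Sb E)}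
    {K : Set X} (h : Stmt.Reg B p k K) : IsConnected (Kᶜ \ E) := by
  have hop : IsOpen Kᶜ := h.comp.isClosed.isOpen_compl
  have hpK : (p : X) ∈ K := interior_subset h.pK
  constructor
  · obtain ⟨x, hx⟩ := h.conn'.nonempty
    obtain ⟨y, h1, h2⟩ := dense_of hE (hop.mem_nhds hx.1)
    exact ⟨y, h1, h2⟩
  · -- `Kᶜ` is connected since `B` is thin
    have h1 : IsPreconnected (Kᶜ \ B) := h.conn'.isConnected.isPreconnected
    have h2 : IsPreconnected Kᶜ := by
      refine h1.subset_closure diff_subset ?_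
      intro x hx
      rw [mem_closure_iff_nhds]
      intro U hU
      obtain ⟨y, h3, h4⟩ := dense_of hE (inter_mem hU (hop.mem_nhds hx))
      refine ⟨y, h3.1, h3.2, fun h5 => ?_⟩
      rcases hB y h5 with h6 | h6
      · exact h3.2 (h6 ▸ hpK)
      · exact h4 h6
    exact preconn_diff hE hop h2

lemma thin_of (h : Stmt.Surf B O p u s) (hB : ∀ b ∈ B, b = (p : X) ∨ b ∈ E) : Thin E := by
  refine ⟨h.thin.closed, h.thin.td, h.thin.loc, fun L hL => ?_⟩
  obtain ⟨i, hi⟩ := surf_cpt h hL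
  exact ⟨(s i).K, (h.reg i).comp, hi, compl_conn hB h.thin (h.reg i)⟩

/-- A lift of the restriction is a lift. -/
lemma lif_dense (hE : Thin E) {B : Set X} (hu : Uni B u) {y : Sb E ≃ₜ Sb E} {G : X ≃ₜ X}
    (hG : ∀ x : Sb E, G x = y x) {F : ℍ ≃ₜ ℍ} (hF : ∀ z, ∀ x : Sb E, u z = x → u (F z) = y x) :
    Lif u G F := by
  have hloc : IsLocalHomeomorph u := by
    rw [isLocalHomeomorph_iff_isLocalHomeomorphOn_univ]
    have h3 := hu.cov.isLocalHomeomorphOn
    have e : u ⁻¹' Bᶜ = univ := by rw [← hu.range]; exact preimage_range u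
    rwa [e] at h3
  intro z
  have hc : IsClosed {z | u (F z) = G (u z)} :=
    isClosed_eq (hloc.continuous.comp F.continuous) (G.continuous.comp hloc.continuous)
  have : z ∈ closure {z | u (F z) = G (u z)} := by
    rw [mem_closure_iff_nhds]
    intro V hV
    have h1 : u '' V ∈ 𝓝 (u z) := hloc.isOpenMap.image_mem_nhds hV
    obtain ⟨w, h2, h3⟩ := mem_closure_iff_nhds.1 (thin_dense hE (u z)) _ h1
    obtain ⟨v, h4, rfl⟩ := h2
    refine ⟨v, h4, ?_⟩
    change u (F v) = G ((⟨u v, h3⟩ : Sb E) : X)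
    rw [hG, hF v ⟨u v, h3⟩ rfl]
  rwa [hc.closure_eq] at this

/-- Closed discs. -/
lemma disc_small {S : Type v} [TopologicalSpace S] (J : OpenPartialHomeomorph ℂ S)
    (hJ : J.source = ball (0 : ℂ) 1) {x : S} (hx : x ∈ J.target) :
    ∃ J' : OpenPartialHomeomorph ℂ S, closedBall (0 : ℂ) 1 ⊆ J'.source ∧ J' 0 = x := by
  obtain ⟨r, hr, hb⟩ := Metric.isOpen_iff.1 J.open_source (J.symm x) (J.map_target hx)
  have hr0 : ((r / 2 : ℝ) : ℂ) ≠ 0 := by
    have : r / 2 ≠ 0 := by positivity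
    exact_mod_cast this
  let e : ℂ ≃ₜ ℂ := (Homeomorph.mulLeft₀ ((r / 2 : ℝ) : ℂ) hr0).trans
    (Homeomorph.addLeft (J.symm x))
  have he : ∀ z, e z = J.symm x + ((r / 2 : ℝ) : ℂ) * z := fun _ => rfl
  refine ⟨e.toOpenPartialHomeomorph.trans J, ?_, ?_⟩
  · intro z hz
    rw [OpenPartialHomeomorph.trans_source]
    refine ⟨trivial, ?_⟩
    apply hb
    change e z ∈ _
    rw [mem_ball, he, dist_eq_norm, add_sub_cancel_left, norm_mul, Complex.norm_real,
      Real.norm_eq_abs, abs_of_pos (by positivity)]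
    rw [mem_closedBall_zero_iff] at hz
    nlinarith
  · change J (e 0) = x
    rw [he, mul_zero, add_zero, J.right_inv hx]

/-- From the statement to the ladder. -/
theorem ladder_of (hL3 : GoalL3.{v}) {P : Set X} (hPE : P ⊆ E)
    (h : Stmt.Surf (insert (p : X) P) O p u s)
    (hex : ∀ f : Sb E ≃ₜ Sb E, ∃ G : X ≃ₜ X, (∀ x : Sb E, G x = f x) ∧ ∀ x, G x ∈ P ↔ x ∈ P) :
    ∃ C : ℕ → OpenPartialHomeomorph ℂ X,
      Ladder E P O p u C (fun i => (s i).K) (fun i => mh (s i).g)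
        (fun i => (s i).ω) (fun i => (s i).k) (fun i => (s i).W) (fun i => (s i).y) := by
  have hB : ∀ b ∈ insert (p : X) P, b = (p : X) ∨ b ∈ E := by
    intro b hb
    rcases hb with hb | hb
    · exact Or.inl hb
    · exact Or.inr (hPE hb)
  have hthin : Thin E := thin_of h hB
  have huni : Uni (insert (p : X) P) u := ⟨h.unif.cov, h.unif.range, h.unif.deck⟩
  have hl : ∀ i (F : ℍ ≃ₜ ℍ), (∀ z, ∀ x : Sb E, u z = x → u (F z) = (s i).y x) →
      ∀ z, (∀ x : Sb E, u z = x → u (F z) = (s i).y x) ∧ (u z ∈ E → u (F z) = u z) := by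
    intro i F h1 z
    refine ⟨h1 z, fun h2 => ?_⟩
    obtain ⟨G, g1, -⟩ := hex (s i).y
    rw [lif_dense hthin huni g1 h1 z, eps_supp hthin g1 (h.move i).comp (h.move i).supp (u z)]
    intro w _ h3
    exact w.2 (h3 ▸ h2)
  have hyF : ∀ i, ∃ F : ℍ ≃ₜ ℍ, (∀ z, (∀ x : Sb E, u z = x → u (F z) = (s i).y x) ∧
      (u z ∈ E → u (F z) = u z)) ∧ Cr Sp (mh (s i).g) (F * mh (s i).g * F⁻¹) := by
    intro i
    obtain ⟨F, a1, a3⟩ := (h.move i).lift
    exact ⟨F, hl i F a1, fun σ η T b1 b2 b3 => a3 σ η T b1 b2 b3⟩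
  have hcl := h.thin.closed
  have hcrv : ∀ i, Crv (p : X) P u (toX hcl p (s i).k) (s i).K (mh (s i).g) (s i).ω := by
    intro i
    have hr := h.reg i
    have hdk : mh (s i).g ∈ deck u := mem_deck.2 ⟨_, (h.geod i).deck, rfl⟩
    obtain ⟨A, c1, c2⟩ := h.unif.cusp
    have hfr : frontier (s i).K = (toX hcl p (s i).k) '' sphere (0 : ℂ) 1 := hr.fr
    refine ⟨huni, ⟨A, c1, c2⟩, ?_, ?_, hr.comp, hr.pK, ?_, hfr, hr.conn, ?_, hdk,
      (h.geod i).core, (h.geod i).per, ?_, ?_, hr.fin, ?_, ?_⟩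
    · rw [toX_source, hr.src]
    · intro z hz
      rw [toX_source] at hz
      exact hr.tgt z hz
    · intro z hz
      rw [toX_source] at hz
      exact hr.col z hz
    · have e : (s i).Kᶜ \ insert (p : X) P = (s i).Kᶜ \ P := by
        ext x
        constructor
        · rintro ⟨h1, h2⟩
          exact ⟨h1, fun h3 => h2 (Or.inr h3)⟩
        · rintro ⟨h1, h2⟩
          refine ⟨h1, fun h3 => ?_⟩
          rcases h3 with h3 | h3
          · exact h1 (h3 ▸ interior_subset hr.pK)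
          · exact h2 h3
      rw [← e]
      exact hr.conn'
    · intro t
      exact (ax_mh _ _).2 ((h.geod i).axis t)
    · obtain ⟨F, a1, a2⟩ := hyF i
      obtain ⟨J, b1, -⟩ := hex (s i).y
      exact ⟨_, ((hL3 X _ u huni).2.2 J F
        (lif_dense hthin huni b1 (fun z x hx => (a1 z).1 x hx))).1 _ hdk, a2⟩
    · intro b hb
      rcases hb.2 with hb2 | hb2
      · obtain ⟨J, j1, j2⟩ := exists_disc h.orient p
        obtain ⟨J', j3, j4⟩ := disc_small J j1 j2
        refine ⟨toX hcl p J', ?_, ?_⟩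
        · rw [toX_source]
          exact j3
        · rw [toX_apply, j4, hb2]
      · obtain ⟨J, j1, j2⟩ := h.planar b (hPE hb2)
        exact disc_small J j1 j2
    · obtain ⟨r, r1, r2⟩ := hr.retr
      refine ⟨r, r1, fun x hx => ?_⟩
      rw [← hfr]
      exact r2 x hx
  refine ⟨fun i => toX hcl p (s i).k, hthin, hPE, hex, h.orient, hcrv, ?_, h.mono, h.exh,
    h.disj, h.out, ?_, ?_, ?_, ?_, ?_, hyF⟩
  · exact fun i => ⟨h.atlas i, (h.reg i).src, fun z _ => (toX_apply hcl p _ z).symm⟩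
  · exact fun i => (h.move i).comp
  · exact fun i => (h.move i).ann
  · exact fun i => (h.move i).pW
  · exact fun i => (h.move i).supp
  · exact fun i => (h.move i).orient

omit [T2Space X] in
/-- The final step. -/
theorem concl_of (h : ∃ (Θ : (Sb E ≃ₜ Sb E) →* Equiv.Perm (Fin 3)),
    (∀ f, IsotopicToId f → Θ f = 1) ∧ ∃ f g : Sb E ≃ₜ Sb E, PreservesOrientation O f ∧
      FixesEnds f ∧ PreservesOrientation O g ∧ FixesEnds g ∧ Θ f * Θ g ≠ Θ g * Θ f) :
    Stmt.PureNonabelianQuotient O := by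
  obtain ⟨Θ, h1, f, g, f1, f2, g1, g2, h2⟩ := h
  have hker : Subgroup.normalClosure {f : Stmt.MHomeo O | IsotopicToId (f : Sb E ≃ₜ Sb E)} ≤
      (Θ.comp (Stmt.MHomeo O).subtype).ker := by
    apply Subgroup.normalClosure_le_normal
    intro f hf
    exact h1 f hf
  let Ψ : Stmt.MG O →* Equiv.Perm (Fin 3) := QuotientGroup.lift _ _ hker
  let f' : Stmt.MHomeo O := ⟨f, Subgroup.subset_closure f1⟩
  let g' : Stmt.MHomeo O := ⟨g, Subgroup.subset_closure g1⟩
  refine ⟨Ψ.range, inferInstance, inferInstance, Ψ.rangeRestrict, Ψ.rangeRestrict_surjective,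
    Stmt.cls f', Subgroup.subset_closure ⟨f', f1, f2, rfl⟩,
    Stmt.cls g', Subgroup.subset_closure ⟨g', g1, g2, rfl⟩, ?_⟩
  intro h3
  exact h2 (congrArg Subtype.val h3)

/-- Exactly one non-planar end. -/
theorem surf_main (G : Glg.{v}) (hEX2 : GoalEX2.{v}) (hEX3 : GoalEX3.{v})
    [ConnectedSpace (Sb E)] (h : Stmt.Surf {(p : X)} O p u s) (hn : Stmt.NonPl E) :
    Stmt.PureNonabelianQuotient O := by
  haveI := surf_noncompact h
  haveI := surf_loc h
  haveI := pathConn h.orient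
  have hthin : Thin E := thin_of h (fun b hb => Or.inl hb)
  have hex : ∀ f : Sb E ≃ₜ Sb E, ∃ G : X ≃ₜ X, (∀ x : Sb E, G x = f x) ∧
      ∀ x, G x ∈ (∅ : Set X) ↔ x ∈ (∅ : Set X) := by
    intro f
    obtain ⟨F, a1, a2⟩ := hEX2 X E hthin f
    obtain ⟨J, b1, -⟩ := a2 (hEX3 X E hthin hn h.planar f F a1)
    exact ⟨J, b1, fun x => Iff.rfl⟩
  have hins : {(p : X)} = (insert (p : X) (∅ : Set X)) := (insert_empty_eq _).symm
  rw [hins] at h
  obtain ⟨C, L⟩ := ladder_of G.l3 (empty_subset E) h hex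
  exact concl_of (main G L)

end

end Pool.Agent.Helper64.LN
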