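import Pool.Agent.Helper64.LN.AsmF

set_option autoImplicit false

/-! Project LN: the theorem on surfaces with an invariant infinite discrete set of ends. -/

open Topology Filter Set Metric UpperHalfPlane
open scoped MatrixGroups
open Pool.Agent.Helper78.BigMap

namespace Pool.Agent.Helper64.LN

universe v

section
variable {X : Type v} [TopologicalSpace X] [T2Space X] {E P : Set X}
  {O : Set (OpenPartialHomeomorph (Sb E) ℂ)} {p : Sb E} {u : ℍ → X} {s : ℕ → Stmt.Step E}

omit [T2Space X] in
lemma mem_endSet_coe {x : X} : (x : OnePoint X) ∈ Stmt.EndSet E ↔ x ∈ E := by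
  constructor
  · rintro (h | ⟨y, hy, h⟩)
    · exact absurd h (OnePoint.coe_ne_infty x)
    · have : y = x := OnePoint.coe_injective h
      exact this ▸ hy
  · intro h
    exact Or.inr ⟨x, h, rfl⟩

omit [T2Space X] in
/-- Extensions preserve the set of ends. -/
lemma endSet_iff {f : Sb E ≃ₜ Sb E} {F : OnePoint X ≃ₜ OnePoint X}
    (hF : ∀ x : Sb E, F ((x : X) : OnePoint X) = (((f x : Sb E) : X) : OnePoint X))
    (z : OnePoint X) : F z ∈ Stmt.EndSet E ↔ z ∈ Stmt.EndSet E := by
  rw [← not_iff_not]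
  constructor
  · intro h
    -- `F z` is a point of `S`
    induction hz : F z using OnePoint.rec with
    | infty => exact absurd (by rw [hz]; exact Or.inl rfl) h
    | coe y =>
      rw [hz, mem_endSet_coe] at h
      have h1 := hF (f.symm ⟨y, h⟩)
      rw [f.apply_symm_apply] at h1
      have h2 : z = (((f.symm ⟨y, h⟩ : Sb E) : X) : OnePoint X) := F.injective (hz.trans h1.symm)
      rw [h2, mem_endSet_coe]
      exact (f.symm ⟨y, h⟩).2
  · intro h
    induction z using OnePoint.rec with
    | infty => exact absurd (Or.inl rfl) h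
    | coe y =>
      rw [mem_endSet_coe] at h
      rw [hF ⟨y, h⟩, mem_endSet_coe]
      exact (f ⟨y, h⟩).2

/-- The point at infinity is fixed. -/
lemma fix_infty [LocallyCompactSpace X] (hfin : ∀ M : Set X, IsCompact M → (M ∩ P).Finite)
    (hP : P.Infinite) {F : OnePoint X ≃ₜ OnePoint X}
    (hF : ∀ x ∈ P, ∃ y ∈ P, F ((x : X) : OnePoint X) = ((y : X) : OnePoint X)) :
    F OnePoint.infty = OnePoint.infty := by
  by_contra hne
  obtain ⟨x, hx⟩ := OnePoint.ne_infty_iff_exists.1 hne
  obtain ⟨M, hM, hMx⟩ := exists_compact_mem_nhds x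
  have hM' : (fun z : X => (z : OnePoint X)) '' M ∈ 𝓝 (F OnePoint.infty) := by
    rw [← hx]
    exact OnePoint.isOpenEmbedding_coe.isOpenMap.image_mem_nhds hMx
  have hpre : F ⁻¹' ((fun z : X => (z : OnePoint X)) '' M) ∈ 𝓝 (OnePoint.infty : OnePoint X) :=
    F.continuous.continuousAt hM'
  rw [OnePoint.nhds_infty_eq] at hpre
  have h1 : (fun z : X => (z : OnePoint X)) ⁻¹' (F ⁻¹' ((fun z : X => (z : OnePoint X)) '' M)) ∈
      coclosedCompact X := by
    have := (mem_sup.1 hpre).1
    exact this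
  rw [hasBasis_coclosedCompact.mem_iff] at h1
  obtain ⟨T, ⟨-, hT⟩, hTs⟩ := h1
  -- infinitely many points of `P` outside `T` are mapped into `M`
  have h2 : (P \ T).Infinite := by
    intro h3
    apply hP
    have : P ⊆ (P \ T) ∪ (T ∩ P) := by
      intro z hz
      by_cases h4 : z ∈ T
      · exact Or.inr ⟨h4, hz⟩
      · exact Or.inl ⟨hz, h4⟩
    exact (h3.union (hfin T hT)).subset this
  have h3 : (fun z : X => F (z : OnePoint X)) '' (P \ T) ⊆
      (fun z : X => (z : OnePoint X)) '' (M ∩ P) := by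
    rintro _ ⟨z, hz, rfl⟩
    obtain ⟨y, hy, hzy⟩ := hF z hz.1
    obtain ⟨m, hm, hm'⟩ := hTs hz.2
    have h4 : m = y := OnePoint.coe_injective (hm'.trans hzy)
    exact ⟨y, ⟨h4 ▸ hm, hy⟩, hzy.symm⟩
  have h4 : ((fun z : X => F (z : OnePoint X)) '' (P \ T)).Infinite :=
    h2.image (fun a _ b _ hab => OnePoint.coe_injective (F.injective hab))
  exact h4 (((hfin M hM).image _).subset h3)

/-- Infinitely many invariant ends. -/
theorem surf_main2 (G : Glg.{v}) (hEX2 : GoalEX2.{v}) [ConnectedSpace (Sb E)]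
    (h : Stmt.Surf (insert (p : X) P) O p u s) (hPE : P ⊆ E) (hP : P.Infinite)
    (hI : Stmt.Invariant E P) : Stmt.PureNonabelianQuotient O := by
  haveI := surf_noncompact h
  haveI := surf_loc h
  haveI := pathConn h.orient
  have hthin : Thin E := thin_of h (by
    intro b hb
    rcases hb with hb | hb
    · exact Or.inl hb
    · exact Or.inr (hPE hb))
  have hfin : ∀ M : Set X, IsCompact M → (M ∩ P).Finite := by
    intro M hM
    obtain ⟨i, hi⟩ := surf_cpt h hM
    exact (h.reg i).fin.subset fun x hx => ⟨hi hx.1, Or.inr hx.2⟩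
  have hex : ∀ f : Sb E ≃ₜ Sb E, ∃ G : X ≃ₜ X, (∀ x : Sb E, G x = f x) ∧
      ∀ x, G x ∈ P ↔ x ∈ P := by
    intro f
    obtain ⟨F, a1, a2⟩ := hEX2 X E hthin f
    have hes := endSet_iff a1
    have b1 := hI F hes
    have hes' : ∀ z, F.symm z ∈ Stmt.EndSet E ↔ z ∈ Stmt.EndSet E := by
      intro z
      have := hes (F.symm z)
      rw [F.apply_symm_apply] at this
      exact this.symm
    have b2 := hI F.symm hes'
    have b3 := fix_infty hfin hP b1
    obtain ⟨J, c1, -⟩ := a2 (fun x _ => by
      rw [b3]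
      exact (OnePoint.coe_ne_infty x).symm)
    have c2 : ∀ x : X, ((J x : X) : OnePoint X) = F x := by
      intro x
      have hc : IsClosed {x : X | ((J x : X) : OnePoint X) = F x} :=
        isClosed_eq (OnePoint.continuous_coe.comp J.continuous)
          (F.continuous.comp OnePoint.continuous_coe)
      have hs : Eᶜ ⊆ {x : X | ((J x : X) : OnePoint X) = F x} := by
        intro y hy
        change ((J ((⟨y, hy⟩ : Sb E) : X) : X) : OnePoint X) = F (((⟨y, hy⟩ : Sb E) : X))
        rw [c1, a1]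
      exact closure_minimal hs hc (thin_dense hthin x)
    refine ⟨J, c1, fun x => ⟨fun hx => ?_, fun hx => ?_⟩⟩
    · obtain ⟨y, hy, h1⟩ := b2 _ hx
      rw [c2 x, F.symm_apply_apply] at h1
      exact (OnePoint.coe_injective h1) ▸ hy
    · obtain ⟨y, hy, h1⟩ := b1 _ hx
      rw [← c2 x] at h1
      exact (OnePoint.coe_injective h1) ▸ hy
  obtain ⟨C, L⟩ := ladder_of G.l3 hPE h hex
  exact concl_of (main G L)

end

end Pool.Agent.Helper64.LN
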