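import Pool.Agent.Helper64.LN.AsmA

set_option autoImplicit false

/-! Project LN: assembly, rigidity (abstract part). -/

open Topology Filter Set Metric UpperHalfPlane
open scoped MatrixGroups

namespace Pool.Agent.Helper64.LN

section
variable {H : Type} [Group H] {D : Subgroup H} {Sp : H → H → H → Prop} {l r : H → H → ℝ}
  {sd : H → H → Prop}

/-- `Φ` normalizes everything. -/
structure Nrm (D : Subgroup H) (Sp : H → H → H → Prop) (Φ : H) : Prop where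
  n1 : ∀ g ∈ D, Φ * g * Φ⁻¹ ∈ D
  n2 : ∀ g ∈ D, Φ⁻¹ * g * Φ ∈ D
  sp : ∀ a b c, Sp (Φ * a * Φ⁻¹) (Φ * b * Φ⁻¹) (Φ * c * Φ⁻¹) ↔ Sp a b c

lemma Nrm.inv {Φ : H} (h : Nrm D Sp Φ) : Nrm D Sp Φ⁻¹ := by
  refine ⟨fun g hg => by rw [inv_inv]; exact h.n2 g hg, fun g hg => by
    rw [inv_inv]; exact h.n1 g hg, fun a b c => ?_⟩
  rw [inv_inv]
  have := h.sp (Φ⁻¹ * a * Φ) (Φ⁻¹ * b * Φ) (Φ⁻¹ * c * Φ)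
  rw [← this]
  have e : ∀ x : H, Φ * (Φ⁻¹ * x * Φ) * Φ⁻¹ = x := fun x => by group
  rw [e, e, e]

lemma Nrm.cr {Φ : H} (h : Nrm D Sp Φ) (a b : H) : Cr Sp (Φ * a * Φ⁻¹) (Φ * b * Φ⁻¹) ↔ Cr Sp a b := by
  have e : (Φ * b * Φ⁻¹)⁻¹ = Φ * b⁻¹ * Φ⁻¹ := by group
  rw [Cr, e]
  exact h.sp a b b⁻¹

lemma nrm_of_mem (hG : GF D Sp) {g : H} (hg : g ∈ D) : Nrm D Sp g := by
  refine ⟨fun x hx => mul_mem (mul_mem hg hx) (inv_mem hg), fun x hx =>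
    mul_mem (mul_mem (inv_mem hg) hx) hg, fun a b c => ⟨fun h => ?_, hG.conj g hg a b c⟩⟩
  have := hG.conj g⁻¹ (inv_mem hg) _ _ _ h
  have e : ∀ x : H, g⁻¹ * (g * x * g⁻¹) * g⁻¹⁻¹ = x := fun x => by group
  rwa [e, e, e] at this

lemma Hp.conj {Φ a : H} (h : Nrm D Sp Φ) (ha : Hp D Sp a) : Hp D Sp (Φ * a * Φ⁻¹) := by
  obtain ⟨e, he, h1⟩ := ha
  exact ⟨_, h.n1 e he, (h.cr a e).2 h1⟩

/-- A line does not commute with a cusp. -/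
lemma nc_cusp (hG : Geo D Sp l r sd) {a π : H} (ha : a ∈ D) (hπ : π ∈ D) (hp : Hp D Sp a)
    (h1 : π ≠ 1) (hpar : ∀ e ∈ D, ¬ Cr Sp π e) : Nc a π := by
  intro h
  obtain ⟨e, he, h2⟩ := hp
  exact hpar e he (hG.crcom a ha e he π hπ h2 h h1)

lemma par_conj {Φ π : H} (h : Nrm D Sp Φ) (hpar : ∀ e ∈ D, ¬ Cr Sp π e ∧ ¬ Cr Sp e π) :
    ∀ e ∈ D, ¬ Cr Sp (Φ * π * Φ⁻¹) e ∧ ¬ Cr Sp e (Φ * π * Φ⁻¹) := by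
  intro e he
  have e1 : e = Φ * (Φ⁻¹ * e * Φ) * Φ⁻¹ := by group
  constructor
  · intro h2
    rw [e1] at h2
    exact (hpar _ (h.n2 e he)).1 ((h.cr _ _).1 h2)
  · intro h2
    rw [e1] at h2
    exact (hpar _ (h.n2 e he)).2 ((h.cr _ _).1 h2)

/-- Two commuting cusps are on the same side. -/
lemma sp_cusp (hG : Geo D Sp l r sd) {a x π π' : H} (ha : a ∈ D) (hx : x ∈ D) (hπ : π ∈ D)
    (hπ' : π' ∈ D) (hp : Hp D Sp a) (h1 : π ≠ 1) (h1' : π' ≠ 1)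
    (hpar : ∀ e ∈ D, ¬ Cr Sp π e ∧ ¬ Cr Sp e π) (hpar' : ∀ e ∈ D, ¬ Cr Sp π' e ∧ ¬ Cr Sp e π')
    (hc : π * π' = π' * π) (hnx : Nc a x) : (Sp a π x ↔ Sp a π' x) ∧ (Sp a x π ↔ Sp a x π') := by
  have n1 := nc_cusp hG ha hπ hp h1 (fun e he => (hpar e he).1)
  have n2 := nc_cusp hG ha hπ' hp h1' (fun e he => (hpar' e he).1)
  have k := hG.n2 a ha π hπ π' hπ' hp (hpar a ha).2 n1 hc h1'
  rw [hG.side a ha π hπ x hx hp n1 hnx, hG.side a ha π' hπ' x hx hp n2 hnx,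
    hG.side a ha x hx π hπ hp hnx n1, hG.side a ha x hx π' hπ' hp hnx n2]
  tauto

/-- The transported facts. -/
lemma simC_conj (hG : Geo D Sp l r sd) {γ π Φ : H} (h : SimC D Sp γ π) (hΦ : Nrm D Sp Φ) :
    SimC D Sp (Φ * γ * Φ⁻¹) π := by
  refine ⟨hΦ.n1 γ h.mem, h.memπ, h.hp.conj hΦ, fun g hg => ?_, h.one, h.par⟩
  have e : g * (Φ * γ * Φ⁻¹) * g⁻¹ = Φ * ((Φ⁻¹ * g * Φ) * γ * (Φ⁻¹ * g * Φ)⁻¹) * Φ⁻¹ := by group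
  rw [e, hΦ.cr]
  exact h.simple _ (hΦ.n2 g hg)

/-- Separation of two translates of the cusp by a transported line. -/
lemma sp_transport (hG : Geo D Sp l r sd) {γ π Φ : H} (h : SimC D Sp γ π) (hΦ : Nrm D Sp Φ)
    (hc : (Φ * π * Φ⁻¹) * π = π * (Φ * π * Φ⁻¹)) {g k x : H} (hg : g ∈ D) (hk : k ∈ D)
    (hx : x ∈ D) (hnx : Nc (g * (Φ * γ * Φ⁻¹) * g⁻¹) x) :
    Sp (g * (Φ * γ * Φ⁻¹) * g⁻¹) (k * π * k⁻¹) x ↔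
      Sp ((Φ⁻¹ * g * Φ) * γ * (Φ⁻¹ * g * Φ)⁻¹)
        ((Φ⁻¹ * k * Φ) * π * (Φ⁻¹ * k * Φ)⁻¹) (Φ⁻¹ * x * Φ) := by
  have hγ' := simC_conj hG h hΦ
  have hkN := nrm_of_mem hG.toGF hk
  have hgN := nrm_of_mem hG.toGF hg
  have hD1 : g * (Φ * γ * Φ⁻¹) * g⁻¹ ∈ D := hgN.n1 _ hγ'.mem
  have hD2 : k * π * k⁻¹ ∈ D := hkN.n1 _ h.memπ
  have hD3 : k * (Φ * π * Φ⁻¹) * k⁻¹ ∈ D := hkN.n1 _ (hΦ.n1 π h.memπ)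
  have one1 : k * π * k⁻¹ ≠ 1 := by
    intro h1
    apply h.one
    have : π = k⁻¹ * (k * π * k⁻¹) * k := by group
    rw [this, h1]
    group
  have one2 : k * (Φ * π * Φ⁻¹) * k⁻¹ ≠ 1 := by
    intro h1
    apply h.one
    have : π = (k * Φ)⁻¹ * (k * (Φ * π * Φ⁻¹) * k⁻¹) * (k * Φ) := by group
    rw [this, h1]
    group
  have p1 := par_conj hkN h.par
  have p2 := par_conj hkN (par_conj hΦ h.par)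
  have hcomm : (k * π * k⁻¹) * (k * (Φ * π * Φ⁻¹) * k⁻¹) =
      (k * (Φ * π * Φ⁻¹) * k⁻¹) * (k * π * k⁻¹) := by
    calc (k * π * k⁻¹) * (k * (Φ * π * Φ⁻¹) * k⁻¹) = k * (π * (Φ * π * Φ⁻¹)) * k⁻¹ := by group
      _ = k * ((Φ * π * Φ⁻¹) * π) * k⁻¹ := by rw [hc]
      _ = _ := by group
  rw [(sp_cusp hG hD1 hx hD2 hD3 (hγ'.hp.conj hgN) one1 one2 p1 p2 hcomm hnx).1]
  rw [← hΦ.sp ((Φ⁻¹ * g * Φ) * γ * (Φ⁻¹ * g * Φ)⁻¹)]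
  have e1 : Φ * ((Φ⁻¹ * g * Φ) * γ * (Φ⁻¹ * g * Φ)⁻¹) * Φ⁻¹ = g * (Φ * γ * Φ⁻¹) * g⁻¹ := by group
  have e2 : Φ * ((Φ⁻¹ * k * Φ) * π * (Φ⁻¹ * k * Φ)⁻¹) * Φ⁻¹ = k * (Φ * π * Φ⁻¹) * k⁻¹ := by group
  have e3 : Φ * (Φ⁻¹ * x * Φ) * Φ⁻¹ = x := by group
  rw [e1, e2, e3]

lemma mem_AA_conj (hG : Geo D Sp l r sd) {γ π Φ : H} (h : SimC D Sp γ π) (hΦ : Nrm D Sp Φ)
    (hc : (Φ * π * Φ⁻¹) * π = π * (Φ * π * Φ⁻¹)) (g : H) :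
    g ∈ AA D Sp (Φ * γ * Φ⁻¹) π ↔ Φ⁻¹ * g * Φ ∈ AA D Sp γ π := by
  have hγ' := simC_conj hG h hΦ
  have hcinv : (Φ⁻¹ * π * Φ) * π = π * (Φ⁻¹ * π * Φ) := by
    calc (Φ⁻¹ * π * Φ) * π = Φ⁻¹ * (π * (Φ * π * Φ⁻¹)) * Φ := by group
      _ = Φ⁻¹ * ((Φ * π * Φ⁻¹) * π) * Φ := by rw [hc]
      _ = _ := by group
  have key : ∀ k ∈ D, ∀ g ∈ D, (Sp (k * (Φ * γ * Φ⁻¹) * k⁻¹) (g * π * g⁻¹) π ↔
      Sp ((Φ⁻¹ * k * Φ) * γ * (Φ⁻¹ * k * Φ)⁻¹) ((Φ⁻¹ * g * Φ) * π * (Φ⁻¹ * g * Φ)⁻¹) π) := by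
    intro k hk g hg
    have hkN := nrm_of_mem hG.toGF hk
    have hk' : Φ⁻¹ * k * Φ ∈ D := hΦ.n2 k hk
    have hg' : Φ⁻¹ * g * Φ ∈ D := hΦ.n2 g hg
    have hkN' := nrm_of_mem hG.toGF hk'
    have hgN' := nrm_of_mem hG.toGF hg'
    have n0 : Nc (k * (Φ * γ * Φ⁻¹) * k⁻¹) π :=
      nc_cusp hG (hkN.n1 _ hγ'.mem) h.memπ (hγ'.hp.conj hkN) h.one (fun e he => (h.par e he).1)
    rw [sp_transport hG h hΦ hc hk hg h.memπ n0]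
    have hparΦ : ∀ e ∈ D, ¬ Cr Sp (Φ⁻¹ * π * Φ) e ∧ ¬ Cr Sp e (Φ⁻¹ * π * Φ) := by
      have := par_conj hΦ.inv h.par
      simpa using this
    have one2 : Φ⁻¹ * π * Φ ≠ 1 := by
      intro h1
      apply h.one
      have : π = Φ * (Φ⁻¹ * π * Φ) * Φ⁻¹ := by group
      rw [this, h1]
      group
    have one1 : (Φ⁻¹ * g * Φ) * π * (Φ⁻¹ * g * Φ)⁻¹ ≠ 1 := by
      intro h1
      apply h.one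
      have : π = (Φ⁻¹ * g * Φ)⁻¹ * ((Φ⁻¹ * g * Φ) * π * (Φ⁻¹ * g * Φ)⁻¹) * (Φ⁻¹ * g * Φ) := by
        group
      rw [this, h1]
      group
    have n1 : Nc ((Φ⁻¹ * k * Φ) * γ * (Φ⁻¹ * k * Φ)⁻¹)
        ((Φ⁻¹ * g * Φ) * π * (Φ⁻¹ * g * Φ)⁻¹) :=
      nc_cusp hG (hkN'.n1 _ h.mem) (hgN'.n1 _ h.memπ) (h.hp.conj hkN') one1
        (fun e he => (par_conj hgN' h.par e he).1)
    exact (sp_cusp hG (hkN'.n1 _ h.mem) (hgN'.n1 _ h.memπ) (hΦ.n2 π h.memπ) h.memπ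
      (h.hp.conj hkN') one2 h.one hparΦ h.par hcinv n1).2
  constructor
  · rintro ⟨h1, h2⟩
    refine ⟨hΦ.n2 g h1, fun k hk h3 => ?_⟩
    have hk' : Φ * k * Φ⁻¹ ∈ D := hΦ.n1 k hk
    apply h2 _ hk'
    rw [key _ hk' g h1]
    have e : Φ⁻¹ * (Φ * k * Φ⁻¹) * Φ = k := by group
    rw [e]
    exact h3
  · rintro ⟨h1, h2⟩
    have hg : g ∈ D := by
      have := hΦ.n1 _ h1
      have e : Φ * (Φ⁻¹ * g * Φ) * Φ⁻¹ = g := by group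
      rwa [e] at this
    refine ⟨hg, fun k hk h3 => ?_⟩
    rw [key k hk g hg] at h3
    exact h2 _ (hΦ.n2 k hk) h3

/-- `γ'` never lies outside `γ`. -/
theorem noBt (r1 : GoalR1) (r2 : GoalR2) (hG : Geo D Sp l r sd) {γ π : H} {out : H → Prop}
    (hc : CF D Sp γ π out)
    (hop : ∀ Φ, Nrm D Sp Φ → AA D Sp γ π ⊆ {g | Φ⁻¹ * g * Φ ∈ AA D Sp γ π} →
      {g | Φ⁻¹ * g * Φ ∈ AA D Sp γ π} ⊆ AA D Sp γ π)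
    {Φ : H} (hΦ : Nrm D Sp Φ) (hcm : (Φ * π * Φ⁻¹) * π = π * (Φ * π * Φ⁻¹))
    (hd : Disj D Sp γ (Φ * γ * Φ⁻¹)) : ¬ Bt D Sp γ π (Φ * γ * Φ⁻¹) := by
  intro hb
  have hs := hc.toSimC
  have hs' := simC_conj hG hs hΦ
  have a1 := r1 H D Sp l r sd γ π _ hG hs hs'.mem hs'.hp hd hb
  obtain ⟨a2, a3⟩ := r2 H D Sp l r sd γ π _ hG hs hs'.mem hs'.hp hd hb (by
    intro g hg hn hsp
    have e0 : Φ * γ * Φ⁻¹ ∈ D := hs'.mem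
    have h1 := (sp_transport hG hs hΦ hcm hg (one_mem D) e0 hn).1 (by simpa using hsp)
    have e1 : Φ⁻¹ * (Φ * γ * Φ⁻¹) * Φ = γ := by group
    have e2 : (Φ⁻¹ * 1 * Φ) * π * (Φ⁻¹ * 1 * Φ)⁻¹ = π := by group
    rw [e1, e2] at h1
    refine hc.f1 _ (hΦ.n2 g hg) ?_ h1
    have h3 := (Nc_conj (a := g * (Φ * γ * Φ⁻¹) * g⁻¹) (b := Φ * γ * Φ⁻¹) Φ⁻¹).2 hn
    have e3 : Φ⁻¹ * (g * (Φ * γ * Φ⁻¹) * g⁻¹) * Φ⁻¹⁻¹ =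
      (Φ⁻¹ * g * Φ) * γ * (Φ⁻¹ * g * Φ)⁻¹ := by group
    have e4 : Φ⁻¹ * (Φ * γ * Φ⁻¹) * Φ⁻¹⁻¹ = γ := by group
    rwa [e3, e4] at h3)
  have hsub : AA D Sp γ π ⊆ {g | Φ⁻¹ * g * Φ ∈ AA D Sp γ π} := by
    intro g hg
    exact (mem_AA_conj hG hs hΦ hcm g).1 (a1 hg)
  exact a3 (hop Φ hΦ hsub ((mem_AA_conj hG hs hΦ hcm _).1 a2))

lemma Disj.symm' (hG : Geo D Sp l r sd) {γ γ' : H} (hγ : γ ∈ D) (hγ' : γ' ∈ D)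
    (h : Disj D Sp γ γ') : Disj D Sp γ' γ := by
  intro g hg
  have hN := nrm_of_mem hG.toGF hg
  obtain ⟨h1, h2⟩ := h g⁻¹ (inv_mem hg)
  have e : g * (g⁻¹ * γ' * g⁻¹⁻¹) * g⁻¹ = γ' := by group
  have hm : g⁻¹ * γ' * g⁻¹⁻¹ ∈ D := (nrm_of_mem hG.toGF (inv_mem hg)).n1 _ hγ'
  constructor
  · intro h3
    apply h1
    have h4 := hG.symm _ hγ' _ (hN.n1 γ hγ) h3
    rw [← e] at h4
    exact (hN.cr γ _).1 h4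
  · intro h3
    apply h2
    have h4 : ¬ Nc (g * γ * g⁻¹) (g * (g⁻¹ * γ' * g⁻¹⁻¹) * g⁻¹) := by
      rw [e]
      exact fun h5 => h5 h3.symm
    rw [Nc_conj] at h4
    exact not_not.1 h4

/-- Rigidity. -/
theorem rigid_abs (r1 : GoalR1) (r2 : GoalR2) (r3 : GoalR3) (hG : Geo D Sp l r sd) {γ π : H}
    {out : H → Prop} (hc : CF D Sp γ π out)
    (hop : ∀ Φ, Nrm D Sp Φ → AA D Sp γ π ⊆ {g | Φ⁻¹ * g * Φ ∈ AA D Sp γ π} →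
      {g | Φ⁻¹ * g * Φ ∈ AA D Sp γ π} ⊆ AA D Sp γ π)
    {Φ : H} (hΦ : Nrm D Sp Φ) (hcm : (Φ * π * Φ⁻¹) * π = π * (Φ * π * Φ⁻¹))
    (hesc : ∃ ν ∈ D, Hp D Sp ν ∧ out ν ∧ out (Φ⁻¹ * ν * Φ) ∧
      (∀ g ∈ D, Nc (g * γ * g⁻¹) ν) ∧ ∀ g ∈ D, Nc (g * (Φ * γ * Φ⁻¹) * g⁻¹) ν) :
    ¬ Disj D Sp γ (Φ * γ * Φ⁻¹) := by
  intro hd
  have hs := hc.toSimC
  have hs' := simC_conj hG hs hΦ
  have A := noBt r1 r2 hG hc hop hΦ hcm hd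
  have hcm' : (Φ⁻¹ * π * Φ⁻¹⁻¹) * π = π * (Φ⁻¹ * π * Φ⁻¹⁻¹) := by
    rw [inv_inv]
    calc (Φ⁻¹ * π * Φ) * π = Φ⁻¹ * (π * (Φ * π * Φ⁻¹)) * Φ := by group
      _ = Φ⁻¹ * ((Φ * π * Φ⁻¹) * π) * Φ := by rw [hcm]
      _ = _ := by group
  have hd' : Disj D Sp γ (Φ⁻¹ * γ * Φ⁻¹⁻¹) := by
    have h1 := hd.symm' hG hs.mem hs'.mem
    intro g hg
    obtain ⟨h2, h3⟩ := h1 (Φ * g * Φ⁻¹) (hΦ.n1 g hg)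
    have e : Φ * (g * (Φ⁻¹ * γ * Φ⁻¹⁻¹) * g⁻¹) * Φ⁻¹ = (Φ * g * Φ⁻¹) * γ * (Φ * g * Φ⁻¹)⁻¹ := by
      group
    rw [← e] at h2 h3
    exact ⟨fun h4 => h2 ((hΦ.cr _ _).2 h4), (Nc_conj Φ).1 h3⟩
  have B := noBt r1 r2 hG hc hop hΦ.inv hcm' hd'
  obtain ⟨ν, hν, hpν, o1, o2, n1, n2⟩ := hesc
  have hν' : Φ⁻¹ * ν * Φ ∈ D := hΦ.n2 ν hν
  have hpν' : Hp D Sp (Φ⁻¹ * ν * Φ) := by
    have := hpν.conj hΦ.inv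
    rwa [inv_inv] at this
  have nc2 : ∀ g ∈ D, Nc (g * γ * g⁻¹) (Φ⁻¹ * ν * Φ) := by
    intro g hg
    have h1 := n2 (Φ * g * Φ⁻¹) (hΦ.n1 g hg)
    have e1 : (Φ * g * Φ⁻¹) * (Φ * γ * Φ⁻¹) * (Φ * g * Φ⁻¹)⁻¹ = Φ * (g * γ * g⁻¹) * Φ⁻¹ := by group
    have e2 : ν = Φ * (Φ⁻¹ * ν * Φ) * Φ⁻¹ := by group
    rw [e1, e2] at h1
    exact (Nc_conj Φ).1 h1
  have R := r3 H D Sp l r sd γ π (Φ * γ * Φ⁻¹) ν hG hs hs' hd A hν hpν n1 n2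
    (hc.g1 ν hν o1 hpν n1) ?_ ?_
  · -- contradiction with `B`
    apply B
    intro h hh
    obtain ⟨g, hg, h1⟩ := R (Φ * h * Φ⁻¹) (hΦ.n1 h hh)
    refine ⟨Φ⁻¹ * g * Φ, hΦ.n2 g hg, ?_⟩
    have hgN := nrm_of_mem hG.toGF hg
    have nx : Nc (g * (Φ * γ * Φ⁻¹) * g⁻¹) γ := (hd g hg).2.symm
    have h2 := (sp_transport hG hs hΦ hcm hg (hΦ.n1 h hh) hs.mem nx).1 h1
    have e1 : Φ⁻¹ * (Φ * h * Φ⁻¹) * Φ = h := by group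
    rw [e1] at h2
    rw [inv_inv]
    exact h2
  · -- g2
    obtain ⟨h, hh, h1, h2⟩ := hc.g2 _ hν' o2 hpν' nc2
    have hh' : Φ * h * Φ⁻¹ ∈ D := hΦ.n1 h hh
    refine ⟨Φ * h * Φ⁻¹, hh', ?_, ?_⟩
    · have hx : (Φ * h * Φ⁻¹) * ν * (Φ * h * Φ⁻¹)⁻¹ ∈ D :=
        (nrm_of_mem hG.toGF hh').n1 _ hν
      have nx : Nc (1 * (Φ * γ * Φ⁻¹) * 1⁻¹) ((Φ * h * Φ⁻¹) * ν * (Φ * h * Φ⁻¹)⁻¹) := by
        have h3 := n2 (Φ * h * Φ⁻¹)⁻¹ (inv_mem hh')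
        rw [← Nc_conj (Φ * h * Φ⁻¹)] at h3
        have e : (Φ * h * Φ⁻¹) * ((Φ * h * Φ⁻¹)⁻¹ * (Φ * γ * Φ⁻¹) * (Φ * h * Φ⁻¹)⁻¹⁻¹) *
          (Φ * h * Φ⁻¹)⁻¹ = 1 * (Φ * γ * Φ⁻¹) * 1⁻¹ := by group
        rwa [e] at h3
      have h4 := sp_transport hG hs hΦ hcm (one_mem D) (one_mem D) hx nx
      have s1 := hG.side (Φ * γ * Φ⁻¹) hs'.mem _ hx π hs.memπ hs'.hp (by simpa using nx)
        (nc_cusp hG hs'.mem hs.memπ hs'.hp hs.one (fun e he => (hs.par e he).1))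
      have s2 := hG.side (Φ * γ * Φ⁻¹) hs'.mem π hs.memπ _ hx hs'.hp
        (nc_cusp hG hs'.mem hs.memπ hs'.hp hs.one (fun e he => (hs.par e he).1))
        (by simpa using nx)
      have s3 : Sp (Φ * γ * Φ⁻¹) ((Φ * h * Φ⁻¹) * ν * (Φ * h * Φ⁻¹)⁻¹) π ↔
          Sp (Φ * γ * Φ⁻¹) π ((Φ * h * Φ⁻¹) * ν * (Φ * h * Φ⁻¹)⁻¹) := by
        rw [s1, s2]
        tauto
      rw [s3]
      have e1 : (1 : H) * (Φ * γ * Φ⁻¹) * 1⁻¹ = Φ * γ * Φ⁻¹ := by group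
      have e2 : (1 : H) * π * 1⁻¹ = π := by group
      rw [e1, e2] at h4
      rw [h4]
      have e3 : (Φ⁻¹ * 1 * Φ) * γ * (Φ⁻¹ * 1 * Φ)⁻¹ = γ := by group
      have e4 : (Φ⁻¹ * 1 * Φ) * π * (Φ⁻¹ * 1 * Φ)⁻¹ = π := by group
      have e5 : Φ⁻¹ * ((Φ * h * Φ⁻¹) * ν * (Φ * h * Φ⁻¹)⁻¹) * Φ =
        h * (Φ⁻¹ * ν * Φ) * h⁻¹ := by group
      rw [e3, e4, e5]
      have hy : h * (Φ⁻¹ * ν * Φ) * h⁻¹ ∈ D := (nrm_of_mem hG.toGF hh).n1 _ hν'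
      have ny : Nc γ (h * (Φ⁻¹ * ν * Φ) * h⁻¹) := by
        have h3 := nc2 h⁻¹ (inv_mem hh)
        rw [← Nc_conj h] at h3
        have e : h * (h⁻¹ * γ * h⁻¹⁻¹) * h⁻¹ = γ := by group
        rwa [e] at h3
      have np : Nc γ π := nc_cusp hG hs.mem hs.memπ hs.hp hs.one (fun e he => (hs.par e he).1)
      rw [hG.side γ hs.mem π hs.memπ _ hy hs.hp np ny]
      have h5 := (hG.side γ hs.mem _ hy π hs.memπ hs.hp ny np).1 h1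
      tauto
    · intro g hg hn h3
      have h4 := h2 (Φ⁻¹ * g * Φ) (hΦ.n2 g hg)
      have e1 : Φ * ((Φ⁻¹ * g * Φ) * γ * (Φ⁻¹ * g * Φ)⁻¹) * Φ⁻¹ = g * (Φ * γ * Φ⁻¹) * g⁻¹ := by
        group
      have e2 : Φ * (h * (Φ⁻¹ * ν * Φ) * h⁻¹) * Φ⁻¹ =
        (Φ * h * Φ⁻¹) * ν * (Φ * h * Φ⁻¹)⁻¹ := by group
      apply h4
      · rw [← Nc_conj Φ, e1]
        exact hn
      · rw [← hΦ.sp, e1, e2]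
        exact h3
  · -- f4
    intro h hh h1
    have np' : Nc (1 * (Φ * γ * Φ⁻¹) * 1⁻¹) π := by
      have := nc_cusp hG hs'.mem hs.memπ hs'.hp hs.one (fun e he => (hs.par e he).1)
      simpa using this
    have h2 := (sp_transport hG hs hΦ hcm (one_mem D) hh hs.memπ np').1 (by simpa using h1)
    have e3 : (Φ⁻¹ * 1 * Φ) * γ * (Φ⁻¹ * 1 * Φ)⁻¹ = γ := by group
    rw [e3] at h2
    have hh' : Φ⁻¹ * h * Φ ∈ D := hΦ.n2 h hh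
    have hhN := nrm_of_mem hG.toGF hh'
    have hparΦ : ∀ e ∈ D, ¬ Cr Sp (Φ⁻¹ * π * Φ) e ∧ ¬ Cr Sp e (Φ⁻¹ * π * Φ) := by
      have := par_conj hΦ.inv hs.par
      simpa using this
    have one2 : Φ⁻¹ * π * Φ ≠ 1 := by
      intro h1
      apply hs.one
      have : π = Φ * (Φ⁻¹ * π * Φ) * Φ⁻¹ := by group
      rw [this, h1]
      group
    have one1 : (Φ⁻¹ * h * Φ) * π * (Φ⁻¹ * h * Φ)⁻¹ ≠ 1 := by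
      intro h1
      apply hs.one
      have : π = (Φ⁻¹ * h * Φ)⁻¹ * ((Φ⁻¹ * h * Φ) * π * (Φ⁻¹ * h * Φ)⁻¹) * (Φ⁻¹ * h * Φ) := by
        group
      rw [this, h1]
      group
    have ny : Nc γ ((Φ⁻¹ * h * Φ) * π * (Φ⁻¹ * h * Φ)⁻¹) :=
      nc_cusp hG hs.mem (hhN.n1 _ hs.memπ) hs.hp one1 (fun e he => (par_conj hhN hs.par e he).1)
    have h3 := (sp_cusp hG hs.mem (hhN.n1 _ hs.memπ) (hΦ.n2 π hs.memπ) hs.memπ hs.hp one2 hs.one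
      hparΦ hs.par (by simpa using hcm') ny).2.1 h2
    obtain ⟨g, hg, h4, h5⟩ := hc.f4 _ hh' h3
    refine ⟨Φ * g * Φ⁻¹, hΦ.n1 g hg, ?_, ?_⟩
    · have e1 : (Φ * g * Φ⁻¹) * (Φ * γ * Φ⁻¹) * (Φ * g * Φ⁻¹)⁻¹ = Φ * (g * γ * g⁻¹) * Φ⁻¹ := by
        group
      rw [e1, Nc_conj]
      exact h4
    · have nx : Nc ((Φ * g * Φ⁻¹) * (Φ * γ * Φ⁻¹) * (Φ * g * Φ⁻¹)⁻¹) (Φ * γ * Φ⁻¹) := by
        have e1 : (Φ * g * Φ⁻¹) * (Φ * γ * Φ⁻¹) * (Φ * g * Φ⁻¹)⁻¹ = Φ * (g * γ * g⁻¹) * Φ⁻¹ := by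
          group
        rw [e1, Nc_conj]
        exact h4
      rw [sp_transport hG hs hΦ hcm (hΦ.n1 g hg) hh hs'.mem nx]
      have e1 : Φ⁻¹ * (Φ * g * Φ⁻¹) * Φ = g := by group
      have e2 : Φ⁻¹ * (Φ * γ * Φ⁻¹) * Φ = γ := by group
      rw [e1, e2]
      exact h5

end

end Pool.Agent.Helper64.LN
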