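import Pool.Agent.Helper64.PQ.Goals

set_option autoImplicit false

/-!
Project LN (MP_2b9d24_gt, phase 2): surfaces with exactly one non-planar end.  Definitions.
-/

open Topology Filter Set Metric UpperHalfPlane
open scoped MatrixGroups

namespace Pool.Agent.Helper64.LN

/-! ### Abstract part -/

section Abs
variable {H : Type} [Group H]

/-- The line of `a` crosses the line of `b` (it separates the two ends of `b`). -/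
def Cr (Sp : H → H → H → Prop) (a b : H) : Prop := Sp a b b⁻¹

/-- `a` and `b` do not commute. -/
def Nc (a b : H) : Prop := a * b ≠ b * a

/-- `a` is crossed by an element of `D`. -/
def Hp (D : Subgroup H) (Sp : H → H → H → Prop) (a : H) : Prop := ∃ e ∈ D, Cr Sp a e

/-- Group theoretic facts. -/
structure GF (D : Subgroup H) (Sp : H → H → H → Prop) : Prop where
  conj : ∀ g ∈ D, ∀ a b c, Sp a b c → Sp (g * a * g⁻¹) (g * b * g⁻¹) (g * c * g⁻¹)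
  symm : ∀ a ∈ D, ∀ b ∈ D, Cr Sp a b → Cr Sp b a
  comm : ∀ a ∈ D, ∀ b ∈ D, Cr Sp a b → Nc a b
  trans : ∀ a ∈ D, ∀ b ∈ D, ∀ c ∈ D, b ≠ 1 → a * b = b * a → b * c = c * b → a * c = c * a
  norm : ∀ g ∈ D, ∀ a ∈ D, a ≠ 1 → (g * a * g⁻¹) * a = a * (g * a * g⁻¹) → g * a = a * g
  lfin : ∀ e ∈ D, ∀ a ∈ D, ∃ F : Set H, F.Finite ∧ ∀ g ∈ D, Cr Sp e (g * a * g⁻¹) →
    ∃ k : ℤ, e ^ k * (g * a * g⁻¹) * (e ^ k)⁻¹ ∈ F

/-- Coordinates: seen from a hyperbolic element `f`, whose attracting and repelling ends are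
`∞` and `0` and which acts as multiplication by `κ f`, the attracting end of `a` is `τ f a`. -/
structure Coord (D : Subgroup H) (Sp : H → H → H → Prop) (hy : H → Prop) (τ : H → H → ℝ)
    (κ : H → ℝ) : Prop where
  crhy : ∀ a ∈ D, ∀ b ∈ D, Cr Sp a b → hy a ∧ hy b
  kap : ∀ f ∈ D, hy f → 1 < κ f
  nz : ∀ f ∈ D, ∀ a ∈ D, hy f → Nc f a → τ f a ≠ 0
  tr : ∀ f ∈ D, ∀ a ∈ D, hy f → Nc f a → τ f (f * a * f⁻¹) = κ f * τ f a
  self : ∀ f ∈ D, ∀ a ∈ D, ∀ b ∈ D, hy f → Nc f a → Nc f b → (Sp f a b ↔ τ f a * τ f b < 0)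
  sepf : ∀ f ∈ D, ∀ b ∈ D, ∀ x ∈ D, hy f → hy b → Nc f b → Nc f x → Nc b x →
    (Sp b x f ↔ (τ f x - τ f b) * (τ f x - τ f b⁻¹) < 0)
  sep : ∀ f ∈ D, ∀ b ∈ D, ∀ x ∈ D, ∀ y ∈ D, hy f → hy b → Nc f b → Nc f x → Nc f y → Nc b x →
    Nc b y → (Sp b x y ↔
      (τ f x - τ f b) * (τ f x - τ f b⁻¹) * ((τ f y - τ f b) * (τ f y - τ f b⁻¹)) < 0)
  eq : ∀ f ∈ D, ∀ a ∈ D, ∀ b ∈ D, hy f → Nc f a → Nc f b → τ f a = τ f b → a * b = b * a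
  com : ∀ f ∈ D, ∀ a ∈ D, ∀ b ∈ D, hy f → Nc f a → Nc f b → a * b = b * a →
    (τ f b = τ f a ∧ τ f b⁻¹ = τ f a⁻¹) ∨ (τ f b = τ f a⁻¹ ∧ τ f b⁻¹ = τ f a)

/-- Sides: `sd a b` says that the attracting end of `b` is on the left side of `a`. -/
structure Geo1 (D : Subgroup H) (Sp : H → H → H → Prop) (sd : H → H → Prop) : Prop where
  crcom : ∀ a ∈ D, ∀ b ∈ D, ∀ c ∈ D, Cr Sp a b → a * c = c * a → c ≠ 1 → Cr Sp c b
  side : ∀ a ∈ D, ∀ b ∈ D, ∀ c ∈ D, Hp D Sp a → Nc a b → Nc a c →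
    (Sp a b c ↔ (sd a b ↔ ¬ sd a c))
  n1 : ∀ a ∈ D, ∀ b ∈ D, ∀ x ∈ D, Hp D Sp a → Hp D Sp b → ¬ Cr Sp a b → Nc a b → Nc a x →
    Nc b x → Sp b x a → ¬ Sp a x b
  n2 : ∀ a ∈ D, ∀ b ∈ D, ∀ c ∈ D, Hp D Sp a → ¬ Cr Sp a b → Nc a b → b * c = c * b → c ≠ 1 →
    (sd a b ↔ sd a c)
  n3 : ∀ a ∈ D, ∀ x ∈ D, Hp D Sp a → Nc a x → (sd a (a * x * a⁻¹) ↔ sd a x)
  n4 : ∀ a ∈ D, ∀ b ∈ D, Hp D Sp a → Hp D Sp b → ¬ Cr Sp a b → Nc a b →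
    ¬ Cr Sp b (a * b * a⁻¹) → ¬ Sp b (a * b * a⁻¹) a

/-- `l a b` and `r a b` are the positions of the ends of a line `b` crossing `a` on the left and
on the right side of `a` (`a` acts as translation by one). -/
structure Geo2 (D : Subgroup H) (Sp : H → H → H → Prop) (l r : H → H → ℝ) : Prop where
  shift : ∀ a ∈ D, ∀ b ∈ D, Cr Sp a b → l a (a * b * a⁻¹) = l a b + 1 ∧
    r a (a * b * a⁻¹) = r a b + 1
  cross : ∀ a ∈ D, ∀ b ∈ D, ∀ c ∈ D, Cr Sp a b → Cr Sp a c →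
    (Cr Sp b c ↔ (l a b - l a c) * (r a b - r a c) < 0)
  dist : ∀ a ∈ D, ∀ b ∈ D, ∀ c ∈ D, Cr Sp a b → Cr Sp a c → (l a b = l a c ∨ r a b = r a c) →
    b * c = c * b
  distc : ∀ a ∈ D, ∀ b ∈ D, ∀ c ∈ D, Cr Sp a b → Cr Sp a c → b * c = c * b →
    l a b = l a c ∧ r a b = r a c
  btw : ∀ a ∈ D, ∀ b ∈ D, ∀ c ∈ D, ∀ e ∈ D, Cr Sp a b → Cr Sp a c → Cr Sp a e → ¬ Cr Sp e b →
    ¬ Cr Sp e c → Nc e b → Nc e c → (Sp e b c ↔ (l a b - l a e) * (l a c - l a e) < 0)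

/-- Relations between the positions and the sides. -/
structure Geo3 (D : Subgroup H) (Sp : H → H → H → Prop) (l r : H → H → ℝ) (sd : H → H → Prop) :
    Prop where
  near : ∀ a ∈ D, ∀ a₁ ∈ D, ∀ b ∈ D, ∀ c ∈ D, Cr Sp a b → Cr Sp a c → Cr Sp a₁ b → Cr Sp a₁ c →
    ¬ Cr Sp a a₁ → Nc a a₁ → (∀ k : ℤ, ¬ Cr Sp a₁ (a ^ k * a₁ * (a ^ k)⁻¹)) →
    (sd a a₁ → |l a b - l a c| < 1) ∧ (¬ sd a a₁ → |r a b - r a c| < 1)
  opp : ∀ a ∈ D, ∀ b ∈ D, Cr Sp a b → ¬ Cr Sp b (a * b * a⁻¹) → ¬ Cr Sp b (a⁻¹ * b * a) →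
    (sd b (a * b * a⁻¹) ↔ ¬ sd b (a⁻¹ * b * a))

/-- All the facts together. -/
structure Geo (D : Subgroup H) (Sp : H → H → H → Prop) (l r : H → H → ℝ) (sd : H → H → Prop) :
    Prop extends GF D Sp, Geo1 D Sp sd, Geo2 D Sp l r, Geo3 D Sp l r sd

/-- The side of `b` seen from `a`. -/
def sdT (τ : H → H → ℝ) (a b : H) : Prop := τ a b < 0

/-- The left position (for `b` crossing `a` exactly one of the numbers `τ a b`, `τ a b⁻¹` is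
negative). -/
noncomputable def lT (τ : H → H → ℝ) (κ : H → ℝ) (a b : H) : ℝ :=
  Real.log (-min (τ a b) (τ a b⁻¹)) / Real.log (κ a)

/-- The right position. -/
noncomputable def rT (τ : H → H → ℝ) (κ : H → ℝ) (a b : H) : ℝ :=
  Real.log (max (τ a b) (τ a b⁻¹)) / Real.log (κ a)

/-- A family of classes of simple elements, any two of which cross. -/
structure Fam (D : Subgroup H) (Sp : H → H → H → Prop) (Y : Set (Set H)) : Prop where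
  sub : ∀ y ∈ Y, ∀ a ∈ y, a ∈ D
  ne : ∀ y ∈ Y, y.Nonempty
  conj : ∀ y ∈ Y, ∀ a ∈ y, ∀ g ∈ D, g * a * g⁻¹ ∈ y
  inv : ∀ y ∈ Y, ∀ a ∈ y, a⁻¹ ∈ y
  cls : ∀ y ∈ Y, ∀ a ∈ y, ∀ b ∈ y, ∃ g ∈ D, b = g * a * g⁻¹ ∨ b = g * a⁻¹ * g⁻¹
  simple : ∀ y ∈ Y, ∀ a ∈ y, ∀ b ∈ y, ¬ Cr Sp a b
  cross : ∀ x ∈ Y, ∀ y ∈ Y, x ≠ y → ∃ a ∈ x, ∃ b ∈ y, Cr Sp a b

/-- The projection distance: the maximal number of translates of a line of `y` along a line of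
`x` which are crossed by a line of `z`, plus five. -/
noncomputable def dY (Sp : H → H → H → Prop) (x y z : Set H) : ℕ :=
  sSup {n : ℕ | ∃ a ∈ x, ∃ b ∈ y, ∃ c ∈ z, Cr Sp a b ∧ Cr Sp a c ∧
    n = Nat.card {k : ℤ // Cr Sp (a ^ k * b * (a ^ k)⁻¹) c}} + 5

/-- Relative twisting of the line `b` crossing `a`. -/
def tw (l r : H → H → ℝ) (a b : H) : ℝ := r a b - l a b

/-- The elements `g` such that no conjugate of `γ` separates `π` and its translate by `g`. -/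
def AA (D : Subgroup H) (Sp : H → H → H → Prop) (γ π : H) : Set H :=
  {g | g ∈ D ∧ ∀ h ∈ D, ¬ Sp (h * γ * h⁻¹) (g * π * g⁻¹) π}

/-- Every translate of `π` is separated from `γ'` by a conjugate of `γ`. -/
def Bt (D : Subgroup H) (Sp : H → H → H → Prop) (γ π γ' : H) : Prop :=
  ∀ h ∈ D, ∃ g ∈ D, Sp (g * γ * g⁻¹) (h * π * h⁻¹) γ'

/-- No conjugate of `γ` crosses or commutes with a conjugate of `γ'`. -/
def Disj (D : Subgroup H) (Sp : H → H → H → Prop) (γ γ' : H) : Prop :=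
  ∀ g ∈ D, ¬ Cr Sp γ (g * γ' * g⁻¹) ∧ Nc γ (g * γ' * g⁻¹)

/-- `γ` is simple, and `π` is a cusp. -/
structure SimC (D : Subgroup H) (Sp : H → H → H → Prop) (γ π : H) : Prop where
  mem : γ ∈ D
  memπ : π ∈ D
  hp : Hp D Sp γ
  simple : ∀ g ∈ D, ¬ Cr Sp γ (g * γ * g⁻¹)
  one : π ≠ 1
  par : ∀ e ∈ D, ¬ Cr Sp π e ∧ ¬ Cr Sp e π

/-- The facts on the curve `γ` and the neighbouring cusp `π`; `out ν` says that `ν` is
represented by a curve outside `K`. -/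
structure CF (D : Subgroup H) (Sp : H → H → H → Prop) (γ π : H) (out : H → Prop) : Prop
    extends SimC D Sp γ π where
  f1 : ∀ g ∈ D, Nc (g * γ * g⁻¹) γ → ¬ Sp (g * γ * g⁻¹) π γ
  f4 : ∀ h ∈ D, Sp γ (h * π * h⁻¹) π → ∃ g ∈ D, Nc (g * γ * g⁻¹) γ ∧
    Sp (g * γ * g⁻¹) (h * π * h⁻¹) γ
  g1 : ∀ ν ∈ D, out ν → Hp D Sp ν → (∀ g ∈ D, Nc (g * γ * g⁻¹) ν) →
    ∀ h ∈ D, ∃ g ∈ D, Sp (g * γ * g⁻¹) (h * π * h⁻¹) ν
  g2 : ∀ ν ∈ D, out ν → Hp D Sp ν → (∀ g ∈ D, Nc (g * γ * g⁻¹) ν) →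
    ∃ h ∈ D, Sp γ (h * ν * h⁻¹) π ∧
      ∀ g ∈ D, Nc (g * γ * g⁻¹) γ → ¬ Sp (g * γ * g⁻¹) (h * ν * h⁻¹) γ

end Abs

/-! ### The upper half plane -/

/-- Moebius transformations as homeomorphisms. -/
noncomputable def mh : SL(2, ℝ) →* (ℍ ≃ₜ ℍ) where
  toFun g := Homeomorph.smul g
  map_one' := by
    ext z
    simp
  map_mul' g h := by
    ext z
    simp [mul_smul]

/-- `γ` separates the ends of `α` and `β`: every curve which is eventually `α`-periodic in one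
direction and eventually `β`-periodic in the other direction meets every `γ`-periodic curve. -/
def Sp (γ α β : ℍ ≃ₜ ℍ) : Prop :=
  ∀ (σ η : C(ℝ, ℍ)) (T : ℝ), (∀ t, T ≤ t → σ (t + 1) = α (σ t)) →
    (∀ t, t ≤ -T → σ (t - 1) = β (σ t)) → (∀ t, η (t + 1) = γ (η t)) → ∃ s t, σ s = η t

/-- Hyperbolic. -/
def hy (F : ℍ ≃ₜ ℍ) : Prop := ∃ g : SL(2, ℝ), F = mh g ∧ 2 < |g 0 0 + g 1 1|

/-- The function whose zero set is the axis of `g`. -/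
noncomputable def sf (g : SL(2, ℝ)) (z : ℍ) : ℝ :=
  g 1 0 * (z.re ^ 2 + z.im ^ 2) + (g 1 1 - g 0 0) * z.re - g 0 1

/-- The same function for boundary points: the determinant of `v` and `g v`. -/
def qf (g : SL(2, ℝ)) (v : ℝ × ℝ) : ℝ :=
  v.1 * (g 1 0 * v.1 + g 1 1 * v.2) - v.2 * (g 0 0 * v.1 + g 0 1 * v.2)

/-- `v` represents the attracting fixed point of `g`. -/
def Att (g : SL(2, ℝ)) (v : ℝ × ℝ) : Prop :=
  v ≠ 0 ∧ ∃ μ : ℝ, 1 ≤ |μ| ∧ g 0 0 * v.1 + g 0 1 * v.2 = μ * v.1 ∧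
    g 1 0 * v.1 + g 1 1 * v.2 = μ * v.2

/-- The axis. -/
def ax (F : ℍ ≃ₜ ℍ) : Set ℍ := {z | ∃ g : SL(2, ℝ), F = mh g ∧ sf g z = 0}

/-- The axis of `F` separates the points `z` and `w`. -/
def Sz (F : ℍ ≃ₜ ℍ) (z w : ℍ) : Prop := ∃ g : SL(2, ℝ), F = mh g ∧ sf g z * sf g w < 0

/-- A subgroup of `SL(2, ℝ)` which acts freely and properly discontinuously. -/
structure Good (Γ : Subgroup SL(2, ℝ)) : Prop where
  free : ∀ g ∈ Γ, ∀ z : ℍ, g • z = z → mh g = 1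
  disc : ∀ L : Set ℍ, IsCompact L → {g : SL(2, ℝ) | g ∈ Γ ∧ ∃ z ∈ L, g • z ∈ L}.Finite

/-! ### Coverings -/

section Cov
variable {X : Type*} [TopologicalSpace X]

/-- `u` is a covering of `X` minus `B` by the upper half plane whose deck transformations are
Moebius transformations. -/
structure Uni (B : Set X) (u : ℍ → X) : Prop where
  cov : IsCoveringMapOn u Bᶜ
  range : Set.range u = Bᶜ
  deck : ∀ z w : ℍ, u z = u w → ∃ g : SL(2, ℝ), g • z = w ∧ ∀ v : ℍ, u (g • v) = u v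

/-- The deck group. -/
noncomputable def deck (u : ℍ → X) : Subgroup (ℍ ≃ₜ ℍ) := (PQ.deckG u).map mh

/-- `F` is a lift of `f`. -/
def Lif (u : ℍ → X) (f : X → X) (F : ℍ ≃ₜ ℍ) : Prop := ∀ z, u (F z) = f (u z)

/-- The homeomorphisms fixing `p` and preserving `P`. -/
def FixP (p : X) (P : Set X) : Subgroup (X ≃ₜ X) where
  carrier := {f | f p = p ∧ ∀ x, f x ∈ P ↔ x ∈ P}
  one_mem' := ⟨rfl, fun _ => Iff.rfl⟩
  mul_mem' := by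
    intro a b ha hb
    refine ⟨?_, fun x => ?_⟩
    · change a (b p) = p
      rw [hb.1, ha.1]
    · exact (ha.2 (b x)).trans (hb.2 x)
  inv_mem' := by
    intro a ha
    refine ⟨?_, fun x => ?_⟩
    · change a.symm p = p
      rw [Homeomorph.symm_apply_eq, ha.1]
    · rw [← ha.2]
      change a (a.symm x) ∈ P ↔ x ∈ P
      rw [a.apply_symm_apply]

/-- The curve data: `K` is a compact neighbourhood of `p` bounded by the simple closed curve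
which is the core of the annulus `C` and which is the image of the axis of `γ`. -/
structure Crv (p : X) (P : Set X) (u : ℍ → X) (C : OpenPartialHomeomorph ℂ X) (K : Set X)
    (γ : ℍ ≃ₜ ℍ) (ω : C(ℝ, ℍ)) : Prop where
  uni : Uni (insert p P) u
  cusp : ∃ A : SL(2, ℝ), PQ.CuspAt u A p
  src : C.source = {z : ℂ | 1 / 2 < ‖z‖ ∧ ‖z‖ < 2}
  tgt : ∀ z ∈ C.source, C z ∉ insert p P
  comp : IsCompact K
  pK : p ∈ interior K
  col : ∀ z ∈ C.source, (C z ∈ K ↔ ‖z‖ ≤ 1)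
  fr : frontier K = C '' sphere (0 : ℂ) 1
  conn : IsPathConnected (interior K \ insert p P)
  conn' : IsPathConnected (Kᶜ \ P)
  deck : γ ∈ deck u
  core : ∀ t : ℝ, u (ω t) = C (Complex.exp (2 * Real.pi * Complex.I * t))
  per : ∀ t : ℝ, ω (t + 1) = γ (ω t)
  geo : ∀ t : ℝ, ω t ∈ ax γ
  hp : Hp (LN.deck u) Sp γ
  fin : (K ∩ insert p P).Finite
  disc : ∀ b ∈ K ∩ insert p P, ∃ J : OpenPartialHomeomorph ℂ X, closedBall (0 : ℂ) 1 ⊆ J.source ∧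
    J 0 = b
  retr : ∃ r : C(X, X), (∀ x ∈ K, r x = x) ∧ ∀ x, x ∉ K → r x ∈ C '' sphere (0 : ℂ) 1

/-- The set of elements representing the curve `γ` (in both directions). -/
def Y0 (u : ℍ → X) (γ : ℍ ≃ₜ ℍ) : Set (ℍ ≃ₜ ℍ) :=
  {a | ∃ g ∈ deck u, a = g * γ * g⁻¹ ∨ a = g * γ⁻¹ * g⁻¹}

/-- The image of a set of elements under `F`. -/
def cj (F : ℍ ≃ₜ ℍ) (y : Set (ℍ ≃ₜ ℍ)) : Set (ℍ ≃ₜ ℍ) := {a | F⁻¹ * a * F ∈ y}

/-- The curves which are images of `γ`. -/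
def YY (p : X) (P : Set X) (u : ℍ → X) (γ : ℍ ≃ₜ ℍ) : Set (Set (ℍ ≃ₜ ℍ)) :=
  {y | ∃ f ∈ FixP p P, ∃ F, Lif u f F ∧ y = cj F (Y0 u γ)}

/-- `ν` is represented by a closed curve outside `K`. -/
def Out (u : ℍ → X) (K : Set X) (ν : ℍ ≃ₜ ℍ) : Prop :=
  ∃ σ : C(ℝ, ℍ), (∀ t, σ (t + 1) = ν (σ t)) ∧ ∀ t, u (σ t) ∉ K

/-- There are crossing curves outside every compact set. -/
def Esc (u : ℍ → X) : Prop :=
  ∀ L : Set X, IsCompact L → ∃ ν ∈ deck u, ∃ ν' ∈ deck u, Out u L ν ∧ Out u L ν' ∧ Cr Sp ν ν'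

/-- Base data: `W t s` lifts the annulus, the horoball `A {Im z ≥ Im ζ}` lies over the interior
of `K`, and it is not separated from the inner side of the axis of `γ`. -/
structure Bas (p : X) (u : ℍ → X) (C : OpenPartialHomeomorph ℂ X) (K : Set X)
    (γ : ℍ ≃ₜ ℍ) (ω : C(ℝ, ℍ)) (W : ℝ → ℝ → ℍ) (A : SL(2, ℝ)) (ζ : ℍ) : Prop where
  cont : ContinuousOn (fun q : ℝ × ℝ => W q.1 q.2) (univ ×ˢ Ioo (1 / 2) 2)
  one : ∀ t, W t 1 = ω t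
  lift : ∀ t, ∀ s ∈ Ioo (1 / 2 : ℝ) 2, u (W t s) = C (s * Complex.exp (2 * Real.pi * Complex.I * t))
  per : ∀ t, ∀ s ∈ Ioo (1 / 2 : ℝ) 2, W (t + 1) s = γ (W t s)
  sides : ∀ t t', ∀ s ∈ Ioo (1 / 2 : ℝ) 1, ∀ s' ∈ Ioo (1 : ℝ) 2, Sz γ (W t s) (W t' s')
  loc : ∀ t, ∀ᶠ w in 𝓝 (ω t), (Sz γ w (W 0 (3 / 4)) → u w ∉ K) ∧
    (Sz γ w (W 0 (3 / 2)) → u w ∈ interior K)
  axis : ax γ = Set.range ω
  cusp : PQ.CuspAt u A p
  high : 1 < ζ.im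
  inK : ∀ z : ℍ, ζ.im ≤ z.im → u (A • z) ∈ interior K
  near : ∀ g ∈ deck u, ¬ Sz (g * γ * g⁻¹) (A • ζ) (W 0 (3 / 4))

/-- The parabolic element fixing the cusp `A ∞`. -/
noncomputable def piA (A : SL(2, ℝ)) : ℍ ≃ₜ ℍ := mh (A * PQ.T1 * A⁻¹)

end Cov

end Pool.Agent.Helper64.LN
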