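import Pool.Agent.Helper64.LN.Lem

set_option autoImplicit false

/-! Project LN (MP_2b9d24_gt, phase 2): definitions for the twists and the surface. -/

open Topology Filter Set Metric UpperHalfPlane
open scoped MatrixGroups

namespace Pool.Agent.Helper64.LN

/-! ### Twists -/

/-- The twist map of the plane with rotation profile `χ`. -/
noncomputable def twm (χ : ℝ → ℝ) (z : ℂ) : ℂ :=
  z * Complex.exp (2 * Real.pi * Complex.I * χ ‖z‖)

/-- The inner profile: from `0` at radius `3/5` to `1` at radius `4/5`. -/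
noncomputable def chi (s : ℝ) : ℝ := max 0 (min 1 (5 * (s - 3 / 5)))

/-- The outer profile: from `0` at radius `5/4` to `1` at radius `3/2`. -/
noncomputable def cho (s : ℝ) : ℝ := max 0 (min 1 (4 * (s - 5 / 4)))

/-- `T` is the twist in the annulus `C` with profile `χ`. -/
def IsTw {X : Type*} [TopologicalSpace X] (C : OpenPartialHomeomorph ℂ X) (χ : ℝ → ℝ)
    (T : X → X) : Prop :=
  (∀ z ∈ C.source, T (C z) = C (twm χ z)) ∧
    ∀ x, x ∉ C '' {z : ℂ | 3 / 5 ≤ ‖z‖ ∧ ‖z‖ ≤ 3 / 2} → T x = x

/-! ### The surface -/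

section
variable {S : Type*} [TopologicalSpace S]

/-- All orientation preserving homeomorphisms. -/
def MHomeo (O : Set (OpenPartialHomeomorph S ℂ)) : Subgroup (S ≃ₜ S) :=
  Subgroup.closure {f | Helper78.BigMap.PreservesOrientation O f}

/-- The mapping class group of the surface `S` with oriented atlas `O`. -/
abbrev MapG (O : Set (OpenPartialHomeomorph S ℂ)) : Type _ :=
  MHomeo O ⧸ Subgroup.normalClosure
    {f : MHomeo O | Helper78.BigMap.IsotopicToId (f : S ≃ₜ S)}

end

section
variable {X : Type*} [TopologicalSpace X]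

/-- `X` minus `E`. -/
abbrev Sb (E : Set X) : Type _ := {x : X // x ∉ E}

/-- `E` is a closed totally disconnected set which does not separate `X` locally, nor near
infinity. -/
structure Thin (E : Set X) : Prop where
  closed : IsClosed E
  td : IsTotallyDisconnected E
  loc : ∀ x : X, ∀ U ∈ 𝓝 x, ∃ V ∈ 𝓝 x, V ⊆ U ∧ IsConnected (V \ E)
  inf : ∀ L : Set X, IsCompact L → ∃ L' : Set X, IsCompact L' ∧ L ⊆ L' ∧ IsConnected (L'ᶜ \ E)

/-- `X` minus `E` is not planar near infinity: outside every compact set there is an annulus in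
`X` minus `E` whose core does not separate. -/
def NonPl (E : Set X) : Prop :=
  ∀ L : Set X, IsCompact L → ∃ A : OpenPartialHomeomorph ℂ X,
    A.source = {z : ℂ | 1 / 2 < ‖z‖ ∧ ‖z‖ < 2} ∧ (∀ z ∈ A.source, A z ∉ L ∪ E) ∧
    JoinedIn (L ∪ E ∪ A '' sphere (0 : ℂ) 1)ᶜ (A (3 / 4)) (A (3 / 2))

/-- Every point of `E` has a planar neighbourhood. -/
def PlEnds (E : Set X) : Prop :=
  ∀ x ∈ E, ∃ J : OpenPartialHomeomorph ℂ X, J.source = ball (0 : ℂ) 1 ∧ x ∈ J.target

end

end Pool.Agent.Helper64.LN
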