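import Pool.Agent.Helper64.LN.AsmD

set_option autoImplicit false

/-! Project LN, general version: varying sets of marked ends. -/

open Topology Filter Set Metric UpperHalfPlane
open scoped MatrixGroups
open Pool.Agent.Helper78.BigMap

namespace Pool.Agent.Helper64.LN

universe v

section
variable {X : Type v} [TopologicalSpace X]

/-- The data used for the proof. -/
structure LadderG (E : Set X) (P : ℕ → Set X) (O : Set (OpenPartialHomeomorph (Sb E) ℂ))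
    (p : Sb E) (u : ℕ → ℍ → X) (C : ℕ → OpenPartialHomeomorph ℂ X) (K : ℕ → Set X) (γ : ℕ → (ℍ ≃ₜ ℍ))
    (ω : ℕ → C(ℝ, ℍ)) (k : ℕ → OpenPartialHomeomorph ℂ (Sb E)) (W : ℕ → Set (Sb E))
    (y : ℕ → (Sb E ≃ₜ Sb E)) : Prop where
  thin : Thin E
  sub : ∀ i, P i ⊆ E
  ext : ∀ f : Sb E ≃ₜ Sb E, ∃ G : X ≃ₜ X, (∀ x : Sb E, G x = f x) ∧
    ∀ i x, G x ∈ P i ↔ x ∈ P i
  orient : IsOrientedAtlas O
  crv : ∀ i, Crv (p : X) (P i) (u i) (C i) (K i) (γ i) (ω i)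
  esc : ∀ i, Esc (u i)
  chart : ∀ i, (k i).symm ∈ O ∧ (k i).source = {z : ℂ | 1 / 2 < ‖z‖ ∧ ‖z‖ < 2} ∧
    ∀ z ∈ (k i).source, (k i z : X) = C i z
  mono : ∀ i, K i ⊆ interior (K (i + 1))
  exh : ⋃ i, K i = univ
  disj : Pairwise fun i j => Disjoint (W i) (W j)
  out : ∀ i j, i < j → ∀ x ∈ W j, (x : X) ∉ K i
  comp : ∀ i, IsCompact (W i)
  ann : ∀ i z, 3 / 5 ≤ ‖z‖ → ‖z‖ ≤ 3 / 2 → k i z ∈ W i
  pW : ∀ i, p ∉ W i
  yW : ∀ i, ∀ x ∉ W i, y i x = x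
  yO : ∀ i, PreservesOrientation O (y i)
  yF : ∀ i, ∃ F : ℍ ≃ₜ ℍ, (∀ z, (∀ x : Sb E, u i z = x → u i (F z) = y i x) ∧
    (u i z ∈ E → u i (F z) = u i z)) ∧ Cr Sp (γ i) (F * γ i * F⁻¹)

end

section
variable {X : Type v} [TopologicalSpace X] {E : Set X}

/-- The extension homomorphism. -/
lemma exists_epsG [T2Space X] (hE : Thin E) {P : ℕ → Set X}
    (hext : ∀ f : Sb E ≃ₜ Sb E, ∃ G : X ≃ₜ X, (∀ x : Sb E, G x = f x) ∧
      ∀ i x, G x ∈ P i ↔ x ∈ P i) :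
    ∃ ε : (Sb E ≃ₜ Sb E) →* (X ≃ₜ X), (∀ f (x : Sb E), ε f x = f x) ∧
      ∀ f i x, ε f x ∈ P i ↔ x ∈ P i := by
  choose ε h1 h2 using hext
  refine ⟨MonoidHom.mk' ε ?_, h1, h2⟩
  intro f g
  apply ext_uniq hE
  intro x
  rw [h1]
  change _ = ε f (ε g x)
  rw [h1, h1]
  rfl

end

section
variable {X : Type v} [TopologicalSpace X] {E : Set X} {P : ℕ → Set X}
  {O : Set (OpenPartialHomeomorph (Sb E) ℂ)}
  {p : Sb E} {u : ℕ → ℍ → X} {C : ℕ → OpenPartialHomeomorph ℂ X} {K : ℕ → Set X}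
  {γ : ℕ → (ℍ ≃ₜ ℍ)} {ω : ℕ → C(ℝ, ℍ)} {k : ℕ → OpenPartialHomeomorph ℂ (Sb E)}
  {W : ℕ → Set (Sb E)} {y : ℕ → (Sb E ≃ₜ Sb E)}

lemma LadderG.src (L : LadderG E P O p u C K γ ω k W y) (i : ℕ) {z : ℂ} (h1 : 3 / 5 ≤ ‖z‖)
    (h2 : ‖z‖ ≤ 3 / 2) : z ∈ (k i).source := by
  rw [(L.chart i).2.1]
  exact ⟨by linarith, by linarith⟩

lemma LadderG.csph (L : LadderG E P O p u C K γ ω k W y) (i : ℕ) {z : ℂ} (hz : ‖z‖ = 1) :
    k i z ∈ W i ∧ (k i z : X) = C i z :=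
  ⟨L.ann i z (by rw [hz]; norm_num) (by rw [hz]; norm_num),
    (L.chart i).2.2 z (L.src i (by rw [hz]; norm_num) (by rw [hz]; norm_num))⟩

lemma LadderG.mono' (L : LadderG E P O p u C K γ ω k W y) {i j : ℕ} (h : i ≤ j) : K i ⊆ K j := by
  induction h with
  | refl => exact subset_rfl
  | step h ih => exact ih.trans ((L.mono _).trans interior_subset)

/-- Compact sets are contained in some `K i`. -/
lemma LadderG.cpt (L : LadderG E P O p u C K γ ω k W y) {M : Set X} (hM : IsCompact M) :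
    ∃ i, M ⊆ K i := by
  have h1 : M ⊆ ⋃ i, interior (K i) := by
    intro x _
    have : x ∈ ⋃ i, K i := by
      rw [L.exh]
      exact mem_univ x
    obtain ⟨i, hi⟩ := mem_iUnion.1 this
    exact mem_iUnion.2 ⟨i + 1, L.mono i hi⟩
  obtain ⟨t, ht⟩ := hM.elim_finite_subcover _ (fun i => isOpen_interior) h1
  refine ⟨t.sup id, fun x hx => ?_⟩
  obtain ⟨i, hi, h2⟩ := mem_iUnion₂.1 (ht hx)
  exact L.mono' (Finset.le_sup (f := id) hi) (interior_subset h2)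

lemma LadderG.yWW (L : LadderG E P O p u C K γ ω k W y) (i : ℕ) {x : Sb E} (hx : x ∈ W i) :
    y i x ∈ W i := by
  by_contra h
  have h1 := L.yW i _ h
  have h2 := (y i).injective h1
  rw [h2] at h
  exact h hx

/-- Lifts of `y i`. -/
lemma LadderG.lif [T2Space X] (L : LadderG E P O p u C K γ ω k W y) (i : ℕ) {G : X ≃ₜ X}
    (hG : ∀ x : Sb E, G x = y i x) :
    ∃ F : ℍ ≃ₜ ℍ, Lif (u i) G F ∧ Cr Sp (γ i) (F * γ i * F⁻¹) := by
  obtain ⟨F, h1, h2⟩ := L.yF i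
  refine ⟨F, fun z => ?_, h2⟩
  by_cases h : u i z ∈ E
  · rw [(h1 z).2 h, eps_supp L.thin hG (L.comp i) (L.yW i) (u i z)]
    intro w _ h3
    exact w.2 (h3 ▸ h)
  · rw [(h1 z).1 ⟨u i z, h⟩ rfl, ← hG]

end

end Pool.Agent.Helper64.LN
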