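import Pool.Agent.Helper64.LN.GenD
import Pool.Agent.Helper64.LN.AsmE

set_option autoImplicit false

/-! Project LN: assembly, the final argument. -/

open Topology Filter Set Metric UpperHalfPlane
open scoped MatrixGroups
open Pool.Agent.Helper78.BigMap

namespace Pool.Agent.Helper64.LN

universe v

section
variable {X : Type v} [TopologicalSpace X] [T2Space X] [LocallyCompactSpace X] {E : Set X} {P : ℕ → Set X}
  {O : Set (OpenPartialHomeomorph (Sb E) ℂ)}
  {p : Sb E} {u : ℕ → ℍ → X} {C : ℕ → OpenPartialHomeomorph ℂ X} {K : ℕ → Set X}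
  {γ : ℕ → (ℍ ≃ₜ ℍ)} {ω : ℕ → C(ℝ, ℍ)} {k : ℕ → OpenPartialHomeomorph ℂ (Sb E)}
  {W : ℕ → Set (Sb E)} {y : ℕ → (Sb E ≃ₜ Sb E)}

theorem mainG (G : Glg.{v}) [PathConnectedSpace (Sb E)] (L : LadderG E P O p u C K γ ω k W y) :
    ∃ (Θ : (Sb E ≃ₜ Sb E) →* Equiv.Perm (Fin 3)), (∀ f, IsotopicToId f → Θ f = 1) ∧
      ∃ f g : Sb E ≃ₜ Sb E, PreservesOrientation O f ∧ FixesEnds f ∧ PreservesOrientation O g ∧
        FixesEnds g ∧ Θ f * Θ g ≠ Θ g * Θ f := by
  obtain ⟨ε, hε1, hε2⟩ := exists_epsG L.thin L.ext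
  obtain ⟨hm, h1', hloc⟩ := G.oc (Sb E) O L.orient
  -- elements of `FixP`
  have hFix : ∀ i, ∀ f ∈ Stb p, ε f ∈ FixP (p : X) (P i) := by
    intro i f hf
    have hf' : f p = p := hf
    exact ⟨by rw [hε1, hf'], hε2 f i⟩
  let ε' : ∀ i, Stb p →* FixP (p : X) (P i) := fun i =>
    { toFun := fun f => ⟨ε (f : Sb E ≃ₜ Sb E), hFix i f f.2⟩
      map_one' := Subtype.ext (map_one ε)
      map_mul' := fun f g => Subtype.ext (map_mul ε (f : Sb E ≃ₜ Sb E) (g : Sb E ≃ₜ Sb E)) }
  choose Y d ρ o hP hPres hIso hfix hTw using fun i => stage G.toGls (L.crv i) (L.esc i)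
  -- the twists
  have hTo : ∀ i, ∃ T : Sb E ≃ₜ Sb E, IsTw (k i) cho T ∧ PreservesOrientation O T := by
    intro i
    obtain ⟨-, T, -, h2, -⟩ := G.t0 (Sb E) (k i) (L.chart i).2.1
    exact ⟨T, h2, G.or' (Sb E) O (k i) T L.orient (L.chart i).1 (L.chart i).2.1 h2⟩
  choose T hT hTO using hTo
  have hTW : ∀ i, ∀ x ∉ W i, T i x = x := by
    intro i x hx
    apply (hT i).2
    rintro ⟨z, ⟨h1, h2⟩, rfl⟩
    exact hx (L.ann i z h1 h2)
  have hTp : ∀ i, T i ∈ Stb p := fun i => hTW i p (L.pW i)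
  have hyp : ∀ i, y i ∈ Stb p := fun i => L.yW i p (L.pW i)
  have hTX : ∀ i, IsTw (C i) cho (ε (T i)) := by
    intro i
    have hsrc := (L.crv i).src
    have htw : ∀ z ∈ (C i).source, twm cho z ∈ (C i).source := by
      intro z hz
      rw [hsrc] at hz ⊢
      change 1 / 2 < ‖twm cho z‖ ∧ ‖twm cho z‖ < 2
      rw [twm_norm]
      exact hz
    have hkC : ∀ z ∈ (C i).source, (k i z : X) = C i z := by
      intro z hz
      apply (L.chart i).2.2
      rw [(L.chart i).2.1, ← hsrc]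
      exact hz
    constructor
    · intro z hz
      rw [← hkC z hz, hε1, (hT i).1 z (by rw [(L.chart i).2.1, ← hsrc]; exact hz),
        hkC _ (htw z hz)]
    · intro x hx
      apply eps_supp L.thin (hε1 (T i)) (W := k i '' {z : ℂ | 3 / 5 ≤ ‖z‖ ∧ ‖z‖ ≤ 3 / 2})
      · have hcomp : IsCompact {z : ℂ | 3 / 5 ≤ ‖z‖ ∧ ‖z‖ ≤ 3 / 2} := by
          apply (isCompact_closedBall (0 : ℂ) (3 / 2)).of_isClosed_subset
          · exact (isClosed_le continuous_const continuous_norm).inter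
              (isClosed_le continuous_norm continuous_const)
          · intro z hz
            rw [mem_closedBall_zero_iff]
            exact hz.2
        exact hcomp.image_of_continuousOn ((k i).continuousOn.mono fun z hz =>
          L.src i hz.1 hz.2)
      · intro z hz
        exact (hT i).2 z hz
      · rintro _ ⟨z, hz, rfl⟩ h
        apply hx
        refine ⟨z, hz, ?_⟩
        rw [← h]
        exact ((L.chart i).2.2 z (L.src i hz.1 hz.2)).symm
  have htwist : ∀ i, PQ.Twist (d i) (o i) (ρ i (ε' i ⟨T i, hTp i⟩)) (ρ i (ε' i ⟨y i, hyp i⟩)) := by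
    intro i
    exact hTw i _ _ (hTX i) (L.lif i (hε1 (y i)))
  let s : Bool → Equiv.Perm (Fin 3) := fun c => if c then Equiv.swap 0 1 else Equiv.swap 1 2
  choose φ N hφ1 hφ2 hφ3 using fun i => G.a (Y i) 10 (d i) (hP i) (o i) _ _ (htwist i)
    (Equiv.Perm (Fin 3)) s (by
      intro c
      cases c <;> decide)
  let θ : ℕ → ℕ → Stb p → Equiv.Perm (Fin 3) := fun j i f => φ j i (o j) (ρ j (ε' j f) (o j))
  have hmul : ∀ g h : Stb p, ∀ᶠ j in atTop, ∃ F : Finset ℕ, F.card ≤ 12 ∧ ∀ i < j, i ∉ F →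
      θ j i (g * h) = θ j i g * θ j i h := by
    intro g h
    refine Eventually.of_forall fun j => ?_
    obtain ⟨F, F1, F2⟩ := hφ2 j (o j) (ρ j (ε' j g) (o j)) (ρ j (ε' j (g * h)) (o j))
    refine ⟨F, F1, fun i _ hi => ?_⟩
    change φ j i (o j) (ρ j (ε' j (g * h)) (o j)) = _
    rw [← F2 i hi]
    congr 1
    rw [map_mul, map_mul, Equiv.Perm.mul_apply, hφ1 j _ (hPres j _)]
  obtain ⟨Θ, hΘ⟩ := G.f2 (Stb p) (Equiv.Perm (Fin 3)) θ 12 hmul
  -- elements eventually fixing the base points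
  have hker : ∀ g : Stb p, (∀ᶠ j in atTop, ρ j (ε' j g) (o j) = o j) → Θ g = 1 := by
    intro g hg
    apply hΘ g 1
    filter_upwards [hg] with j hj
    obtain ⟨F, F1, F2⟩ := hφ2 j (o j) (o j) (o j)
    refine ⟨F, F1, fun i _ hi => ?_⟩
    change φ j i (o j) (ρ j (ε' j g) (o j)) = 1
    rw [hj]
    have := F2 i hi
    rwa [mul_eq_left] at this
  -- isotopies
  obtain ⟨Nm, hNn, hNm⟩ := G.is (Sb E)
  have hiso : ∀ g : Stb p, (g : Sb E ≃ₜ Sb E) ∈ Nm → Θ g = 1 := by
    intro g hg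
    obtain ⟨H, H1, H2, H3⟩ := (hNm _).1 hg
    let η : C(unitInterval, Sb E) := ⟨fun t => (H (t, p)).2, by fun_prop⟩
    obtain ⟨H', A1, A2, A3, M, A4, A5⟩ := G.pu2 (Sb E) (exists_disc L.orient) η
    have hη0 : η 0 = p := H2 p
    have hη1 : η 1 = p := (H3 p).trans g.2
    have hhp : slice H' A1 p = p := by
      change (H' (1, p)).2 = p
      rw [← hη0, A3, hη1, hη0]
    have hsupp : ∀ x ∉ M, slice H' A1 x = x := fun x hx => A5 1 x hx
    set h : Stb p := ⟨slice H' A1, hhp⟩ with hh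
    -- the isotopy fixing `p`
    let Q : (unitInterval × Sb E) ≃ₜ (unitInterval × Sb E) := H.trans H'.symm
    have hsymm1 : ∀ q, (H'.symm q).1 = q.1 := by
      intro q
      have := A1 (H'.symm q)
      rw [H'.apply_symm_apply] at this
      exact this.symm
    have Q1 : ∀ q, (Q q).1 = q.1 := fun q => (hsymm1 _).trans (H1 q)
    have Q2 : ∀ x, (Q (0, x)).2 = x := by
      intro x
      have e1 : H (0, x) = (0, x) := Prod.ext (H1 _) (H2 x)
      have e2 : H' (0, x) = (0, x) := Prod.ext (A1 _) (A2 x)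
      change (H'.symm (H (0, x))).2 = x
      rw [e1, ← e2, H'.symm_apply_apply]
    have Qp : ∀ t, (Q (t, p)).2 = p := by
      intro t
      have e1 : H (t, p) = (t, η t) := Prod.ext (H1 _) rfl
      have e2 : H' (t, p) = (t, η t) := by
        refine Prod.ext (A1 _) ?_
        have := A3 t
        rwa [hη0] at this
      change (H'.symm (H (t, p))).2 = p
      rw [e1, ← e2, H'.symm_apply_apply]
    have Qe : ∀ x, (Q (1, x)).2 = ((h⁻¹ * g : Stb p) : Sb E ≃ₜ Sb E) x := by
      intro x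
      have e1 : H (1, x) = (1, (g : Sb E ≃ₜ Sb E) x) := Prod.ext (H1 _) (H3 x)
      change (H'.symm (H (1, x))).2 = (H'.symm (1, (g : Sb E ≃ₜ Sb E) x)).2
      rw [e1]
    obtain ⟨R, R1, R2⟩ := G.ex5 X E L.thin Q Q1 Q2
    have hfix1 : ∀ j, ρ j (ε' j (h⁻¹ * g)) = 1 := by
      intro j
      refine hIso j _ R ?_ ?_ ?_
      · intro x
        by_cases hx : x ∈ E
        · exact R2 0 x hx
        · rw [R1 0 ⟨x, hx⟩, Q2]
      · intro x
        change R (1, x) = ε ((h⁻¹ * g : Stb p) : Sb E ≃ₜ Sb E) x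
        have : (fun x => R (1, x)) = fun x => ε ((h⁻¹ * g : Stb p) : Sb E ≃ₜ Sb E) x := by
          have hc : IsClosed {x : X | R (1, x) = ε ((h⁻¹ * g : Stb p) : Sb E ≃ₜ Sb E) x} :=
            isClosed_eq (by fun_prop) (Homeomorph.continuous _)
          have hs : Eᶜ ⊆ {x : X | R (1, x) = ε ((h⁻¹ * g : Stb p) : Sb E ≃ₜ Sb E) x} := by
            intro x hx
            change R (1, ((⟨x, hx⟩ : Sb E) : X)) = ε _ ((⟨x, hx⟩ : Sb E) : X)
            rw [R1, hε1, Qe]
          funext x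
          exact closure_minimal hs hc (thin_dense L.thin x)
        exact congrFun this x
      · intro t x
        by_cases hx : x ∈ E
        · rw [R2 t x hx]
        · have e := R1 t ⟨x, hx⟩
          change R (t, x) = _ at e
          constructor
          · intro h2
            rcases h2 with h2 | h2
            · left
              rw [e] at h2
              have h3 : (Q (t, ⟨x, hx⟩)).2 = p := Subtype.ext h2
              have h4 : Q (t, ⟨x, hx⟩) = Q (t, p) := by
                refine Prod.ext ?_ ?_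
                · rw [Q1, Q1]
                · rw [h3, Qp]
              have h5 := congrArg Prod.snd (Q.injective h4)
              exact congrArg Subtype.val h5
            · exact absurd (L.sub j h2) (by rw [e]; exact (Q (t, ⟨x, hx⟩)).2.2)
          · intro h2
            rcases h2 with h2 | h2
            · left
              rw [e]
              have h3 : (⟨x, hx⟩ : Sb E) = p := Subtype.ext h2
              rw [h3, Qp]
            · exact absurd (L.sub j h2) hx
    apply hker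
    obtain ⟨i, hi⟩ := L.cpt (A4.image continuous_subtype_val)
    filter_upwards [eventually_gt_atTop i] with j hj
    have e1 : g = h * (h⁻¹ * g) := by group
    rw [e1, map_mul, map_mul, Equiv.Perm.mul_apply, hfix1, Equiv.Perm.one_apply]
    apply hfix
    intro z hz
    obtain ⟨a1, a2⟩ := L.csph j (mem_sphere_zero_iff_norm.1 hz)
    change ε (slice H' A1) (C j z) = C j z
    rw [← a2, hε1, hsupp]
    intro h2
    exact L.out i j hj _ a1 (hi ⟨_, h2, rfl⟩)
  -- extension to the whole group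
  obtain ⟨Ξ, hΞ1, hΞ2⟩ := G.gl (Sb E ≃ₜ Sb E) Nm (Stb p) (Equiv.Perm (Fin 3)) (by
    intro g
    obtain ⟨η⟩ := PathConnectedSpace.joined (g p) p
    obtain ⟨H', A1, A2, A3, -⟩ := G.pu2 (Sb E) (exists_disc L.orient) ⟨η, η.continuous⟩
    refine ⟨slice H' A1, (hNm _).2 (slice_iso H' A1 A2), ?_⟩
    change (H' (1, g p)).2 = p
    have h1 := A3 1
    change (H' (1, η 0)).2 = η 1 at h1
    rwa [η.source, η.target] at h1) Θ hiso
  refine ⟨Ξ, fun f hf => hΞ2 f ((hNm f).2 hf), ?_⟩
  -- the two elements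
  have hel : ∀ c : Bool, ∃ f : Sb E ≃ₜ Sb E, PreservesOrientation O f ∧ FixesEnds f ∧
      Ξ f = s c := by
    intro c
    let w : ℕ → (Sb E ≃ₜ Sb E) := fun j => PQ.word (T j) (y j) (fun m => N j m c) j
    have hws : ∀ j, ∀ z ∉ W j, w j z = z := fun j => word_supp (hTW j) (L.yW j) _ j
    have hlf : LocallyFinite W := by
      intro x
      have hx : (x : X) ∈ ⋃ i, K i := by
        rw [L.exh]
        exact mem_univ _
      obtain ⟨i, hi⟩ := mem_iUnion.1 hx
      refine ⟨(fun z : Sb E => (z : X)) ⁻¹' interior (K (i + 1)), ?_, ?_⟩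
      · exact (isOpen_interior.preimage continuous_subtype_val).mem_nhds (L.mono i hi)
      · refine (finite_le_nat (i + 1)).subset ?_
        rintro j ⟨z, hz1, hz2⟩
        by_contra hj
        exact L.out (i + 1) j (not_le.1 hj) z hz1 (interior_subset hz2)
    obtain ⟨f, f1, f2, f3⟩ := G.ip (Sb E) W w (fun i => (L.comp i).isClosed) L.disj hlf hws
    have hfO : PreservesOrientation O f := by
      apply hloc
      intro x
      obtain ⟨i, hi⟩ := f3 x
      exact ⟨w i, word_or hm h1' (hTO i) (L.yO i) _ i, hi⟩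
    have hfW : ∀ i, f '' W i = W i := by
      intro i
      ext z
      constructor
      · rintro ⟨x, hx, rfl⟩
        rw [f1 i x hx]
        exact supp_mem (hws i) hx
      · intro hz
        refine ⟨(w i).symm z, ?_, ?_⟩
        · exact supp_mem (f := (w i).symm) (fun x hx => by
            rw [Homeomorph.symm_apply_eq, hws i x hx]) hz
        · rw [f1 i _ (supp_mem (f := (w i).symm) (fun x hx => by
            rw [Homeomorph.symm_apply_eq, hws i x hx]) hz), Homeomorph.apply_symm_apply]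
    have hfE : FixesEnds f := G.fe (Sb E) W f L.comp L.disj hlf hfW f2
    refine ⟨f, hfO, hfE, ?_⟩
    have hfp : f ∈ Stb p := f2 p L.pW
    have e0 : Ξ f = Θ ⟨f, hfp⟩ := hΞ1 ⟨f, hfp⟩
    rw [e0]
    apply hΘ
    refine Eventually.of_forall fun j => ⟨∅, by simp, fun i hi _ => ?_⟩
    set V : Stb p := PQ.word (⟨T j, hTp j⟩ : Stb p) ⟨y j, hyp j⟩ (fun m => N j m c) j with hV
    have hVw : (V : Sb E ≃ₜ Sb E) = w j := by
      rw [hV]
      exact PQ.word_map (Stb p).subtype _ _ _ _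
    have h5 := hfix j (ε' j (V⁻¹ * ⟨f, hfp⟩)) (by
      intro z hz
      obtain ⟨a1, a2⟩ := L.csph j (mem_sphere_zero_iff_norm.1 hz)
      change ε ((V⁻¹ * ⟨f, hfp⟩ : Stb p) : Sb E ≃ₜ Sb E) (C j z) = C j z
      rw [← a2, hε1]
      congr 1
      change (V : Sb E ≃ₜ Sb E).symm (f (k j z)) = k j z
      rw [f1 j _ a1, Homeomorph.symm_apply_eq, hVw])
    have h6 : ρ j (ε' j ⟨f, hfp⟩) (o j) = ρ j (ε' j V) (o j) := by
      rw [map_mul, map_mul, Equiv.Perm.mul_apply, map_inv, map_inv,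
        Equiv.Perm.inv_eq_iff_eq] at h5
      exact h5
    change φ j i (o j) (ρ j (ε' j ⟨f, hfp⟩) (o j)) = s c
    rw [h6, hV, PQ.word_map, PQ.word_map]
    exact hφ3 j c j i hi
  obtain ⟨f, f1, f2, f3⟩ := hel true
  obtain ⟨g, g1, g2, g3⟩ := hel false
  refine ⟨f, g, f1, f2, g1, g2, ?_⟩
  rw [f3, g3]
  decide

end

end Pool.Agent.Helper64.LN
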