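import Pool.Agent.Helper64.LN.AsmG
import Pool.Agent.Helper64.LN.GenE
import Pool.Agent.Helper64.LN.GenStmt

set_option autoImplicit false

/-! Project LN: the theorem on surfaces with a distinguished end. -/

open Topology Filter Set Metric UpperHalfPlane
open scoped MatrixGroups
open Pool.Agent.Helper78.BigMap

namespace Pool.Agent.Helper64.LN

universe v

section
variable {X : Type v} [TopologicalSpace X] [T2Space X] {E : Set X}
  {O : Set (OpenPartialHomeomorph (Sb E) ℂ)} {p : Sb E} {s : ℕ → GenStmt.Step E}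

lemma gsurf_mono (h : GenStmt.Surf O p s) {i j : ℕ} (h1 : i ≤ j) : (s i).K ⊆ (s j).K := by
  induction h1 with
  | refl => exact subset_rfl
  | step h2 ih => exact ih.trans ((h.mono _).trans interior_subset)

lemma gsurf_cpt (h : GenStmt.Surf O p s) {M : Set X} (hM : IsCompact M) :
    ∃ i, M ⊆ (s i).K := by
  have h1 : M ⊆ ⋃ i, interior (s i).K := by
    intro x _
    have : x ∈ ⋃ i, (s i).K := by
      rw [h.exh]
      exact mem_univ x
    obtain ⟨i, hi⟩ := mem_iUnion.1 this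
    exact mem_iUnion.2 ⟨i + 1, h.mono i hi⟩
  obtain ⟨t, ht⟩ := hM.elim_finite_subcover _ (fun i => isOpen_interior) h1
  refine ⟨t.sup id, fun x hx => ?_⟩
  obtain ⟨i, hi, h2⟩ := mem_iUnion₂.1 (ht hx)
  exact gsurf_mono h (Finset.le_sup (f := id) hi) (interior_subset h2)

lemma gsurf_noncompact (h : GenStmt.Surf O p s) : NoncompactSpace X := by
  rw [← not_compactSpace_iff]
  intro hc
  obtain ⟨i, hi⟩ := gsurf_cpt h (isCompact_univ (X := X))
  have hr := (h.step i).reg
  have h1 : ((s i).k 1 : X) ∈ frontier (s i).K := by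
    rw [hr.fr]
    exact ⟨1, by simp, rfl⟩
  have h2 : (s i).K = univ := eq_univ_of_univ_subset hi
  rw [h2, frontier_univ] at h1
  exact h1

lemma gsurf_loc (h : GenStmt.Surf O p s) : LocallyCompactSpace X := by
  have : WeaklyLocallyCompactSpace X := by
    refine ⟨fun x => ?_⟩
    have : x ∈ ⋃ i, (s i).K := by
      rw [h.exh]
      exact mem_univ x
    obtain ⟨i, hi⟩ := mem_iUnion.1 this
    exact ⟨(s (i + 1)).K, (h.step (i + 1)).reg.comp,
      mem_interior_iff_mem_nhds.1 (h.mono i hi)⟩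
  infer_instance

lemma greg {B : Set X} {k : OpenPartialHomeomorph ℂ (Sb E)} {K : Set X}
    (h : GenStmt.Reg B p k K) : Stmt.Reg B p k K :=
  ⟨h.src, h.tgt, h.comp, h.pK, h.fin, h.col, h.fr, h.conn, h.conn', h.retr⟩

lemma gthin (h : GenStmt.Surf O p s) : Thin E := by
  have ht : Stmt.Thin E := ⟨h.thin.closed, h.thin.td, h.thin.loc⟩
  refine ⟨h.thin.closed, h.thin.td, h.thin.loc, fun L hL => ?_⟩
  obtain ⟨i, hi⟩ := gsurf_cpt h hL
  refine ⟨(s i).K, (h.step i).reg.comp, hi, compl_conn ?_ ht (greg (h.step i).reg)⟩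
  intro b hb
  rcases hb with hb | hb
  · exact Or.inl hb
  · exact Or.inr ((h.step i).marks.1 hb)

/-- Extension of homeomorphisms. -/
lemma gext (hEX2 : GoalEX2.{v}) [LocallyCompactSpace X] [NoncompactSpace X]
    (hE : Thin E) (hd : GenStmt.Distinguished E) {P : ℕ → Set X}
    (hP : ∀ i, GenStmt.Invariant E (P i)) (f : Sb E ≃ₜ Sb E) :
    ∃ G : X ≃ₜ X, (∀ x : Sb E, G x = f x) ∧ ∀ i x, G x ∈ P i ↔ x ∈ P i := by
  obtain ⟨F, a1, a2⟩ := hEX2 X E hE f
  have hes : GenStmt.PresEnds E F := fun z => endSet_iff a1 z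
  have hes' : GenStmt.PresEnds E F.symm := by
    intro z
    have := hes (F.symm z)
    rw [F.apply_symm_apply] at this
    exact this.symm
  have b3 := hd F hes
  obtain ⟨J, c1, -⟩ := a2 (fun x _ => by
    rw [b3]
    exact (OnePoint.coe_ne_infty x).symm)
  have c2 : ∀ x : X, ((J x : X) : OnePoint X) = F x := by
    intro x
    have hc : IsClosed {x : X | ((J x : X) : OnePoint X) = F x} :=
      isClosed_eq (OnePoint.continuous_coe.comp J.continuous)
        (F.continuous.comp OnePoint.continuous_coe)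
    have hs : Eᶜ ⊆ {x : X | ((J x : X) : OnePoint X) = F x} := by
      intro y hy
      change ((J ((⟨y, hy⟩ : Sb E) : X) : X) : OnePoint X) = F (((⟨y, hy⟩ : Sb E) : X))
      rw [c1, a1]
    exact closure_minimal hs hc (thin_dense hE x)
  refine ⟨J, c1, fun i x => ⟨fun hx => ?_, fun hx => ?_⟩⟩
  · obtain ⟨y, hy, h1⟩ := (hP i).2 F.symm hes' _ hx
    rw [c2 x, F.symm_apply_apply] at h1
    exact (OnePoint.coe_injective h1) ▸ hy
  · obtain ⟨y, hy, h1⟩ := (hP i).2 F hes _ hx
    rw [← c2 x] at h1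
    exact (OnePoint.coe_injective h1) ▸ hy

/-- From the statement to the ladder. -/
theorem gladder_of (hL3 : GoalL3.{v}) (h : GenStmt.Surf O p s)
    (hex : ∀ f : Sb E ≃ₜ Sb E, ∃ G : X ≃ₜ X, (∀ x : Sb E, G x = f x) ∧
      ∀ i x, G x ∈ (s i).P ↔ x ∈ (s i).P) :
    ∃ C : ℕ → OpenPartialHomeomorph ℂ X,
      LadderG E (fun i => (s i).P) O p (fun i => (s i).u) C (fun i => (s i).K)
        (fun i => mh (s i).g) (fun i => (s i).ω) (fun i => (s i).k) (fun i => (s i).W)
        (fun i => (s i).y) := by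
  have hthin : Thin E := gthin h
  have huni : ∀ i, Uni (insert (p : X) (s i).P) (s i).u := fun i =>
    ⟨(h.step i).unif.cov, (h.step i).unif.range, (h.step i).unif.deck⟩
  have hyF : ∀ i, ∃ F : ℍ ≃ₜ ℍ, (∀ z, (∀ x : Sb E, (s i).u z = x → (s i).u (F z) = (s i).y x) ∧
      ((s i).u z ∈ E → (s i).u (F z) = (s i).u z)) ∧
      Cr Sp (mh (s i).g) (F * mh (s i).g * F⁻¹) := by
    intro i
    obtain ⟨F, a1, a3⟩ := (h.step i).move.lift
    refine ⟨F, fun z => ⟨a1 z, fun h2 => ?_⟩, fun σ η T b1 b2 b3 => a3 σ η T b1 b2 b3⟩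
    obtain ⟨G, g1, -⟩ := hex (s i).y
    rw [lif_dense hthin (huni i) g1 a1 z,
      eps_supp hthin g1 (h.step i).move.comp (h.step i).move.supp ((s i).u z)]
    intro w _ h3
    exact w.2 (h3 ▸ h2)
  have hcl := h.thin.closed
  have hcrv : ∀ i, Crv (p : X) (s i).P (s i).u (toX hcl p (s i).k) (s i).K (mh (s i).g)
      (s i).ω := by
    intro i
    have hr := (h.step i).reg
    have hg := (h.step i).geod
    have hdk : mh (s i).g ∈ deck (s i).u := mem_deck.2 ⟨_, hg.deck, rfl⟩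
    obtain ⟨A, c1, c2⟩ := (h.step i).unif.cusp
    have hfr : frontier (s i).K = (toX hcl p (s i).k) '' sphere (0 : ℂ) 1 := hr.fr
    refine ⟨huni i, ⟨A, c1, c2⟩, ?_, ?_, hr.comp, hr.pK, ?_, hfr, hr.conn, ?_, hdk,
      hg.core, hg.per, ?_, ?_, hr.fin, ?_, ?_⟩
    · rw [toX_source, hr.src]
    · intro z hz
      rw [toX_source] at hz
      exact hr.tgt z hz
    · intro z hz
      rw [toX_source] at hz
      exact hr.col z hz
    · have e : (s i).Kᶜ \ insert (p : X) (s i).P = (s i).Kᶜ \ (s i).P := by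
        ext x
        constructor
        · rintro ⟨h1, h2⟩
          exact ⟨h1, fun h3 => h2 (Or.inr h3)⟩
        · rintro ⟨h1, h2⟩
          refine ⟨h1, fun h3 => ?_⟩
          rcases h3 with h3 | h3
          · exact h1 (h3 ▸ interior_subset hr.pK)
          · exact h2 h3
      rw [← e]
      exact hr.conn'
    · intro t
      exact (ax_mh _ _).2 (hg.axis t)
    · obtain ⟨F, a1, a2⟩ := hyF i
      obtain ⟨J, b1, -⟩ := hex (s i).y
      exact ⟨_, ((hL3 X _ (s i).u (huni i)).2.2 J F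
        (lif_dense hthin (huni i) b1 (fun z x hx => (a1 z).1 x hx))).1 _ hdk, a2⟩
    · intro b hb
      rcases hb.2 with hb2 | hb2
      · obtain ⟨J, j1, j2⟩ := exists_disc h.orient p
        obtain ⟨J', j3, j4⟩ := disc_small J j1 j2
        refine ⟨toX hcl p J', ?_, ?_⟩
        · rw [toX_source]
          exact j3
        · rw [toX_apply, j4, hb2]
      · obtain ⟨J, j1, j2⟩ := h.planar b ((h.step i).marks.1 hb2)
        exact disc_small J j1 j2
    · obtain ⟨r, r1, r2⟩ := hr.retr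
      refine ⟨r, r1, fun x hx => ?_⟩
      rw [← hfr]
      exact r2 x hx
  refine ⟨fun i => toX hcl p (s i).k, hthin, fun i => (h.step i).marks.1, hex, h.orient, hcrv,
    ?_, ?_, h.mono, h.exh, h.disj, h.out, ?_, ?_, ?_, ?_, ?_, hyF⟩
  · intro i L hL
    obtain ⟨g, g', σ, σ', o1, o2, hc⟩ := (h.step i).escape L hL
    exact ⟨mh g, mem_deck.2 ⟨g, o1.deck, rfl⟩, mh g', mem_deck.2 ⟨g', o2.deck, rfl⟩,
      ⟨σ, o1.per, o1.out⟩, ⟨σ', o2.per, o2.out⟩, fun a b T b1 b2 b3 => hc a b T b1 b2 b3⟩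
  · exact fun i => ⟨(h.step i).atlas, (h.step i).reg.src, fun z _ => (toX_apply hcl p _ z).symm⟩
  · exact fun i => (h.step i).move.comp
  · exact fun i => (h.step i).move.ann
  · exact fun i => (h.step i).move.pW
  · exact fun i => (h.step i).move.supp
  · exact fun i => (h.step i).move.orient

omit [T2Space X] in
/-- The final step. -/
theorem gconcl_of (h : ∃ (Θ : (Sb E ≃ₜ Sb E) →* Equiv.Perm (Fin 3)),
    (∀ f, IsotopicToId f → Θ f = 1) ∧ ∃ f g : Sb E ≃ₜ Sb E, PreservesOrientation O f ∧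
      FixesEnds f ∧ PreservesOrientation O g ∧ FixesEnds g ∧ Θ f * Θ g ≠ Θ g * Θ f) :
    GenStmt.PureNonabelianQuotient O := by
  obtain ⟨Θ, h1, f, g, f1, f2, g1, g2, h2⟩ := h
  have hker : Subgroup.normalClosure {f : GenStmt.MHomeo O | IsotopicToId (f : Sb E ≃ₜ Sb E)} ≤
      (Θ.comp (GenStmt.MHomeo O).subtype).ker := by
    apply Subgroup.normalClosure_le_normal
    intro f hf
    exact h1 f hf
  let Ψ : GenStmt.MG O →* Equiv.Perm (Fin 3) := QuotientGroup.lift _ _ hker
  let f' : GenStmt.MHomeo O := ⟨f, Subgroup.subset_closure f1⟩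
  let g' : GenStmt.MHomeo O := ⟨g, Subgroup.subset_closure g1⟩
  refine ⟨Ψ.range, inferInstance, inferInstance, Ψ.rangeRestrict, Ψ.rangeRestrict_surjective,
    GenStmt.cls f', Subgroup.subset_closure ⟨f', f1, f2, rfl⟩,
    GenStmt.cls g', Subgroup.subset_closure ⟨g', g1, g2, rfl⟩, ?_⟩
  intro h3
  exact h2 (congrArg Subtype.val h3)

/-- Surfaces with a distinguished end. -/
theorem gsurf_main (G : Glg.{v}) (hEX2 : GoalEX2.{v}) [ConnectedSpace (Sb E)]
    (h : GenStmt.Surf O p s) : GenStmt.PureNonabelianQuotient O := by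
  haveI := gsurf_noncompact h
  haveI := gsurf_loc h
  haveI := pathConn h.orient
  obtain ⟨C, L⟩ := gladder_of G.l3 h
    (gext hEX2 (gthin h) h.dist (fun i => (h.step i).marks))
  exact gconcl_of (mainG G L)

end

end Pool.Agent.Helper64.LN
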