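import Pool.Agent.Helper64.LN.Lem

set_option autoImplicit false

/-! Project LN (MP_2b9d24_gt, phase 2): goals, abstract part. -/

open Topology Filter Set Metric UpperHalfPlane
open scoped MatrixGroups

namespace Pool.Agent.Helper64.LN

/-! ### H: the projection axioms -/

/-- GOAL H0 (number of integers between two reals). -/
def GoalH0 : Prop :=
  ∀ A B : ℝ, {k : ℤ | ((k : ℝ) - A) * (k - B) < 0}.Finite ∧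
    |A - B| - 1 ≤ (Nat.card {k : ℤ // ((k : ℝ) - A) * (k - B) < 0} : ℝ) ∧
    (Nat.card {k : ℤ // ((k : ℝ) - A) * (k - B) < 0} : ℝ) ≤ |A - B| + 1

/-- GOAL H1 (the projection distance in terms of twisting numbers). -/
def GoalH1 : Prop :=
  ∀ (H : Type) [Group H] (D : Subgroup H) (Sp : H → H → H → Prop) (l r : H → H → ℝ)
    (sd : H → H → Prop) (Y : Set (Set H)), Geo D Sp l r sd → Fam D Sp Y →
    (∀ x ∈ Y, ∀ y ∈ Y, x ≠ y → ∀ a ∈ x, ∃ b ∈ y, Cr Sp a b) ∧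
    (∀ x ∈ Y, ∀ y ∈ Y, ∀ z ∈ Y, x ≠ y → x ≠ z → ∀ a ∈ x, ∀ b ∈ y, ∀ c ∈ z, Cr Sp a b →
      Cr Sp a c → |tw l r a b - tw l r a c| + 4 ≤ (dY Sp x y z : ℝ) ∧
        (dY Sp x y z : ℝ) ≤ |tw l r a b - tw l r a c| + 8) ∧
    ∀ x ∈ Y, ∀ y ∈ Y, ∀ z ∈ Y, x ≠ y → x ≠ z → 10 < dY Sp x y z →
      ∃ a ∈ x, ∃ b ∈ y, ∃ c ∈ z, Cr Sp a b ∧ Cr Sp a c ∧ ∀ k : ℤ, 0 ≤ k → k ≤ 5 →
        Cr Sp (a ^ k * b * (a ^ k)⁻¹) c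

/-- GOAL H3 (symmetry, reflexivity, triangle inequality). -/
def GoalH3 : Prop :=
  ∀ (H : Type) [Group H] (D : Subgroup H) (Sp : H → H → H → Prop) (l r : H → H → ℝ)
    (sd : H → H → Prop) (Y : Set (Set H)), Geo D Sp l r sd → Fam D Sp Y →
    (∀ x ∈ Y, ∀ y ∈ Y, ∀ z ∈ Y, dY Sp x y z = dY Sp x z y) ∧
    (∀ x ∈ Y, ∀ y ∈ Y, dY Sp x y y ≤ 10) ∧
    ∀ x ∈ Y, ∀ y ∈ Y, ∀ z ∈ Y, ∀ w ∈ Y, x ≠ y → x ≠ z → x ≠ w →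
      dY Sp x y w ≤ dY Sp x y z + dY Sp x z w

/-- GOAL H4 (Behrstock inequality). -/
def GoalH4 : Prop :=
  ∀ (H : Type) [Group H] (D : Subgroup H) (Sp : H → H → H → Prop) (l r : H → H → ℝ)
    (sd : H → H → Prop) (Y : Set (Set H)), Geo D Sp l r sd → Fam D Sp Y →
    ∀ x ∈ Y, ∀ y ∈ Y, ∀ z ∈ Y, x ≠ y → y ≠ z → x ≠ z → 10 < dY Sp x y z → dY Sp y x z ≤ 10

/-- GOAL H5 (enumeration of a periodic discrete set). -/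
def GoalH5 : Prop :=
  ∀ D : Set ℝ, D.Nonempty → (∀ x, x ∈ D ↔ x + 1 ∈ D) → (D ∩ Icc 0 1).Finite →
    ∃ (N : ℕ) (e : ℤ → ℝ), 1 ≤ N ∧ StrictMono e ∧ range e = D ∧ ∀ i, e (i + N) = e i + 1

/-- GOAL H6 (two crossing elements cannot run parallel for a long time). -/
def GoalH6 : Prop :=
  ∀ (H : Type) [Group H] (D : Subgroup H) (Sp : H → H → H → Prop) (l r : H → H → ℝ)
    (sd : H → H → Prop) (Y : Set (Set H)), Geo D Sp l r sd → Fam D Sp Y →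
    ∀ y ∈ Y, ∀ a ∈ D, ∀ c ∈ D, ∀ b ∈ y, Cr Sp a c → Cr Sp a b → Cr Sp c b →
      Cr Sp c (a ^ 3 * b * (a ^ 3)⁻¹) → |l c (a ^ 3 * b * (a ^ 3)⁻¹) - l c b| < 6

/-- GOAL H7 (finiteness). -/
def GoalH7 : Prop :=
  ∀ (H : Type) [Group H] (D : Subgroup H) (Sp : H → H → H → Prop) (l r : H → H → ℝ)
    (sd : H → H → Prop) (Y : Set (Set H)), Geo D Sp l r sd → Fam D Sp Y →
    ∀ y ∈ Y, ∀ z ∈ Y, {x | x ∈ Y ∧ x ≠ y ∧ x ≠ z ∧ 10 < dY Sp x y z}.Finite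

/-! ### Ge: from coordinates to sides and positions -/

/-- GOAL GE1. -/
def GoalGE1 : Prop :=
  ∀ (H : Type) [Group H] (D : Subgroup H) (Sp : H → H → H → Prop) (hy : H → Prop)
    (τ : H → H → ℝ) (κ : H → ℝ), GF D Sp → Coord D Sp hy τ κ → Geo1 D Sp (sdT τ)

/-- GOAL GE2. -/
def GoalGE2 : Prop :=
  ∀ (H : Type) [Group H] (D : Subgroup H) (Sp : H → H → H → Prop) (hy : H → Prop)
    (τ : H → H → ℝ) (κ : H → ℝ), GF D Sp → Coord D Sp hy τ κ → Geo2 D Sp (lT τ κ) (rT τ κ)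

/-- GOAL GE3. -/
def GoalGE3 : Prop :=
  ∀ (H : Type) [Group H] (D : Subgroup H) (Sp : H → H → H → Prop) (hy : H → Prop)
    (τ : H → H → ℝ) (κ : H → ℝ), GF D Sp → Coord D Sp hy τ κ →
    Geo3 D Sp (lT τ κ) (rT τ κ) (sdT τ)

/-! ### R: rigidity -/

/-- GOAL R1. -/
def GoalR1 : Prop :=
  ∀ (H : Type) [Group H] (D : Subgroup H) (Sp : H → H → H → Prop) (l r : H → H → ℝ)
    (sd : H → H → Prop) (γ π γ' : H), Geo D Sp l r sd → SimC D Sp γ π → γ' ∈ D → Hp D Sp γ' →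
    Disj D Sp γ γ' → Bt D Sp γ π γ' → AA D Sp γ π ⊆ AA D Sp γ' π

/-- GOAL R2. -/
def GoalR2 : Prop :=
  ∀ (H : Type) [Group H] (D : Subgroup H) (Sp : H → H → H → Prop) (l r : H → H → ℝ)
    (sd : H → H → Prop) (γ π γ' : H), Geo D Sp l r sd → SimC D Sp γ π → γ' ∈ D → Hp D Sp γ' →
    Disj D Sp γ γ' → Bt D Sp γ π γ' →
    (∀ g ∈ D, Nc (g * γ' * g⁻¹) γ' → ¬ Sp (g * γ' * g⁻¹) π γ') →
    γ' ∈ AA D Sp γ' π ∧ γ' ∉ AA D Sp γ π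

/-- GOAL R3. -/
def GoalR3 : Prop :=
  ∀ (H : Type) [Group H] (D : Subgroup H) (Sp : H → H → H → Prop) (l r : H → H → ℝ)
    (sd : H → H → Prop) (γ π γ' ν : H), Geo D Sp l r sd → SimC D Sp γ π → SimC D Sp γ' π →
    Disj D Sp γ γ' → ¬ Bt D Sp γ π γ' → ν ∈ D → Hp D Sp ν → (∀ g ∈ D, Nc (g * γ * g⁻¹) ν) →
    (∀ g ∈ D, Nc (g * γ' * g⁻¹) ν) → (∀ h ∈ D, ∃ g ∈ D, Sp (g * γ * g⁻¹) (h * π * h⁻¹) ν) →
    (∃ h ∈ D, Sp γ' (h * ν * h⁻¹) π ∧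
      ∀ g ∈ D, Nc (g * γ' * g⁻¹) γ' → ¬ Sp (g * γ' * g⁻¹) (h * ν * h⁻¹) γ') →
    (∀ h ∈ D, Sp γ' (h * π * h⁻¹) π → ∃ g ∈ D, Nc (g * γ' * g⁻¹) γ' ∧
      Sp (g * γ' * g⁻¹) (h * π * h⁻¹) γ') →
    Bt D Sp γ' π γ

/-- GOAL R0 (`AA` is a subgroup). -/
def GoalR0 : Prop :=
  ∀ (H : Type) [Group H] (D : Subgroup H) (Sp : H → H → H → Prop) (l r : H → H → ℝ)
    (sd : H → H → Prop) (γ π : H), Geo D Sp l r sd → SimC D Sp γ π →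
    ∃ A : Subgroup H, (A : Set H) = AA D Sp γ π

/-- GOAL HO (Hopf): a finitely generated residually finite subgroup which is a retract is not
properly contained in an isomorphic subgroup. -/
def GoalHO : Prop :=
  ∀ (H : Type) [Group H] (D A A' : Subgroup H), A ≤ A' → A' ≤ D → A.FG →
    (∀ a ∈ A, a ≠ 1 → ∃ (M : Type) (_ : Group M) (_ : Finite M) (f : A →* M),
      ∃ x : A, (x : H) = a ∧ f x ≠ 1) →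
    Nonempty (A ≃* A') → (∃ ρ : D →* D, (∀ g, (ρ g : H) ∈ A) ∧ ∀ g : D, (g : H) ∈ A → ρ g = g) →
    A = A'

/-- GOAL MA (Malcev): finitely generated groups of Moebius transformations are residually
finite. -/
def GoalMA : Prop :=
  ∀ A : Subgroup (ℍ ≃ₜ ℍ), A.FG → (∀ a ∈ A, ∃ g : SL(2, ℝ), a = mh g) →
    ∀ a ∈ A, a ≠ 1 → ∃ (M : Type) (_ : Group M) (_ : Finite M) (f : A →* M),
      ∃ x : A, (x : ℍ ≃ₜ ℍ) = a ∧ f x ≠ 1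

/-! ### T4: twisting estimate -/

/-- GOAL T4. -/
def GoalT4 : Prop :=
  ∀ (H : Type) [Group H] (D : Subgroup H) (Sp : H → H → H → Prop) (l r : H → H → ℝ)
    (sd : H → H → Prop) (γ Φ : H), Geo D Sp l r sd → γ ∈ D → Φ * γ = γ * Φ →
    (∀ g ∈ D, Φ * g * Φ⁻¹ ∈ D) →
    (∀ a b c, Sp (Φ * a * Φ⁻¹) (Φ * b * Φ⁻¹) (Φ * c * Φ⁻¹) ↔ Sp a b c) →
    (∀ b ∈ D, Cr Sp γ b → ∃ γ₁ ∈ D, ∃ γ₂ ∈ D, Nc γ γ₁ ∧ Nc γ γ₂ ∧ ¬ Cr Sp γ γ₁ ∧ ¬ Cr Sp γ γ₂ ∧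
      (∀ k : ℤ, ¬ Cr Sp γ₁ (γ ^ k * γ₁ * (γ ^ k)⁻¹)) ∧
      (∀ k : ℤ, ¬ Cr Sp γ₂ (γ ^ k * γ₂ * (γ ^ k)⁻¹)) ∧ Cr Sp γ₁ b ∧ Cr Sp γ₂ b ∧
      Sp γ γ₁ γ₂ ∧ Φ * γ₁ * Φ⁻¹ = γ₁ ∧ Φ * γ₂ * Φ⁻¹ = γ * γ₂ * γ⁻¹) →
    ∀ b ∈ D, Cr Sp γ b → ∀ n : ℕ, Φ ^ n * b * (Φ ^ n)⁻¹ ∈ D ∧
      Cr Sp γ (Φ ^ n * b * (Φ ^ n)⁻¹) ∧
      |(|tw l r γ (Φ ^ n * b * (Φ ^ n)⁻¹) - tw l r γ b|) - n| ≤ 2

/-! ### Group lemma -/

/-- GOAL GL (extension of a homomorphism from a supplement of a normal subgroup). -/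
def GoalGL.{v} : Prop :=
  ∀ (G : Type v) [Group G] (N P : Subgroup G) [N.Normal] (M : Type) [Group M],
    (∀ g : G, ∃ n ∈ N, n * g ∈ P) → ∀ θ : P →* M, (∀ g : P, (g : G) ∈ N → θ g = 1) →
    ∃ Θ : G →* M, (∀ g : P, Θ g = θ g) ∧ ∀ n ∈ N, Θ n = 1

/-- GOAL F2 (maps which are eventually homomorphisms up to a bounded number of exceptions). -/
def GoalF2.{v} : Prop :=
  ∀ (G : Type v) [Group G] (M : Type) [Group M] [Finite M] (θ : ℕ → ℕ → G → M) (K : ℕ),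
    (∀ g h, ∀ᶠ j in atTop, ∃ F : Finset ℕ, F.card ≤ K ∧ ∀ i < j, i ∉ F →
      θ j i (g * h) = θ j i g * θ j i h) →
    ∃ Θ : G →* M, ∀ g m,
      (∀ᶠ j in atTop, ∃ F : Finset ℕ, F.card ≤ K ∧ ∀ i < j, i ∉ F → θ j i g = m) → Θ g = m

end Pool.Agent.Helper64.LN
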